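import Mathlib

/-!
Basic notions for the lower bound on the pathwidth of universal graphs:
bag sequences, words over registers, embeddings of words in bag sequences.
-/

set_option autoImplicit false

namespace Pool.Agent.PWU

open Finset

variable {V : Type*}

/-- the interval property of a sequence of bags. -/
def Iv (B : ℕ → Finset V) : Prop :=
  ∀ s t u v, s ≤ t → t ≤ u → v ∈ B s → v ∈ B u → v ∈ B t

theorem Iv.between {B : ℕ → Finset V} (h : Iv B) {s u t : ℕ} {v : V}
    (hs : v ∈ B s) (hu : v ∈ B u) (ht : (s ≤ t ∧ t ≤ u) ∨ (u ≤ t ∧ t ≤ s)) : v ∈ B t := by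
  rcases ht with ht | ht
  · exact h s t u v ht.1 ht.2 hs hu
  · exact h u t s v ht.1 ht.2 hu hs

/-- position `p` of the word `w` is active at time `q`: its letter has not been used again
at the positions `p+1, ..., q`. -/
def Active (w : List ℕ) (p q : ℕ) : Prop :=
  p ≤ q ∧ ∀ m, p < m → m ≤ q → w[m]? ≠ w[p]?

/-- an embedding of the word `w` in the bag sequence `B`. -/
structure IsEmb (B : ℕ → Finset V) (w : List ℕ) (φ : ℕ → V) (θ : ℕ → ℕ) : Prop where
  inj : ∀ p q, p < w.length → q < w.length → φ p = φ q → p = q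
  mem : ∀ p q, q < w.length → Active w p q → φ p ∈ B (θ q)

theorem Active.self (w : List ℕ) (p : ℕ) : Active w p p :=
  ⟨le_rfl, fun _ h1 h2 => absurd h1 (not_lt.mpr h2)⟩

theorem IsEmb.self_mem {B : ℕ → Finset V} {w : List ℕ} {φ : ℕ → V} {θ : ℕ → ℕ}
    (h : IsEmb B w φ θ) {q : ℕ} (hq : q < w.length) : φ q ∈ B (θ q) :=
  h.mem q q hq (Active.self w q)

theorem active_mid {x y z : List ℕ} {p q : ℕ} (hq : q < y.length) (h : Active y p q) :
    Active (x ++ y ++ z) (x.length + p) (x.length + q) := by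
  obtain ⟨hpq, h2⟩ := h
  refine ⟨by omega, fun m h3 h4 => ?_⟩
  have e1 : (x ++ y ++ z)[x.length + p]? = y[p]? := by
    rw [List.append_assoc, List.getElem?_append_right (by omega),
      List.getElem?_append_left (by omega)]
    congr 1; omega
  have e2 : (x ++ y ++ z)[m]? = y[m - x.length]? := by
    rw [List.append_assoc, List.getElem?_append_right (by omega),
      List.getElem?_append_left (by omega)]
  rw [e1, e2]
  exact h2 _ (by omega) (by omega)

theorem IsEmb.mid {B : ℕ → Finset V} {x y z : List ℕ} {φ : ℕ → V} {θ : ℕ → ℕ}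
    (h : IsEmb B (x ++ y ++ z) φ θ) :
    IsEmb B y (fun p => φ (x.length + p)) (fun q => θ (x.length + q)) := by
  constructor
  · intro p q hp hq hpq
    have := h.inj (x.length + p) (x.length + q) (by simp; omega) (by simp; omega) hpq
    omega
  · intro p q hq hact
    exact h.mem _ _ (by simp; omega) (active_mid hq hact)

theorem IsEmb.left {B : ℕ → Finset V} {y z : List ℕ} {φ : ℕ → V} {θ : ℕ → ℕ}
    (h : IsEmb B (y ++ z) φ θ) : IsEmb B y φ θ := by
  have := IsEmb.mid (x := []) (y := y) (z := z) (by simpa using h)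
  simpa using this

theorem IsEmb.right {B : ℕ → Finset V} {x y : List ℕ} {φ : ℕ → V} {θ : ℕ → ℕ}
    (h : IsEmb B (x ++ y) φ θ) :
    IsEmb B y (fun p => φ (x.length + p)) (fun q => θ (x.length + q)) := by
  exact IsEmb.mid (x := x) (y := y) (z := []) (by simpa using h)

/-- last occurrence of the letter `a` at a position at most `q`. -/
def lastOcc (w : List ℕ) (a q : ℕ) : ℕ := Nat.findGreatest (fun p => w[p]? = some a) q

theorem lastOcc_le (w : List ℕ) (a q : ℕ) : lastOcc w a q ≤ q := Nat.findGreatest_le _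

theorem lastOcc_spec {w : List ℕ} {a q p : ℕ} (hp : p ≤ q) (h : w[p]? = some a) :
    w[lastOcc w a q]? = some a := by
  exact Nat.findGreatest_spec (P := fun p => w[p]? = some a) hp h

theorem le_lastOcc {w : List ℕ} {a q p : ℕ} (hp : p ≤ q) (h : w[p]? = some a) :
    p ≤ lastOcc w a q :=
  Nat.le_findGreatest (P := fun p => w[p]? = some a) hp h

theorem lastOcc_active {w : List ℕ} {a q p : ℕ} (hp : p ≤ q) (h : w[p]? = some a) :
    Active w (lastOcc w a q) q := by
  refine ⟨lastOcc_le _ _ _, fun m h1 h2 h3 => ?_⟩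
  rw [lastOcc_spec hp h] at h3
  have := le_lastOcc h2 h3
  omega

theorem lastOcc_active_succ {w : List ℕ} {a q p : ℕ} (hp : p ≤ q) (h : w[p]? = some a)
    (h' : w[q + 1]? ≠ some a) : Active w (lastOcc w a q) (q + 1) := by
  refine ⟨(lastOcc_le _ _ _).trans (Nat.le_succ q), fun m h1 h2 h3 => ?_⟩
  rw [lastOcc_spec hp h] at h3
  rcases Nat.lt_or_ge q m with hm | hm
  · have : m = q + 1 := by omega
    subst this
    exact h' h3
  · have := le_lastOcc hm h3
    omega

theorem lastOcc_inj {w : List ℕ} {a b q p p' : ℕ} (hp : p ≤ q) (h : w[p]? = some a)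
    (hp' : p' ≤ q) (h' : w[p']? = some b) (e : lastOcc w a q = lastOcc w b q) : a = b := by
  have h1 := lastOcc_spec hp h
  have h2 := lastOcc_spec hp' h'
  rw [e, h2] at h1
  exact (Option.some_injective _ h1).symm

/-- discrete intermediate value property. -/
theorem ivt {θ : ℕ → ℕ} {x t : ℕ} : ∀ {y : ℕ}, x ≤ y → θ x ≤ t → t ≤ θ y →
    θ x = t ∨ ∃ q, x ≤ q ∧ q + 1 ≤ y ∧ θ q ≤ t ∧ t ≤ θ (q + 1) := by
  intro y
  induction y with
  | zero =>
    intro h h1 h2
    have : x = 0 := by omega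
    subst this
    left; omega
  | succ y ih =>
    intro h h1 h2
    rcases Nat.lt_or_ge y x with hx | hx
    · have : x = y + 1 := by omega
      subst this
      left; omega
    · rcases Nat.lt_or_ge t (θ y) with hy | hy
      · rcases ih hx h1 (le_of_lt hy) with h3 | ⟨q, h3, h4, h5⟩
        · exact Or.inl h3
        · exact Or.inr ⟨q, h3, by omega, h5⟩
      · exact Or.inr ⟨y, hx, le_rfl, hy, h2⟩

theorem ivt' {θ : ℕ → ℕ} {x t : ℕ} : ∀ {y : ℕ}, x ≤ y → t ≤ θ x → θ y ≤ t →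
    θ x = t ∨ ∃ q, x ≤ q ∧ q + 1 ≤ y ∧ θ (q + 1) ≤ t ∧ t ≤ θ q := by
  intro y
  induction y with
  | zero =>
    intro h h1 h2
    have : x = 0 := by omega
    subst this
    left; omega
  | succ y ih =>
    intro h h1 h2
    rcases Nat.lt_or_ge y x with hx | hx
    · have : x = y + 1 := by omega
      subst this
      left; omega
    · rcases Nat.lt_or_ge (θ y) t with hy | hy
      · rcases ih hx h1 (le_of_lt hy) with h3 | ⟨q, h3, h4, h5⟩
        · exact Or.inl h3
        · exact Or.inr ⟨q, h3, by omega, h5⟩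
      · exact Or.inr ⟨y, hx, le_rfl, h2, hy⟩

/-- `t` lies between `x` and `y` in either order. -/
def Btw (x t y : ℕ) : Prop := (x ≤ t ∧ t ≤ y) ∨ (y ≤ t ∧ t ≤ x)

theorem ivt_gen {θ : ℕ → ℕ} {lo hi q1 q2 t : ℕ} (h1 : lo ≤ q1) (h2 : lo ≤ q2) (h3 : q1 ≤ hi)
    (h4 : q2 ≤ hi) (h5 : θ q1 ≤ t) (h6 : t ≤ θ q2) :
    (∃ q, lo ≤ q ∧ q ≤ hi ∧ θ q = t) ∨
      ∃ q, lo ≤ q ∧ q + 1 ≤ hi ∧ Btw (θ q) t (θ (q + 1)) := by
  rcases Nat.le_total q1 q2 with h | h
  · rcases ivt h h5 h6 with h7 | ⟨q, h7, h8, h9, h10⟩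
    · exact Or.inl ⟨q1, h1, h3, h7⟩
    · exact Or.inr ⟨q, by omega, by omega, Or.inl ⟨h9, h10⟩⟩
  · rcases ivt' h h6 h5 with h7 | ⟨q, h7, h8, h9, h10⟩
    · exact Or.inl ⟨q2, h2, h4, h7⟩
    · exact Or.inr ⟨q, by omega, by omega, Or.inr ⟨h9, h10⟩⟩

theorem Iv.mem_btw {B : ℕ → Finset V} (h : Iv B) {s u t : ℕ} {v : V}
    (hs : v ∈ B s) (hu : v ∈ B u) (ht : Btw s t u) : v ∈ B t :=
  h.between hs hu ht

/-- number of elements of `P` below `t`. -/
def cnt (P : Finset ℕ) (t : ℕ) : ℕ := (P.filter (· < t)).card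

theorem cnt_mono (P : Finset ℕ) {s t : ℕ} (h : s ≤ t) : cnt P s ≤ cnt P t := by
  apply card_le_card
  intro x hx
  simp only [mem_filter] at hx ⊢
  exact ⟨hx.1, by omega⟩

theorem cnt_le_card (P : Finset ℕ) (t : ℕ) : cnt P t ≤ P.card := card_filter_le _ _

theorem lt_of_cnt_lt {P : Finset ℕ} {s t : ℕ} (h : cnt P s < cnt P t) : s < t := by
  by_contra h'
  have := cnt_mono P (not_lt.mp h')
  omega

/-- the number of elements of `P` in `[s, t)`. -/
theorem cnt_add (P : Finset ℕ) {s t : ℕ} (h : s ≤ t) :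
    cnt P t = cnt P s + (P.filter (fun p => s ≤ p ∧ p < t)).card := by
  unfold cnt
  rw [← card_union_of_disjoint]
  · congr 1
    ext x
    simp only [mem_filter, mem_union]
    constructor
    · rintro ⟨h1, h2⟩
      rcases Nat.lt_or_ge x s with h3 | h3
      · exact Or.inl ⟨h1, h3⟩
      · exact Or.inr ⟨h1, h3, h2⟩
    · rintro (⟨h1, h2⟩ | ⟨h1, h2, h3⟩)
      · exact ⟨h1, by omega⟩
      · exact ⟨h1, h3⟩
  · rw [Finset.disjoint_left]
    intro x hx hx'
    simp only [mem_filter] at hx hx'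
    omega

/-- the number of elements of `P` in `[s, t]` is at most one more than the difference. -/
theorem card_Icc_le (P : Finset ℕ) {s t : ℕ} (h : s ≤ t) :
    (P.filter (fun p => s ≤ p ∧ p ≤ t)).card + cnt P s ≤ cnt P t + 1 := by
  have h1 : P.filter (fun p => s ≤ p ∧ p ≤ t) ⊆
      insert t (P.filter (fun p => s ≤ p ∧ p < t)) := by
    intro x hx
    simp only [mem_filter, mem_insert] at hx ⊢
    by_cases hxt : x = t
    · exact Or.inl hxt
    · exact Or.inr ⟨hx.1, hx.2.1, by omega⟩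
  have h2 := card_le_card h1
  have h3 := card_insert_le t (P.filter (fun p => s ≤ p ∧ p < t))
  have h4 := cnt_add P h
  omega

theorem exists_two_of_cnt {P : Finset ℕ} {s t : ℕ} (h : cnt P s + 2 ≤ cnt P t) :
    ∃ p ∈ P, ∃ p' ∈ P, p < p' ∧ s ≤ p ∧ p' < t := by
  have hst : s ≤ t := le_of_lt (lt_of_cnt_lt (P := P) (by omega))
  have h1 := cnt_add P hst
  have h2 : 1 < (P.filter (fun p => s ≤ p ∧ p < t)).card := by omega
  obtain ⟨p, hp, p', hp', hne⟩ := Finset.one_lt_card.mp h2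
  simp only [mem_filter] at hp hp'
  rcases Nat.lt_or_ge p p' with h3 | h3
  · exact ⟨p, hp.1, p', hp'.1, h3, hp.2.1, hp'.2.2⟩
  · exact ⟨p', hp'.1, p, hp.1, by omega, hp'.2.1, hp.2.2⟩

/-- `f` changes by at most one at each step in the range `[lo, hi]`. -/
def Lip (f : ℕ → ℕ) (lo hi : ℕ) : Prop :=
  ∀ q, lo ≤ q → q + 1 ≤ hi → f (q + 1) ≤ f q + 1 ∧ f q ≤ f (q + 1) + 1

theorem Lip.le {f : ℕ → ℕ} {lo hi : ℕ} (h : Lip f lo hi) {x : ℕ} (hx : lo ≤ x) :
    ∀ {d : ℕ}, x + d ≤ hi → f (x + d) ≤ f x + d ∧ f x ≤ f (x + d) + d := by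
  intro d
  induction d with
  | zero => intro _; simp
  | succ d ih =>
    intro hd
    have h1 := ih (by omega)
    have h2 := h (x + d) (by omega) (by omega)
    have : x + (d + 1) = x + d + 1 := by ring
    rw [this]
    omega

theorem Lip.le' {f : ℕ → ℕ} {lo hi : ℕ} (h : Lip f lo hi) {x y : ℕ} (hx : lo ≤ x) (hy : lo ≤ y)
    (hx' : x ≤ hi) (hy' : y ≤ hi) : f y ≤ f x + (y - x) + (x - y) := by
  rcases Nat.le_total x y with hxy | hxy
  · have := (h.le hx (d := y - x) (by omega)).1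
    have e : x + (y - x) = y := by omega
    rw [e] at this
    omega
  · have := (h.le hy (d := x - y) (by omega)).2
    have e : y + (x - y) = x := by omega
    rw [e] at this
    omega

theorem Lip.mono {f : ℕ → ℕ} {lo hi lo' hi' : ℕ} (h : Lip f lo hi) (h1 : lo ≤ lo')
    (h2 : hi' ≤ hi) : Lip f lo' hi' :=
  fun q hq hq' => h q (by omega) (by omega)

end Pool.Agent.PWU
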