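import Pool.Agent.Lib.MP_315eb0_co.Rank

/-!
The words of the next family, and the elementary facts about their letters and offsets.
-/

set_option autoImplicit false

namespace Pool.Agent.PWU

open Finset

variable {V : Type*} {ΩA ΩH : Type}

/-- the data of one block. -/
abbrev Blk (ΩA ΩH : Type) (c z M : ℕ) : Type :=
  (Fin c → ΩA) × Fin M × (∀ e : Fin M, Fin (z ^ (e.1 + 1)) → ΩH)

/-- the word of one block. -/
def blockWord (i r : ℕ) (wA : ΩA → List ℕ) (wH : ΩH → List ℕ) {c z M : ℕ}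
    (x : Blk ΩA ΩH c z M) : List ℕ :=
  famCat i r wA x.1 ++ ([i] ++ famCat (i + 1) r wH (x.2.2 x.2.1))

/-- the list of the blocks. -/
def bigPcs (i r : ℕ) (wA : ΩA → List ℕ) (wH : ΩH → List ℕ) {c z M X : ℕ}
    (ω : Fin X → Blk ΩA ΩH c z M) (s : ℕ) : List ℕ :=
  if h : s < X then blockWord i r wA wH (ω ⟨s, h⟩) else []

/-- the words of the next family. -/
def bigWord (i r : ℕ) (wA : ΩA → List ℕ) (wH : ΩH → List ℕ) {c z M X : ℕ}
    (ω : Fin X → Blk ΩA ΩH c z M) : List ℕ := cat (bigPcs i r wA wH ω) X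

/-- start of block `s`. -/
def bO (i r : ℕ) (wA : ΩA → List ℕ) (wH : ΩH → List ℕ) {c z M X : ℕ}
    (ω : Fin X → Blk ΩA ΩH c z M) (s : ℕ) : ℕ := (cat (bigPcs i r wA wH ω) s).length

/-- length of the `A`-run of block `s`. -/
def lenA (i r : ℕ) (wA : ΩA → List ℕ) {c z M X : ℕ}
    (ω : Fin X → Blk ΩA ΩH c z M) (s : ℕ) : ℕ :=
  if h : s < X then (famCat i r wA (ω ⟨s, h⟩).1).length else 0

/-- length of the content of the `J`-block of block `s`. -/
def lenH (i r : ℕ) (wH : ΩH → List ℕ) {c z M X : ℕ}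
    (ω : Fin X → Blk ΩA ΩH c z M) (s : ℕ) : ℕ :=
  if h : s < X then (famCat (i + 1) r wH ((ω ⟨s, h⟩).2.2 (ω ⟨s, h⟩).2.1)).length else 0

/-- position of the long lived letter of block `s`. -/
def bJ (i r : ℕ) (wA : ΩA → List ℕ) (wH : ΩH → List ℕ) {c z M X : ℕ}
    (ω : Fin X → Blk ΩA ΩH c z M) (s : ℕ) : ℕ := bO i r wA wH ω s + lenA i r wA ω s

variable {i r : ℕ} {wA : ΩA → List ℕ} {wH : ΩH → List ℕ} {c z M X : ℕ}
  {ω : Fin X → Blk ΩA ΩH c z M}

theorem bigPcs_of_lt {s : ℕ} (h : s < X) :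
    bigPcs i r wA wH ω s = famCat i r wA (ω ⟨s, h⟩).1 ++
      ([i] ++ famCat (i + 1) r wH ((ω ⟨s, h⟩).2.2 (ω ⟨s, h⟩).2.1)) := by
  simp [bigPcs, h, blockWord]

theorem bO_succ {s : ℕ} (h : s < X) :
    bO i r wA wH ω (s + 1) = bJ i r wA wH ω s + 1 + lenH i r wH ω s := by
  unfold bO bJ bO lenA lenH
  rw [cat_length_succ, bigPcs_of_lt h]
  simp only [h, dite_true, List.length_append, List.length_singleton]
  omega

theorem bO_zero : bO i r wA wH ω 0 = 0 := by simp [bO]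

theorem bO_top : bO i r wA wH ω X = (bigWord i r wA wH ω).length := rfl

theorem bO_mono {s t : ℕ} (h : s ≤ t) : bO i r wA wH ω s ≤ bO i r wA wH ω t :=
  cat_length_mono _ h

theorem bO_le_bJ (s : ℕ) : bO i r wA wH ω s ≤ bJ i r wA wH ω s := by
  unfold bJ; omega

theorem big_split {s : ℕ} (h : s < X) : ∃ rest, bigWord i r wA wH ω =
    cat (bigPcs i r wA wH ω) s ++ (famCat i r wA (ω ⟨s, h⟩).1 ++
      ([i] ++ famCat (i + 1) r wH ((ω ⟨s, h⟩).2.2 (ω ⟨s, h⟩).2.1))) ++ rest := by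
  obtain ⟨rest, hr⟩ := cat_split (bigPcs i r wA wH ω) h
  exact ⟨rest, by rw [bigWord, hr, bigPcs_of_lt h]⟩

theorem embA {B : ℕ → Finset V} {φ : ℕ → V} {θ : ℕ → ℕ}
    (hemb : IsEmb B (bigWord i r wA wH ω) φ θ) {s : ℕ} (h : s < X) :
    IsEmb B (famCat i r wA (ω ⟨s, h⟩).1) (fun p => φ (bO i r wA wH ω s + p))
      (fun q => θ (bO i r wA wH ω s + q)) := by
  obtain ⟨rest, hr⟩ := big_split (wA := wA) (wH := wH) (i := i) (r := r) (ω := ω) h
  rw [hr] at hemb
  exact hemb.mid.left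

theorem embH {B : ℕ → Finset V} {φ : ℕ → V} {θ : ℕ → ℕ}
    (hemb : IsEmb B (bigWord i r wA wH ω) φ θ) {s : ℕ} (h : s < X) :
    IsEmb B (famCat (i + 1) r wH ((ω ⟨s, h⟩).2.2 (ω ⟨s, h⟩).2.1))
      (fun p => φ (bJ i r wA wH ω s + 1 + p))
      (fun q => θ (bJ i r wA wH ω s + 1 + q)) := by
  obtain ⟨rest, hr⟩ := big_split (wA := wA) (wH := wH) (i := i) (r := r) (ω := ω) h
  rw [hr] at hemb
  have h1 := hemb.mid.right.right
  have e : ∀ p, bJ i r wA wH ω s + 1 + p = (cat (bigPcs i r wA wH ω) s).length +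
      ((famCat i r wA (ω ⟨s, h⟩).1).length + ([i].length + p)) := by
    intro p
    unfold bJ bO lenA
    simp only [h, dite_true, List.length_singleton]
    omega
  simp only [e]
  exact h1

theorem get_J {s : ℕ} (h : s < X) :
    (bigWord i r wA wH ω)[bJ i r wA wH ω s]? = some i := by
  obtain ⟨rest, hr⟩ := big_split (wA := wA) (wH := wH) (i := i) (r := r) (ω := ω) h
  rw [hr, List.append_assoc]
  have hJ : bJ i r wA wH ω s = (cat (bigPcs i r wA wH ω) s).length +
      (famCat i r wA (ω ⟨s, h⟩).1).length := by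
    unfold bJ bO lenA
    simp only [h, dite_true]
  rw [hJ, List.getElem?_append_right (by omega), List.append_assoc,
    List.getElem?_append_right (by omega)]
  simp

/-- letters of the content of the `J`-block. -/
theorem get_H {s k : ℕ} (h : s < X) (hk : k < lenH i r wH ω s) :
    (bigWord i r wA wH ω)[bJ i r wA wH ω s + 1 + k]? =
      (famCat (i + 1) r wH ((ω ⟨s, h⟩).2.2 (ω ⟨s, h⟩).2.1))[k]? := by
  obtain ⟨rest, hr⟩ := big_split (wA := wA) (wH := wH) (i := i) (r := r) (ω := ω) h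
  rw [hr, List.append_assoc]
  have hk' : k < (famCat (i + 1) r wH ((ω ⟨s, h⟩).2.2 (ω ⟨s, h⟩).2.1)).length := by
    unfold lenH at hk
    simpa [h] using hk
  have hJ : bJ i r wA wH ω s = (cat (bigPcs i r wA wH ω) s).length +
      (famCat i r wA (ω ⟨s, h⟩).1).length := by
    unfold bJ bO lenA
    simp only [h, dite_true]
  rw [hJ, List.getElem?_append_right (by omega), List.append_assoc,
    List.getElem?_append_right (by omega), List.append_assoc,
    List.getElem?_append_right (by simp; omega), List.getElem?_append_left (by simp; omega)]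
  congr 1
  simp only [List.length_singleton]
  omega

theorem famCat_mem {Ω : Type*} {i r : ℕ} {w : Ω → List ℕ} {Z : ℕ} {ω : Fin Z → Ω}
    (hlet : ∀ ω, ∀ a ∈ w ω, i ≤ a ∧ a < r) {a : ℕ} (ha : a ∈ famCat i r w ω) :
    i ≤ a ∧ a < r := by
  obtain ⟨s, hs, h⟩ := mem_cat ha
  rw [pcs_of_lt i r w ω hs, List.mem_append] at h
  rcases h with h | h
  · exact refr_mem h
  · exact hlet _ _ h

theorem famCat_get {Ω : Type*} {i r : ℕ} {w : Ω → List ℕ} {Z : ℕ} {ω : Fin Z → Ω}
    (hZ : 1 ≤ Z) {a : ℕ} (h1 : i ≤ a) (h2 : a < r) : (famCat i r w ω)[a - i]? = some a := by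
  obtain ⟨rest, hr⟩ := cat_split (pcs i r w ω) (s := 0) (Z := Z) (by omega)
  rw [famCat, hr, pcs_of_lt i r w ω (by omega)]
  simp only [cat_zero, List.nil_append, List.append_assoc]
  exact getElem_append_of_left (refr_get h1 h2)

theorem famCat_length_ge {Ω : Type*} {i r : ℕ} {w : Ω → List ℕ} {Z : ℕ} {ω : Fin Z → Ω}
    (hZ : 1 ≤ Z) : r - i ≤ (famCat i r w ω).length := by
  have h1 := off_succ i r w ω (s := 0) (by omega)
  have h2 := off_le i r w ω (s := 1) (by omega)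
  simp only [cat_zero, List.length_nil] at h1
  simp only [Nat.zero_add] at h1
  omega

theorem famCat_length_le {Ω : Type*} {i r ℓ : ℕ} {w : Ω → List ℕ} {Z : ℕ} {ω : Fin Z → Ω}
    (hlen : ∀ ω, (w ω).length ≤ ℓ) : (famCat i r w ω).length ≤ Z * (r - i + ℓ) := by
  apply cat_length_le
  intro s hs
  rw [pcs_of_lt i r w ω hs, List.length_append, refr_length]
  have := hlen (ω ⟨s, hs⟩)
  omega

/-- letters strictly inside the content of a `J`-block are different from `i`. -/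
theorem get_H_ne {s m : ℕ} (hlet : ∀ ω, ∀ a ∈ wH ω, i + 1 ≤ a ∧ a < r) (h : s < X)
    (h1 : bJ i r wA wH ω s < m) (h2 : m < bO i r wA wH ω (s + 1)) :
    (bigWord i r wA wH ω)[m]? ≠ some i := by
  rw [bO_succ h] at h2
  have e : m = bJ i r wA wH ω s + 1 + (m - (bJ i r wA wH ω s + 1)) := by omega
  rw [e, get_H h (by omega)]
  intro hc
  have hmem := List.mem_of_getElem? hc
  have := famCat_mem hlet hmem
  omega

theorem get_H_refr {s a : ℕ} (hz : 1 ≤ z) (h : s < X) (h1 : i + 1 ≤ a) (h2 : a < r) :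
    (bigWord i r wA wH ω)[bJ i r wA wH ω s + 1 + (a - (i + 1))]? = some a := by
  have hlen : r - (i + 1) ≤ lenH i r wH ω s := by
    unfold lenH
    simp only [h, dite_true]
    exact famCat_length_ge (Nat.one_le_pow _ _ hz)
  rw [get_H h (by omega)]
  exact famCat_get (Nat.one_le_pow _ _ hz) h1 h2

theorem get_refr {a : ℕ} (hc : 1 ≤ c) (hX : 1 ≤ X) (h1 : i ≤ a) (h2 : a < r) :
    (bigWord i r wA wH ω)[a - i]? = some a := by
  obtain ⟨rest, hr⟩ := big_split (wA := wA) (wH := wH) (i := i) (r := r) (ω := ω) (s := 0)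
    (by omega)
  rw [hr]
  simp only [cat_zero, List.nil_append, List.append_assoc]
  exact getElem_append_of_left (famCat_get hc h1 h2)

theorem lenH_ge {s : ℕ} (hz : 1 ≤ z) (h : s < X) : r - (i + 1) ≤ lenH i r wH ω s := by
  unfold lenH
  simp only [h, dite_true]
  exact famCat_length_ge (Nat.one_le_pow _ _ hz)

theorem lenA_ge {s : ℕ} (hc : 1 ≤ c) (h : s < X) : r - i ≤ lenA i r wA ω s := by
  unfold lenA
  simp only [h, dite_true]
  exact famCat_length_ge hc

theorem lenA_le {s ℓ : ℕ} (hlen : ∀ ω, (wA ω).length ≤ ℓ) :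
    lenA i r wA ω s ≤ c * (r - i + ℓ) := by
  unfold lenA
  split_ifs with h
  · exact famCat_length_le hlen
  · omega

theorem lenH_le {s ℓ : ℕ} (hlen : ∀ ω, (wH ω).length ≤ ℓ) (h : s < X) :
    lenH i r wH ω s ≤ z ^ ((ω ⟨s, h⟩).2.1.1 + 1) * (r - i + ℓ) := by
  unfold lenH
  simp only [h, dite_true]
  refine (famCat_length_le hlen).trans ?_
  apply Nat.mul_le_mul le_rfl
  omega

end Pool.Agent.PWU
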