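import Pool.Agent.Lib.MP_315eb0_co.Basic

/-!
The counting lemma: few sequences admit a slow path with many rare events.
-/

set_option autoImplicit false

namespace Pool.Agent.PWU

open Finset

/-- the sequences `ω` of length `Z` which admit a path `l` starting at `l0`, moving in each step
to one of the neighbours, and seeing at least `m` events. -/
def PathSet {Ω Λ : Type*} (nb : Λ → Finset Λ) (Bad : Λ → Λ → Finset Ω) (Z m : ℕ) (l0 : Λ) :
    Set (Fin Z → Ω) :=
  {ω | ∃ l : ℕ → Λ, l 0 = l0 ∧ (∀ s, s < Z → l (s + 1) ∈ nb (l s)) ∧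
    ∃ T : Finset (Fin Z), m ≤ T.card ∧ ∀ s ∈ T, ω s ∈ Bad (l s) (l (s + 1))}

theorem pathSet_succ {Ω Λ : Type*} (nb : Λ → Finset Λ) (Bad : Λ → Λ → Finset Ω) (Z m : ℕ)
    (l0 : Λ) (ω : Fin (Z + 1) → Ω) (h : ω ∈ PathSet nb Bad (Z + 1) m l0) :
    ∃ l1 ∈ nb l0, (ω 0 ∈ Bad l0 l1 ∧ Fin.tail ω ∈ PathSet nb Bad Z (m - 1) l1) ∨
      Fin.tail ω ∈ PathSet nb Bad Z m l1 := by
  obtain ⟨l, h0, h1, T, hT, hT'⟩ := h
  refine ⟨l 1, by rw [← h0]; exact h1 0 (by omega), ?_⟩
  -- the tail of the set T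
  have key : ∀ m', m' ≤ (T.erase 0).card → Fin.tail ω ∈ PathSet nb Bad Z m' (l 1) := by
    intro m' hm'
    refine ⟨fun s => l (s + 1), rfl, fun s hs => h1 (s + 1) (by omega),
      univ.filter (fun s : Fin Z => s.succ ∈ T), ?_, ?_⟩
    · refine hm'.trans ?_
      refine Finset.card_le_card_of_surjOn Fin.succ ?_
      intro x hx
      simp only [coe_erase, Set.mem_diff, mem_coe, Set.mem_singleton_iff] at hx
      obtain ⟨y, hy⟩ := Fin.exists_succ_eq.mpr hx.2
      refine ⟨y, ?_, hy⟩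
      simp only [coe_filter, mem_univ, true_and, Set.mem_setOf_eq]
      rw [hy]; exact hx.1
    · intro s hs
      simp only [mem_filter, mem_univ, true_and] at hs
      have := hT' _ hs
      simpa [Fin.tail] using this
  by_cases h00 : (0 : Fin (Z + 1)) ∈ T
  · left
    refine ⟨?_, key _ ?_⟩
    · have := hT' 0 h00
      rw [← h0]
      simpa using this
    · rw [card_erase_of_mem h00]; omega
  · right
    apply key
    rw [erase_eq_of_notMem h00]; exact hT

theorem card_pathSet {Ω Λ : Type*} [Fintype Ω] (nb : Λ → Finset Λ) (b : ℕ)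
    (hb : ∀ l, (nb l).card ≤ b) (Bad : Λ → Λ → Finset Ω) (κ : ℕ)
    (hBad : ∀ l l', κ * (Bad l l').card ≤ Fintype.card Ω) :
    ∀ (Z m : ℕ) (l0 : Λ), κ ^ m * (PathSet nb Bad Z m l0).ncard ≤
      (2 * b * Fintype.card Ω) ^ Z := by
  classical
  intro Z
  induction Z with
  | zero =>
    intro m l0
    rcases Nat.eq_zero_or_pos m with hm | hm
    · subst hm
      have : (PathSet nb Bad 0 0 l0).ncard ≤ Nat.card (Fin 0 → Ω) := by
        rw [← Set.ncard_univ]
        exact Set.ncard_le_ncard (Set.subset_univ _) (Set.toFinite _)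
      simpa using this
    · have : PathSet nb Bad 0 m l0 = ∅ := by
        ext ω
        simp only [Set.mem_empty_iff_false, iff_false]
        rintro ⟨l, _, _, T, hT, _⟩
        have : T.card = 0 := by
          rw [Finset.card_eq_zero]; ext x; exact x.elim0
        omega
      rw [this]; simp
  | succ Z ih =>
    intro m l0
    -- cover of the path set
    set c := Fintype.card Ω with hc
    let cov : Λ → Set (Fin (Z + 1) → Ω) := fun l1 =>
      (fun x : Ω × (Fin Z → Ω) => (Fin.cons x.1 x.2 : Fin (Z + 1) → Ω)) ''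
        ((↑(Bad l0 l1) : Set Ω) ×ˢ (PathSet nb Bad Z (m - 1) l1)) ∪
      (fun x : Ω × (Fin Z → Ω) => (Fin.cons x.1 x.2 : Fin (Z + 1) → Ω)) ''
        ((Set.univ : Set Ω) ×ˢ (PathSet nb Bad Z m l1))
    have hsub : PathSet nb Bad (Z + 1) m l0 ⊆ ⋃ l1 ∈ nb l0, cov l1 := by
      intro ω hω
      obtain ⟨l1, hl1, h⟩ := pathSet_succ nb Bad Z m l0 ω hω
      simp only [Set.mem_iUnion]
      refine ⟨l1, hl1, ?_⟩
      rcases h with ⟨h1, h2⟩ | h
      · left
        exact ⟨(ω 0, Fin.tail ω), ⟨h1, h2⟩, Fin.cons_self_tail ω⟩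
      · right
        exact ⟨(ω 0, Fin.tail ω), ⟨trivial, h⟩, Fin.cons_self_tail ω⟩
    have hcard1 : (PathSet nb Bad (Z + 1) m l0).ncard ≤ ∑ l1 ∈ nb l0, (cov l1).ncard := by
      refine (Set.ncard_le_ncard hsub (Set.toFinite _)).trans ?_
      exact Finset.set_ncard_biUnion_le _ _
    have hcov : ∀ l1, κ ^ m * (cov l1).ncard ≤ 2 * c * (2 * b * c) ^ Z := by
      intro l1
      have h1 : (cov l1).ncard ≤ (Bad l0 l1).card * (PathSet nb Bad Z (m - 1) l1).ncard +
          c * (PathSet nb Bad Z m l1).ncard := by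
        refine (Set.ncard_union_le _ _).trans ?_
        refine Nat.add_le_add ?_ ?_
        · refine (Set.ncard_image_le (Set.toFinite _)).trans ?_
          rw [Set.ncard_prod, Set.ncard_coe_finset]
        · refine (Set.ncard_image_le (Set.toFinite _)).trans ?_
          rw [Set.ncard_prod, Set.ncard_univ, Nat.card_eq_fintype_card]
      rcases Nat.eq_zero_or_pos m with hm | hm
      · subst hm
        -- no events needed: the whole set is covered by the second part
        have h2 := ih 0 l1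
        have h3 : (cov l1).ncard ≤ c * (PathSet nb Bad Z 0 l1).ncard + c * (PathSet nb Bad Z 0 l1).ncard := by
          refine h1.trans ?_
          refine Nat.add_le_add ?_ le_rfl
          refine Nat.mul_le_mul ?_ le_rfl
          exact Finset.card_le_univ _
        calc κ ^ 0 * (cov l1).ncard ≤ κ ^ 0 * (c * (PathSet nb Bad Z 0 l1).ncard + c * (PathSet nb Bad Z 0 l1).ncard) :=
              Nat.mul_le_mul le_rfl h3
          _ = 2 * c * (κ ^ 0 * (PathSet nb Bad Z 0 l1).ncard) := by ring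
          _ ≤ 2 * c * (2 * b * c) ^ Z := Nat.mul_le_mul le_rfl h2
      · obtain ⟨m', rfl⟩ : ∃ m', m = m' + 1 := ⟨m - 1, by omega⟩
        simp only [Nat.add_sub_cancel] at h1
        have h2 := ih m' l1
        have h3 := ih (m' + 1) l1
        have h4 := hBad l0 l1
        calc κ ^ (m' + 1) * (cov l1).ncard
            ≤ κ ^ (m' + 1) * ((Bad l0 l1).card * (PathSet nb Bad Z m' l1).ncard +
              c * (PathSet nb Bad Z (m' + 1) l1).ncard) := Nat.mul_le_mul le_rfl h1
          _ = (κ * (Bad l0 l1).card) * (κ ^ m' * (PathSet nb Bad Z m' l1).ncard) +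
              c * (κ ^ (m' + 1) * (PathSet nb Bad Z (m' + 1) l1).ncard) := by ring
          _ ≤ c * (2 * b * c) ^ Z + c * (2 * b * c) ^ Z :=
              Nat.add_le_add (Nat.mul_le_mul h4 h2) (Nat.mul_le_mul le_rfl h3)
          _ = 2 * c * (2 * b * c) ^ Z := by ring
    calc κ ^ m * (PathSet nb Bad (Z + 1) m l0).ncard
        ≤ κ ^ m * ∑ l1 ∈ nb l0, (cov l1).ncard := Nat.mul_le_mul le_rfl hcard1
      _ = ∑ l1 ∈ nb l0, κ ^ m * (cov l1).ncard := by rw [Finset.mul_sum]
      _ ≤ ∑ l1 ∈ nb l0, 2 * c * (2 * b * c) ^ Z := Finset.sum_le_sum (fun l1 _ => hcov l1)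
      _ = (nb l0).card * (2 * c * (2 * b * c) ^ Z) := by rw [Finset.sum_const, smul_eq_mul]
      _ ≤ b * (2 * c * (2 * b * c) ^ Z) := Nat.mul_le_mul (hb l0) le_rfl
      _ = (2 * b * c) ^ (Z + 1) := by ring

end Pool.Agent.PWU
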