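import Pool.Agent.Lib.MP_315eb0_co.Step

/-!
The deterministic part of the induction step: an embedding of a word of the next family in which
no run is exceptional gives a slow path with many rare events.
-/

set_option autoImplicit false

namespace Pool.Agent.PWU

open Finset

variable {V : Type*} [DecidableEq V] {ΩA ΩH : Type}

/-- the possible sizes of a `J`-block which crosses from rank `l` to rank `l'`. -/
noncomputable def Est (P Q : Finset ℕ) (Γ y z L' M : ℕ) (l l' : ℕ) : Finset (Fin M) :=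
  if l = l' then ∅ else univ.filter (fun e => y * z ^ e.1 ≤ gap P Q Γ l l' + 2 * Γ ∧
    gap P Q Γ l l' ≤ 2 * Γ + z ^ (e.1 + 1) * L')

theorem Est_card {P Q : Finset ℕ} {Γ y z L' M : ℕ} (hz : 1 ≤ z) (hy : 4 * Γ + L' < y)
    (l l' : ℕ) : (Est P Q Γ y z L' M l l').card ≤ 1 := by
  unfold Est
  split_ifs with h
  · simp
  · rw [Finset.card_le_one]
    have main : ∀ e e' : Fin M, y * z ^ e'.1 ≤ gap P Q Γ l l' + 2 * Γ →
        gap P Q Γ l l' ≤ 2 * Γ + z ^ (e.1 + 1) * L' → ¬ e < e' := by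
      intro e e' h1 h2 h3
      have h4 : z ^ (e.1 + 1) ≤ z ^ e'.1 := Nat.pow_le_pow_right hz h3
      have h5 : 1 ≤ z ^ e'.1 := Nat.one_le_pow _ _ hz
      have h6 : z ^ (e.1 + 1) * L' ≤ z ^ e'.1 * L' := Nat.mul_le_mul h4 le_rfl
      have h7 : (4 * Γ + L' + 1) * z ^ e'.1 ≤ y * z ^ e'.1 := Nat.mul_le_mul hy le_rfl
      nlinarith
    intro e he e' he'
    simp only [mem_filter, mem_univ, true_and] at he he'
    rcases lt_trichotomy e e' with h1 | h1 | h1
    · exact absurd h1 (main e e' he'.1 he.2)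
    · exact h1
    · exact absurd h1 (main e' e he.1 he'.2)

/-- position from which the `A`-run number `s` is measured. -/
def bU (i r : ℕ) (wA : ΩA → List ℕ) (wH : ΩH → List ℕ) {c z M X : ℕ}
    (ω : Fin X → Blk ΩA ΩH c z M) (s : ℕ) : ℕ :=
  if s = 0 then r - i - 1 else bO i r wA wH ω s - 1

/-- lower bound for the positions of the witnesses of the `A`-run number `s`. -/
def bL (i r : ℕ) (wA : ΩA → List ℕ) (wH : ΩH → List ℕ) {c z M X : ℕ}
    (ω : Fin X → Blk ΩA ΩH c z M) (s : ℕ) : ℕ :=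
  if s = 0 then 0 else bJ i r wA wH ω (s - 1) + 1

section
variable {i r ℓ : ℕ} {wA : ΩA → List ℕ} {wH : ΩH → List ℕ} {c z M X : ℕ}
  {ω : Fin X → Blk ΩA ΩH c z M}

theorem bJ_lt {s : ℕ} (hc : 1 ≤ c) (hz : 1 ≤ z) (hs : s < X) :
    bO i r wA wH ω s + (r - i) ≤ bJ i r wA wH ω s ∧
    bJ i r wA wH ω s + 1 + (r - (i + 1)) ≤ bO i r wA wH ω (s + 1) ∧
    bO i r wA wH ω (s + 1) ≤ (bigWord i r wA wH ω).length := by
  refine ⟨?_, ?_, ?_⟩
  · have := lenA_ge (i := i) (r := r) (wA := wA) (ω := ω) hc hs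
    unfold bJ; omega
  · have := lenH_ge (i := i) (r := r) (wH := wH) (ω := ω) hz hs
    rw [bO_succ hs]; omega
  · rw [← bO_top]
    exact bO_mono (by omega)

theorem bU_facts {s : ℕ} (hir : i + 3 ≤ r) (hc : 1 ≤ c) (hz : 1 ≤ z) (hs : s < X) :
    r - i - 1 ≤ bU i r wA wH ω s ∧ bU i r wA wH ω s ≤ bO i r wA wH ω s + (r - i - 1) ∧
    bU i r wA wH ω s < bJ i r wA wH ω s ∧ bL i r wA wH ω s ≤ bU i r wA wH ω s := by
  have h1 := bJ_lt (i := i) (r := r) (wA := wA) (wH := wH) (ω := ω) hc hz hs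
  unfold bU bL
  rcases Nat.eq_zero_or_pos s with h | h
  · subst h
    simp only [if_true]
    omega
  · have hne : s ≠ 0 := by omega
    simp only [hne, if_false]
    have h2 := bJ_lt (i := i) (r := r) (wA := wA) (wH := wH) (ω := ω) (s := s - 1) hc hz
      (by omega)
    have e : s - 1 + 1 = s := by omega
    rw [e] at h2
    omega

theorem bJ_mono {s t : ℕ} (hc : 1 ≤ c) (hz : 1 ≤ z) (ht : t < X) (h : s ≤ t) :
    bJ i r wA wH ω s ≤ bJ i r wA wH ω t := by
  rcases Nat.eq_or_lt_of_le h with h1 | h1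
  · subst h1; exact le_rfl
  · have h2 := bJ_lt (i := i) (r := r) (wA := wA) (wH := wH) (ω := ω) (s := s) hc hz (by omega)
    have h3 := bO_mono (i := i) (r := r) (wA := wA) (wH := wH) (ω := ω)
      (show s + 1 ≤ t by omega)
    have h4 := bO_le_bJ (i := i) (r := r) (wA := wA) (wH := wH) (ω := ω) t
    omega

omit [DecidableEq V] in
/-- every time in the hull of an `A`-run is in the bag of a vertex created nearby. -/
theorem run_witness {B : ℕ → Finset V} (hB : Iv B) (hir : i + 3 ≤ r) (hc : 1 ≤ c) (hz : 1 ≤ z)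
    {φ : ℕ → V} {θ : ℕ → ℕ} (hemb : IsEmb B (bigWord i r wA wH ω) φ θ) {s : ℕ} (hs : s < X)
    {q1 q2 t : ℕ} (h1 : bU i r wA wH ω s ≤ q1) (h1' : q1 ≤ bJ i r wA wH ω s)
    (h2 : bU i r wA wH ω s ≤ q2) (h2' : q2 ≤ bJ i r wA wH ω s)
    (ht1 : θ q1 ≤ t) (ht2 : t ≤ θ q2) :
    ∃ p, bL i r wA wH ω s ≤ p ∧ p ≤ bJ i r wA wH ω s ∧ φ p ∈ B t := by
  have hU := bU_facts (i := i) (r := r) (wA := wA) (wH := wH) (ω := ω) hir hc hz hs
  have hJ := bJ_lt (i := i) (r := r) (wA := wA) (wH := wH) (ω := ω) hc hz hs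
  rcases ivt_gen h1 h2 h1' h2' ht1 ht2 with ⟨q, hq1, hq2, hq3⟩ | ⟨q, hq1, hq2, hq3⟩
  · refine ⟨q, by omega, hq2, ?_⟩
    rw [← hq3]
    exact hemb.self_mem (by omega)
  · set W := bigWord i r wA wH ω with hW
    obtain ⟨l, hl1, hl2, hl3⟩ : ∃ l, i + 1 ≤ l ∧ l < i + 3 ∧ W[q + 1]? ≠ some l := by
      by_cases hcc : W[q + 1]? = some (i + 1)
      · refine ⟨i + 2, by omega, by omega, ?_⟩
        rw [hcc]
        intro h5
        have := Option.some_injective _ h5
        omega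
      · exact ⟨i + 1, le_rfl, by omega, hcc⟩
    obtain ⟨p0, hp1, hp2, hp3⟩ : ∃ p0, bL i r wA wH ω s ≤ p0 ∧ p0 ≤ q ∧ W[p0]? = some l := by
      rcases Nat.eq_zero_or_pos s with h | h
      · subst h
        refine ⟨l - i, by simp [bL], ?_, get_refr hc (by omega) (by omega) (by omega)⟩
        omega
      · have hne : s ≠ 0 := by omega
        have h3 := bJ_lt (i := i) (r := r) (wA := wA) (wH := wH) (ω := ω) (s := s - 1) hc hz
          (by omega)
        have e : s - 1 + 1 = s := by omega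
        rw [e] at h3
        refine ⟨bJ i r wA wH ω (s - 1) + 1 + (l - (i + 1)), ?_, ?_,
          get_H_refr hz (by omega) hl1 (by omega)⟩
        · simp only [bL, hne, if_false]; omega
        · simp only [bU, hne, if_false] at hq1
          omega
    have hst := hemb.step (q := q) (by omega) hp2 hp3 hl3
    have hle := le_lastOcc hp2 hp3
    have hle2 := lastOcc_le W l q
    exact ⟨lastOcc W l q, by omega, by omega, hB.mem_btw hst.1 hst.2 hq3⟩

end

theorem det_step {B : ℕ → Finset V} (hB : Iv B) {D : ℕ} (hD : ∀ t, (B t).card ≤ D)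
    (hD1 : 1 ≤ D) {i r ℓ : ℕ} (hir : i + 3 ≤ r) {wA : ΩA → List ℕ} {wH : ΩH → List ℕ}
    (hletH : ∀ ω, ∀ l ∈ wH ω, i + 1 ≤ l ∧ l < r)
    (hlenA : ∀ ω, (wA ω).length ≤ ℓ) (hlenH : ∀ ω, (wH ω).length ≤ ℓ)
    {c z M X x y : ℕ} (hc : 1 ≤ c) (hz : 1 ≤ z) (hx : 1 ≤ x) (hX : X = 2 * D * x)
    {a b : ℕ} {P Q : Finset ℕ} {Γ : ℕ} (hΓ : Γ = c * (r - i + ℓ) + 2) (hy : 2 * Γ ≤ y)
    (hPcov : ∀ p ∈ P, ∀ p' ∈ P, p < p' → ∃ x y, p < x ∧ x ≤ p' ∧ p < y ∧ y ≤ p' ∧
      ((B x ∩ B y) \ (B a ∩ B b)).card < r - i - 1)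
    (hQcov : ∀ p ∈ Q, ∀ p' ∈ Q, p < p' → ∃ x y, p < x ∧ x ≤ p' ∧ p < y ∧ y ≤ p' ∧
      ((B x ∩ B y) \ (B a ∩ B b)).card < r - i - 1)
    (hQJ : ∀ p ∈ Q, ∀ p' ∈ Q, p < p' → ∀ v ∈ B (p + 1) ∩ B p', v ∈ B a ∩ B b)
    {FA : Set (Fin c → ΩA)}
    (hFA : ∀ α, α ∉ FA → ∀ φ θ, IsEmb B (famCat i r wA α) φ θ →
      (∀ q, q < (famCat i r wA α).length → a ≤ θ q ∧ θ q ≤ b) →
      Lip (fun q => cnt Q (θ q)) (r - i - 1) ((famCat i r wA α).length - 1) →
      ∃ q1 q2, r - i - 1 ≤ q1 ∧ q1 < (famCat i r wA α).length ∧ r - i - 1 ≤ q2 ∧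
        q2 < (famCat i r wA α).length ∧ cnt Q (θ q1) + 4 ≤ cnt Q (θ q2))
    {FH : ∀ e : Fin M, Set (Fin (z ^ (e.1 + 1)) → ΩH)}
    (hFH : ∀ e η, η ∉ FH e → ∀ φ θ, IsEmb B (famCat (i + 1) r wH η) φ θ →
      (∀ q, q < (famCat (i + 1) r wH η).length → a ≤ θ q ∧ θ q ≤ b) →
      Lip (fun q => cnt P (θ q)) (r - (i + 1) - 1) ((famCat (i + 1) r wH η).length - 1) →
      ∃ q1 q2, r - (i + 1) - 1 ≤ q1 ∧ q1 < (famCat (i + 1) r wH η).length ∧
        r - (i + 1) - 1 ≤ q2 ∧ q2 < (famCat (i + 1) r wH η).length ∧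
        cnt P (θ q1) + y * z ^ e.1 ≤ cnt P (θ q2))
    (ω : Fin X → Blk ΩA ΩH c z M) (hA : ∀ s, (ω s).1 ∉ FA)
    (hH : ∀ s, (ω s).2.2 (ω s).2.1 ∉ FH (ω s).2.1)
    {φ : ℕ → V} {θ : ℕ → ℕ} (hemb : IsEmb B (bigWord i r wA wH ω) φ θ)
    (hreg : ∀ q, q < (bigWord i r wA wH ω).length → a ≤ θ q ∧ θ q ≤ b)
    (havoid : ∀ q, q < (bigWord i r wA wH ω).length → φ q ∉ B a ∩ B b) :
    ∃ l0, l0 ≤ Q.card ∧ (fun s => (ω s).2.1) ∈
      PathSet (nbr 2) (Est P Q Γ y z (r - i + ℓ) M) X (x - 1) l0 := by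
  classical
  have hX1 : 1 ≤ X := by
    rw [hX]
    have : 1 ≤ D * x := Nat.mul_pos hD1 hx
    have e : 2 * D * x = 2 * (D * x) := by ring
    omega
  set W := bigWord i r wA wH ω with hW
  have hWrefr : ∀ l, i ≤ l → l < r → W[l - i]? = some l := fun l h1 h2 => get_refr hc hX1 h1 h2
  have hlipP := lip_of_cover hB hemb hWrefr havoid hPcov
  have hlipQ := lip_of_cover hB hemb hWrefr havoid hQcov
  set O := bO i r wA wH ω with hO
  set J := bJ i r wA wH ω with hJ
  set U := bU i r wA wH ω with hU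
  have hJf : ∀ s, s < X → O s + (r - i) ≤ J s ∧ J s + 1 + (r - (i + 1)) ≤ O (s + 1) ∧
      O (s + 1) ≤ W.length := fun s hs => bJ_lt hc hz hs
  have hUf : ∀ s, s < X → r - i - 1 ≤ U s ∧ U s ≤ O s + (r - i - 1) ∧ U s < J s ∧
      bL i r wA wH ω s ≤ U s := fun s hs => bU_facts hir hc hz hs
  have hUsucc : ∀ s, U (s + 1) = O (s + 1) - 1 := by
    intro s
    simp only [hU, hO, bU, Nat.add_eq_zero_iff, one_ne_zero, and_false, if_false]
  -- extreme times
  have hextA := fun s (hs : s < X) => exists_extreme θ (show U s ≤ J s by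
    have := hUf s hs; omega)
  have hextJ := fun s (hs : s < X) => exists_extreme θ (show J s ≤ O (s + 1) - 1 by
    have := hJf s hs; omega)
  have hextA1 := fun s hs => (hextA s hs).1
  have hextA2 := fun s hs => (hextA s hs).2
  have hextJ1 := fun s hs => (hextJ s hs).1
  have hextJ2 := fun s hs => (hextJ s hs).2
  choose! xA hxA1 hxA2 hxA3 using hextA1
  choose! yA hyA1 hyA2 hyA3 using hextA2
  choose! xJ hxJ1 hxJ2 hxJ3 using hextJ1
  choose! yJ hyJ1 hyJ2 hyJ3 using hextJ2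
  -- the A-runs travel
  have fA : ∀ s, s < X → cnt Q (θ (xA s)) + 4 ≤ cnt Q (θ (yA s)) := by
    intro s hs
    have h1 := hJf s hs
    have h2 := hUf s hs
    have hl : (famCat i r wA (ω ⟨s, hs⟩).1).length = J s - O s := by
      simp only [hJ, hO, bJ, lenA, hs, dite_true]; omega
    obtain ⟨q1, q2, g1, g2, g3, g4, g5⟩ := hFA (ω ⟨s, hs⟩).1 (hA _) _ _ (embA hemb hs)
      (fun q hq => hreg _ (by rw [hl] at hq; simp only [hO, hJ] at *; omega))
      (fun q hq hq' => hlipQ (O s + q) (by omega) (by omega))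
    rw [hl] at g2 g4
    have h3 := hxA3 s hs (O s + q1) (by omega) (by omega)
    have h4 := hyA3 s hs (O s + q2) (by omega) (by omega)
    have h5 := cnt_mono Q h3
    have h6 := cnt_mono Q h4
    simp only [hO] at h5 h6
    omega
  -- the J-blocks travel
  have fJ : ∀ s (hs : s < X), cnt P (θ (xJ s)) + y * z ^ (ω ⟨s, hs⟩).2.1.1 ≤
      cnt P (θ (yJ s)) := by
    intro s hs
    have h1 := hJf s hs
    have h2 := hUf s hs
    have hl : (famCat (i + 1) r wH ((ω ⟨s, hs⟩).2.2 (ω ⟨s, hs⟩).2.1)).length =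
        O (s + 1) - (J s + 1) := by
      have h3 := bO_succ (i := i) (r := r) (wA := wA) (wH := wH) (ω := ω) hs
      simp only [lenH, hs, dite_true] at h3
      simp only [hJ, hO]; omega
    obtain ⟨q1, q2, g1, g2, g3, g4, g5⟩ := hFH (ω ⟨s, hs⟩).2.1 _ (hH _) _ _ (embH hemb hs)
      (fun q hq => hreg _ (by rw [hl] at hq; simp only [hO, hJ] at *; omega))
      (fun q hq hq' => hlipP (J s + 1 + q) (by omega) (by omega))
    rw [hl] at g2 g4
    have h3 := hxJ3 s hs (J s + 1 + q1) (by omega) (by omega)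
    have h4 := hyJ3 s hs (J s + 1 + q2) (by omega) (by omega)
    have h5 := cnt_mono P h3
    have h6 := cnt_mono P h4
    simp only [hJ] at h5 h6
    omega
  -- low regions
  have fLow : ∀ s, s < X → ∀ h, cnt Q (θ (xA s)) < h → h < cnt Q (θ (yA s)) →
      ¬ Γ ≤ mass P Q h := by
    intro s hs h h1 h2 h3
    have h4 := hJf s hs
    have h5 := hUf s hs
    have hxy : θ (xA s) ≤ θ (yA s) := hxA3 s hs (yA s) (hyA1 s hs) (hyA2 s hs)
    have h6 : mass P Q h ≤ (P.filter (fun p => θ (xA s) ≤ p ∧ p < θ (yA s))).card := by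
      apply card_le_card
      intro p hp
      simp only [mem_filter] at hp ⊢
      refine ⟨hp.1, ?_, ?_⟩
      · exact le_of_lt (lt_of_cnt_lt (P := Q) (by omega))
      · exact lt_of_cnt_lt (P := Q) (by omega)
    have h7 := cnt_add P hxy
    have h8 := hlipP.le' (x := xA s) (y := yA s) (by have := hxA1 s hs; omega)
      (by have := hyA1 s hs; omega) (by have := hxA2 s hs; omega) (by have := hyA2 s hs; omega)
    have h9 := hxA1 s hs
    have h10 := hxA2 s hs
    have h11 := hyA1 s hs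
    have h12 := hyA2 s hs
    have h13 : J s - O s ≤ c * (r - i + ℓ) := by
      have := lenA_le (i := i) (r := r) (ω := ω) (s := s) hlenA
      simp only [hJ, hO, bJ]; omega
    have h14 : O s ≤ U s + 1 := by
      simp only [hU, hO, bU]
      split_ifs with h0
      · subst h0; rw [bO_zero]; omega
      · omega
    omega
  -- a J-block is contained in two regions
  have fTwo : ∀ s, s < X → cnt Q (θ (yJ s)) ≤ cnt Q (θ (xJ s)) + 1 := by
    intro s hs
    by_contra hcon
    have h4 := hJf s hs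
    obtain ⟨p, hp, p', hp', g1, g2, g3⟩ := exists_two_of_cnt (P := Q) (s := θ (xJ s))
      (t := θ (yJ s)) (by omega)
    have hact : ∀ q, J s ≤ q → q ≤ O (s + 1) - 1 → φ (J s) ∈ B (θ q) := by
      intro q hq1 hq2
      apply hemb.mem _ _ (by omega)
      refine ⟨hq1, fun m hm1 hm2 => ?_⟩
      have e1 : (bigWord i r wA wH ω)[J s]? = some i := get_J hs
      rw [hW, e1]
      exact get_H_ne hletH hs hm1 (by simp only [hO] at *; omega)
    have h5 := hact (xJ s) (hxJ1 s hs) (hxJ2 s hs)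
    have h6 := hact (yJ s) (hyJ1 s hs) (hyJ2 s hs)
    have h7 := hQJ p hp p' hp' g1 (φ (J s)) (by
      rw [mem_inter]
      exact ⟨hB _ _ _ _ (by omega) (by omega) h5 h6, hB _ _ _ _ (by omega) (by omega) h5 h6⟩)
    exact havoid (J s) (by omega) h7
  have fxyJ : ∀ s, s < X → θ (xJ s) ≤ θ (yJ s) := fun s hs =>
    hxJ3 s hs (yJ s) (hyJ1 s hs) (hyJ2 s hs)
  -- shared positions
  have sh1 : ∀ s, s < X → cnt Q (θ (xJ s)) ≤ cnt Q (θ (yA s)) ∧
      cnt Q (θ (xA s)) ≤ cnt Q (θ (yJ s)) := by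
    intro s hs
    have h4 := hJf s hs
    have h5 := hUf s hs
    have g1 := hxJ3 s hs (J s) le_rfl (by omega)
    have g2 := hyJ3 s hs (J s) le_rfl (by omega)
    have g3 := hxA3 s hs (J s) (by omega) le_rfl
    have g4 := hyA3 s hs (J s) (by omega) le_rfl
    exact ⟨cnt_mono Q (g1.trans g4), cnt_mono Q (g3.trans g2)⟩
  have sh2 : ∀ s, s + 1 < X → cnt Q (θ (xJ s)) ≤ cnt Q (θ (yA (s + 1))) ∧
      cnt Q (θ (xA (s + 1))) ≤ cnt Q (θ (yJ s)) := by
    intro s hs
    have h4 := hJf s (by omega)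
    have h5 := hUf (s + 1) hs
    have h6 := hUsucc s
    have g1 := hxJ3 s (by omega) (U (s + 1)) (by omega) (by omega)
    have g2 := hyJ3 s (by omega) (U (s + 1)) (by omega) (by omega)
    have g3 := hxA3 (s + 1) hs (U (s + 1)) le_rfl (by omega)
    have g4 := hyA3 (s + 1) hs (U (s + 1)) le_rfl (by omega)
    exact ⟨cnt_mono Q (g1.trans g4), cnt_mono Q (g3.trans g2)⟩
  -- the number of P points between neighbouring runs
  have fBetween : ∀ s (hs : s + 1 < X), ∀ q q', U s ≤ q → q ≤ J (s + 1) → U s ≤ q' →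
      q' ≤ J (s + 1) → cnt P (θ q') ≤ cnt P (θ q) + (2 * Γ +
        z ^ ((ω ⟨s, by omega⟩).2.1.1 + 1) * (r - i + ℓ)) := by
    intro s hs q q' h1 h2 h3 h4
    have h5 := hJf s (by omega)
    have h6 := hUf s (by omega)
    have h7 := hJf (s + 1) hs
    have h8 := hlipP.le' (x := q) (y := q') (by omega) (by omega) (by omega) (by omega)
    have h9 : J s - O s ≤ c * (r - i + ℓ) := by
      have := lenA_le (i := i) (r := r) (ω := ω) (s := s) hlenA
      simp only [hJ, hO, bJ]; omega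
    have h10 : J (s + 1) - O (s + 1) ≤ c * (r - i + ℓ) := by
      have := lenA_le (i := i) (r := r) (ω := ω) (s := s + 1) hlenA
      simp only [hJ, hO, bJ]; omega
    have h11 : O (s + 1) - (J s + 1) ≤ z ^ ((ω ⟨s, by omega⟩).2.1.1 + 1) * (r - i + ℓ) := by
      have h12 := lenH_le (i := i) (r := r) (ω := ω) (s := s) hlenH (by omega)
      have h13 := bO_succ (i := i) (r := r) (wA := wA) (wH := wH) (ω := ω) (s := s) (by omega)
      simp only [hJ, hO]; omega
    have h14 : O s ≤ U s + 1 := by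
      simp only [hU, hO, bU]
      split_ifs with h0
      · subst h0; rw [bO_zero]; omega
      · omega
    omega
  -- the path of ranks
  let R : ℕ → ℕ := fun s => rk P Q Γ (cnt Q (θ (yA s)))
  let l : ℕ → ℕ := fun s => R (min s (X - 1))
  have hlR : ∀ s, s < X → l s = R s := by
    intro s hs
    have : min s (X - 1) = s := by omega
    simp only [l, this]
  have hcross : ∀ s (hs : s + 1 < X), R s ≠ R (s + 1) →
      R (s + 1) ≤ R s + 2 ∧ R s ≤ R (s + 1) + 2 ∧
      (ω ⟨s, by omega⟩).2.1 ∈ Est P Q Γ y z (r - i + ℓ) M (R s) (R (s + 1)) := by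
    intro s hs hne
    have hs' : s < X := by omega
    have hxAs := hxA1 s hs'
    have hxAs2 := hxA2 s hs'
    have hyAs := hyA1 s hs'
    have hyAs2 := hyA2 s hs'
    have hxAt := hxA1 (s + 1) hs
    have hxAt2 := hxA2 (s + 1) hs
    have hyAt := hyA1 (s + 1) hs
    have hyAt2 := hyA2 (s + 1) hs
    have hJs := hJf s hs'
    have hUs := hUf s hs'
    have hJt := hJf (s + 1) hs
    have hUt := hUsucc s
    have hfJ := fJ s hs'
    rcases Nat.lt_or_gt_of_ne hne with hlt | hlt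
    · obtain ⟨c1, c2, c3⟩ := cross (P := P) (Q := Q) (Γ := Γ) (fA s hs') (fA (s + 1) hs)
        (fLow s hs') (fLow (s + 1) hs) (fTwo s hs') (sh1 s hs').1 (sh2 s hs).2 hlt (fxyJ s hs')
      refine ⟨c1, by omega, ?_⟩
      unfold Est
      rw [if_neg hne, mem_filter]
      refine ⟨mem_univ _, ?_, ?_⟩
      · change y * z ^ (ω ⟨s, hs'⟩).2.1.1 ≤ _
        simp only [R]
        omega
      · have h9 := fBetween s hs (xA s) (yA (s + 1)) (by omega) (by omega) (by omega) (by omega)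
        simp only [R]
        omega
    · obtain ⟨c1, c2, c3⟩ := cross (P := P) (Q := Q) (Γ := Γ) (fA (s + 1) hs) (fA s hs')
        (fLow (s + 1) hs) (fLow s hs') (fTwo s hs') (sh2 s hs).1 (sh1 s hs').2 hlt (fxyJ s hs')
      refine ⟨by omega, c1, ?_⟩
      unfold Est
      rw [if_neg hne, mem_filter]
      refine ⟨mem_univ _, ?_, ?_⟩
      · change y * z ^ (ω ⟨s, hs'⟩).2.1.1 ≤ _
        rw [gap_comm]
        simp only [R]
        omega
      · have h9 := fBetween s hs (xA (s + 1)) (yA s) (by omega) (by omega) (by omega) (by omega)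
        rw [gap_comm]
        simp only [R]
        omega
  -- multiplicity
  have hmulti : ∀ t, ((Finset.range X).filter
      (fun s => θ (xA s) ≤ t ∧ t ≤ θ (yA s))).card ≤ D := by
    intro t
    refine le_trans ?_ (hD t)
    have hw : ∀ s ∈ (Finset.range X).filter (fun s => θ (xA s) ≤ t ∧ t ≤ θ (yA s)),
        ∃ p, bL i r wA wH ω s ≤ p ∧ p ≤ J s ∧ φ p ∈ B t := by
      intro s hs
      rw [mem_filter, mem_range] at hs
      exact run_witness hB hir hc hz hemb hs.1 (hxA1 s hs.1) (hxA2 s hs.1) (hyA1 s hs.1)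
        (hyA2 s hs.1) hs.2.1 hs.2.2
    choose! pw hpw1 hpw2 hpw3 using hw
    apply Finset.card_le_card_of_injOn (fun s => φ (pw s))
    · intro s hs
      exact hpw3 s hs
    · intro s hs s' hs' he
      have g1 := hpw1 s hs
      have g2 := hpw2 s hs
      have g3 := hpw1 s' hs'
      have g4 := hpw2 s' hs'
      rw [mem_coe, mem_filter, mem_range] at hs hs'
      have g5 := hJf s hs.1
      have g6 := hJf s' hs'.1
      have g7 := hemb.inj (pw s) (pw s') (by omega) (by omega) he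
      rcases Nat.lt_trichotomy s s' with h | h | h
      · have h1 : s' ≠ 0 := by omega
        simp only [bL, h1, if_false] at g3
        have h2 := bJ_mono (i := i) (r := r) (wA := wA) (wH := wH) (ω := ω) (s := s)
          (t := s' - 1) hc hz (by omega) (by omega)
        simp only [hJ] at *
        omega
      · exact h
      · have h1 : s ≠ 0 := by omega
        simp only [bL, h1, if_false] at g1
        have h2 := bJ_mono (i := i) (r := r) (wA := wA) (wH := wH) (ω := ω) (s := s')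
          (t := s - 1) hc hz (by omega) (by omega)
        simp only [hJ] at *
        omega
  have hfiber : ∀ c0, ((Finset.range X).filter (fun s => R s = c0)).card ≤ 2 * D := by
    intro c0
    -- test times
    obtain ⟨tA, htA⟩ : ∃ tA, (∃ t, TestA P Q Γ c0 t) → TestA P Q Γ c0 tA := by
      by_cases h : ∃ t, TestA P Q Γ c0 t
      · obtain ⟨t, ht⟩ := h
        exact ⟨t, fun _ => ht⟩
      · exact ⟨0, fun h' => absurd h' h⟩
    obtain ⟨tB, htB⟩ : ∃ tB, (∃ t, TestB P Q Γ c0 t) → TestB P Q Γ c0 tB := by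
      by_cases h : ∃ t, TestB P Q Γ c0 t
      · obtain ⟨t, ht⟩ := h
        exact ⟨t, fun _ => ht⟩
      · exact ⟨0, fun h' => absurd h' h⟩
    have hsub : (Finset.range X).filter (fun s => R s = c0) ⊆
        (Finset.range X).filter (fun s => θ (xA s) ≤ tA ∧ tA ≤ θ (yA s)) ∪
        (Finset.range X).filter (fun s => θ (xA s) ≤ tB ∧ tB ≤ θ (yA s)) := by
      intro s hs
      rw [mem_filter, mem_range] at hs
      rw [mem_union, mem_filter, mem_filter, mem_range]
      have hfJ := fJ s hs.1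
      have hz1 : 1 ≤ z ^ (ω ⟨s, hs.1⟩).2.1.1 := Nat.one_le_pow _ _ hz
      have hyz : 2 * Γ ≤ y * z ^ (ω ⟨s, hs.1⟩).2.1.1 := by
        calc 2 * Γ = 2 * Γ * 1 := by ring
          _ ≤ y * z ^ (ω ⟨s, hs.1⟩).2.1.1 := Nat.mul_le_mul hy hz1
      have hm := mult (P := P) (Q := Q) (Γ := Γ) (fA s hs.1) (fLow s hs.1) (fTwo s hs.1)
        (sh1 s hs.1).1 (sh1 s hs.1).2 (fxyJ s hs.1) (by omega)
      have hR : rk P Q Γ (cnt Q (θ (yA s))) = c0 := hs.2
      rw [hR] at hm
      rcases hm with ⟨h1, h2⟩ | ⟨h1, h2⟩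
      · left; exact ⟨hs.1, h2 tA (htA h1)⟩
      · right; exact ⟨hs.1, h2 tB (htB h1)⟩
    have h1 := card_le_card hsub
    have h2 := card_union_le ((Finset.range X).filter (fun s => θ (xA s) ≤ tA ∧ tA ≤ θ (yA s)))
      ((Finset.range X).filter (fun s => θ (xA s) ≤ tB ∧ tB ≤ θ (yA s)))
    have h3 := hmulti tA
    have h4 := hmulti tB
    omega
  -- number of values and of changes
  have himg : x ≤ ((Finset.range X).image R).card := by
    have h1 : (Finset.range X).card ≤ 2 * D * ((Finset.range X).image R).card := by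
      apply Finset.card_le_mul_card_image
      intro c0 _
      exact hfiber c0
    rw [card_range] at h1
    have h2 : 2 * D * x ≤ 2 * D * ((Finset.range X).image R).card := by
      rw [← hX]; exact h1
    have h3 : 0 < 2 * D := by omega
    exact Nat.le_of_mul_le_mul_left h2 h3
  have hchanges : x - 1 ≤ ((Finset.range (X - 1)).filter (fun s => R s ≠ R (s + 1))).card := by
    have h1 := card_image_le_changes R (X - 1)
    have e : X - 1 + 1 = X := by omega
    rw [e] at h1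
    omega
  -- conclusion
  refine ⟨l 0, ?_, l, rfl, ?_, univ.filter (fun s : Fin X => l s ≠ l (s + 1)), ?_, ?_⟩
  · simp only [l, R]
    exact (rk_le _).trans (cnt_le_card _ _)
  · intro s hs
    simp only [nbr, mem_Icc]
    rcases Nat.lt_or_ge (s + 1) X with h | h
    · rw [hlR s hs, hlR (s + 1) h]
      by_cases hne : R s = R (s + 1)
      · omega
      · have := hcross s h hne
        omega
    · have e1 : min s (X - 1) = X - 1 := by omega
      have e2 : min (s + 1) (X - 1) = X - 1 := by omega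
      simp only [l, e1, e2]
      omega
  · refine hchanges.trans ?_
    refine Finset.card_le_card_of_surjOn (fun s : Fin X => (s : ℕ)) ?_
    intro s hs
    simp only [coe_filter, mem_range, Set.mem_ofPred_eq] at hs
    refine ⟨⟨s, by omega⟩, ?_, rfl⟩
    simp only [coe_filter, mem_univ, true_and, Set.mem_ofPred_eq]
    rw [hlR s (by omega), hlR (s + 1) (by omega)]
    exact hs.2
  · intro s hs
    simp only [mem_filter, mem_univ, true_and] at hs
    have hs2 := s.2
    have hlt : (s : ℕ) + 1 < X := by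
      by_contra hcon
      apply hs
      have e1 : min (s : ℕ) (X - 1) = X - 1 := by omega
      have e2 : min ((s : ℕ) + 1) (X - 1) = X - 1 := by omega
      simp only [l, e1, e2]
    rw [hlR s hs2, hlR (s + 1) hlt] at hs ⊢
    exact (hcross s hlt hs).2.2

end Pool.Agent.PWU
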