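import Pool.Agent.Lib.MP_315eb0_co.Pieces

/-!
The forced travel lemma: most concatenations of members of a family force every embedding
to travel over many end points.
-/

set_option autoImplicit false

namespace Pool.Agent.PWU

open Finset

variable {V : Type*} [DecidableEq V]

/-- the pieces of a sequence of members of a family. -/
def pcs {Ω : Type*} (i r : ℕ) (w : Ω → List ℕ) {Z : ℕ} (ω : Fin Z → Ω) (s : ℕ) : List ℕ :=
  if h : s < Z then refr i r ++ w (ω ⟨s, h⟩) else []

/-- the concatenation of a sequence of members of a family, with refreshing words in between. -/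
def famCat {Ω : Type*} (i r : ℕ) (w : Ω → List ℕ) {Z : ℕ} (ω : Fin Z → Ω) : List ℕ :=
  cat (pcs i r w ω) Z

theorem pcs_of_lt {Ω : Type*} (i r : ℕ) (w : Ω → List ℕ) {Z : ℕ} (ω : Fin Z → Ω) {s : ℕ}
    (h : s < Z) : pcs i r w ω s = refr i r ++ w (ω ⟨s, h⟩) := by
  simp [pcs, h]

theorem off_succ {Ω : Type*} (i r : ℕ) (w : Ω → List ℕ) {Z : ℕ} (ω : Fin Z → Ω) {s : ℕ}
    (h : s < Z) : (cat (pcs i r w ω) (s + 1)).length =
      (cat (pcs i r w ω) s).length + ((r - i) + (w (ω ⟨s, h⟩)).length) := by
  rw [cat_length_succ, pcs_of_lt i r w ω h, List.length_append, refr_length]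

theorem off_le {Ω : Type*} (i r : ℕ) (w : Ω → List ℕ) {Z : ℕ} (ω : Fin Z → Ω) {s : ℕ}
    (h : s ≤ Z) : (cat (pcs i r w ω) s).length ≤ (famCat i r w ω).length :=
  cat_length_mono _ h

omit [DecidableEq V] in
theorem piece_emb {Ω : Type*} {B : ℕ → Finset V} {i r : ℕ} {w : Ω → List ℕ} {Z : ℕ}
    {ω : Fin Z → Ω} {φ : ℕ → V} {θ : ℕ → ℕ} (h : IsEmb B (famCat i r w ω) φ θ) {s : ℕ}
    (hs : s < Z) : IsEmb B (refr i r ++ w (ω ⟨s, hs⟩))
      (fun p => φ ((cat (pcs i r w ω) s).length + p))
      (fun q => θ ((cat (pcs i r w ω) s).length + q)) := by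
  obtain ⟨rest, hr⟩ := cat_split (pcs i r w ω) hs
  rw [famCat, hr, pcs_of_lt i r w ω hs] at h
  exact h.mid

theorem exists_gap {Gd : ℕ → ℕ → Prop} (hle : ∀ x y, Gd x y → x ≤ y) {P : Finset ℕ} {a b : ℕ}
    (hP : ∀ x y, a ≤ x → y ≤ b → Gd x y → ∃ p ∈ P, x ≤ p ∧ p ≤ y) (l : ℕ) :
    ∃ x y, (∀ t, a ≤ t → t ≤ b → cnt P t = l → t ∉ P → x ≤ t ∧ t ≤ y) ∧ ¬ Gd x y := by
  classical
  set G := (Finset.Icc a b).filter (fun t => cnt P t = l ∧ t ∉ P) with hG
  rcases G.eq_empty_or_nonempty with hE | hN
  · refine ⟨1, 0, ?_, fun h => ?_⟩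
    · intro t h1 h2 h3 h4
      have : t ∈ G := by
        rw [hG, mem_filter, mem_Icc]; exact ⟨⟨h1, h2⟩, h3, h4⟩
      rw [hE] at this
      simp at this
    · have := hle _ _ h
      omega
  · refine ⟨G.min' hN, G.max' hN, ?_, fun h => ?_⟩
    · intro t h1 h2 h3 h4
      have : t ∈ G := by
        rw [hG, mem_filter, mem_Icc]; exact ⟨⟨h1, h2⟩, h3, h4⟩
      exact ⟨G.min'_le t this, G.le_max' t this⟩
    · have hx := G.min'_mem hN
      have hy := G.max'_mem hN
      set x := G.min' hN
      set y := G.max' hN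
      rw [hG, mem_filter, mem_Icc] at hx hy
      obtain ⟨p, hp, h1, h2⟩ := hP x y hx.1.1 hy.1.2 h
      have hpx : p ≠ x := fun e => hx.2.2 (e ▸ hp)
      have hpy : p ≠ y := fun e => hy.2.2 (e ▸ hp)
      have h3 := cnt_add P (show x ≤ y by omega)
      have h4 : 0 < (P.filter (fun p => x ≤ p ∧ p < y)).card := by
        rw [card_pos]
        exact ⟨p, by rw [mem_filter]; exact ⟨hp, by omega, by omega⟩⟩
      omega

/-- arithmetic of the union bound. -/
theorem union_arith {K K0 c Z n : ℕ} (hK : 2 * K ≤ K0) (hKpos : 0 < K)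
    (h : (K0 ^ 2) ^ ((Z + 1) / 2) * n ≤ (K * c) ^ Z) : n * 2 ^ Z ≤ c ^ Z := by
  have h1 : (2 * K) ^ Z ≤ (K0 ^ 2) ^ ((Z + 1) / 2) := by
    calc (2 * K) ^ Z ≤ K0 ^ Z := Nat.pow_le_pow_left hK Z
      _ ≤ K0 ^ (2 * ((Z + 1) / 2)) := Nat.pow_le_pow_right (by omega) (by omega)
      _ = (K0 ^ 2) ^ ((Z + 1) / 2) := by rw [pow_mul]
  have h2 : K ^ Z * (n * 2 ^ Z) ≤ K ^ Z * c ^ Z := by
    calc K ^ Z * (n * 2 ^ Z) = (2 * K) ^ Z * n := by rw [mul_pow]; ring
      _ ≤ (K0 ^ 2) ^ ((Z + 1) / 2) * n := Nat.mul_le_mul h1 le_rfl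
      _ ≤ (K * c) ^ Z := h
      _ = K ^ Z * c ^ Z := mul_pow _ _ _
  exact Nat.le_of_mul_le_mul_left h2 (pow_pos hKpos Z)

/-- the neighbours of a location. -/
def nbr (d : ℕ) (l : ℕ) : Finset ℕ := Finset.Icc (l - d) (l + d)

theorem nbr_card (d l : ℕ) : (nbr d l).card ≤ 2 * d + 1 := by
  unfold nbr
  rw [Nat.card_Icc]
  omega

theorem forced_travel {Ω : Type*} [Fintype Ω] {B : ℕ → Finset V} (hB : Iv B) {D : ℕ}
    (hD : ∀ t, (B t).card ≤ D) (hD1 : 1 ≤ D) {i r ℓ : ℕ} (hir : i + 2 ≤ r) {w : Ω → List ℕ}
    (hlen : ∀ ω, (w ω).length ≤ ℓ) {K0 : ℕ} (hK : 4 * (2 * (r - i + ℓ) + 1) ≤ K0)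
    {a b : ℕ} {P : Finset ℕ}
    (hP : ∀ x y, a ≤ x → y ≤ b → Good (K0 ^ 2) B w x y → ∃ p ∈ P, x ≤ p ∧ p ≤ y)
    {Z v : ℕ} (hv : 1 ≤ v) (hZ : 4 * D * v ≤ Z) :
    ∃ FB : Set (Fin Z → Ω), FB.ncard * 2 ^ Z ≤ (P.card + 1) * (Fintype.card Ω) ^ Z ∧
      ∀ ω, ω ∉ FB → ∀ φ θ, IsEmb B (famCat i r w ω) φ θ →
        (∀ q, q < (famCat i r w ω).length → a ≤ θ q ∧ θ q ≤ b) →
        Lip (fun q => cnt P (θ q)) (r - i - 1) ((famCat i r w ω).length - 1) →
        ∃ q1 q2, r - i - 1 ≤ q1 ∧ q1 < (famCat i r w ω).length ∧ r - i - 1 ≤ q2 ∧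
          q2 < (famCat i r w ω).length ∧ cnt P (θ q1) + v ≤ cnt P (θ q2) := by
  classical
  -- gaps
  have hgap := fun l => exists_gap (Gd := Good (K0 ^ 2) B w) (fun x y h => h.1) hP l
  choose gL gR hg1 hg2 using hgap
  set bb := r - i + ℓ with hbb
  let Bad : ℕ → ℕ → Finset Ω := fun l _ =>
    if gL l ≤ gR l then univ.filter (fun ω => EmbIn B (w ω) (gL l) (gR l)) else ∅
  have hBad : ∀ l l', K0 ^ 2 * (Bad l l').card ≤ Fintype.card Ω := by
    intro l l'
    simp only [Bad]
    split_ifs with h
    · have h2 := hg2 l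
      unfold Good at h2
      push Not at h2
      have h3 := h2 h
      rw [Nat.card_eq_fintype_card] at h3
      have h4 : (embSet B w (gL l) (gR l)).ncard =
          (univ.filter (fun ω => EmbIn B (w ω) (gL l) (gR l))).card := by
        rw [← Set.ncard_coe_finset]
        congr 1
        ext ω
        simp [embSet]
      rw [h4] at h3
      exact le_of_lt h3
    · simp
  set m0 := (Z + 1) / 2 with hm0
  set FB : Set (Fin Z → Ω) := ⋃ l0 ∈ Finset.range (P.card + 1), PathSet (nbr bb) Bad Z m0 l0
    with hFB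
  refine ⟨FB, ?_, ?_⟩
  · -- the union bound
    have h1 : ∀ l0, (PathSet (nbr bb) Bad Z m0 l0).ncard * 2 ^ Z ≤ (Fintype.card Ω) ^ Z := by
      intro l0
      have h2 := card_pathSet (nbr bb) (2 * bb + 1) (nbr_card bb) Bad (K0 ^ 2) hBad Z m0 l0
      exact union_arith (K := 2 * (2 * bb + 1)) (by omega) (by omega) h2
    have h2 : FB.ncard ≤ ∑ l0 ∈ Finset.range (P.card + 1),
        (PathSet (nbr bb) Bad Z m0 l0).ncard := Finset.set_ncard_biUnion_le _ _
    calc FB.ncard * 2 ^ Z ≤ (∑ l0 ∈ Finset.range (P.card + 1),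
        (PathSet (nbr bb) Bad Z m0 l0).ncard) * 2 ^ Z := Nat.mul_le_mul h2 le_rfl
      _ = ∑ l0 ∈ Finset.range (P.card + 1),
        (PathSet (nbr bb) Bad Z m0 l0).ncard * 2 ^ Z := by rw [Finset.sum_mul]
      _ ≤ ∑ l0 ∈ Finset.range (P.card + 1), (Fintype.card Ω) ^ Z :=
        Finset.sum_le_sum (fun l0 _ => h1 l0)
      _ = (P.card + 1) * (Fintype.card Ω) ^ Z := by
        rw [Finset.sum_const, Finset.card_range, smul_eq_mul]
  · intro ω hω φ θ hemb hreg hlip
    by_contra hcon
    push Not at hcon
    apply hω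
    set L := (famCat i r w ω).length with hL
    set o : ℕ → ℕ := fun s => (cat (pcs i r w ω) s).length with ho
    have hZ1 : 1 ≤ Z := by
      have : 1 ≤ 4 * D * v := by
        have : 1 ≤ D * v := Nat.mul_pos hD1 hv
        nlinarith
      omega
    have hosucc : ∀ s (hs : s < Z), o (s + 1) = o s + ((r - i) + (w (ω ⟨s, hs⟩)).length) :=
      fun s hs => off_succ i r w ω hs
    have hoL : ∀ s, s ≤ Z → o s ≤ L := fun s hs => off_le i r w ω hs
    have homono : ∀ s t, s ≤ t → o s ≤ o t := fun s t h => cat_length_mono _ h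
    -- the path
    let loc : ℕ → ℕ := fun s => cnt P (θ (o (min s (Z - 1)) + (r - i - 1)))
    have hmin : ∀ s, min s (Z - 1) < Z := fun s => by omega
    have hpos : ∀ s, s < Z → o s + (r - i - 1) < L := by
      intro s hs
      have h1 := hosucc s hs
      have h2 := hoL (s + 1) (by omega)
      omega
    have hpath : ∀ s, s < Z → loc (s + 1) ∈ nbr bb (loc s) := by
      intro s hs
      simp only [loc, nbr, mem_Icc]
      rcases Nat.lt_or_ge (s + 1) Z with h1 | h1
      · have e1 : min s (Z - 1) = s := by omega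
        have e2 : min (s + 1) (Z - 1) = s + 1 := by omega
        rw [e1, e2]
        have h2 := hosucc s hs
        have h3 := hlen (ω ⟨s, hs⟩)
        have h4 := hpos s hs
        have h5 := hpos (s + 1) h1
        have h6 := hlip.le' (x := o s + (r - i - 1)) (y := o (s + 1) + (r - i - 1))
          (by omega) (by omega) (by omega) (by omega)
        have h7 := hlip.le' (x := o (s + 1) + (r - i - 1)) (y := o s + (r - i - 1))
          (by omega) (by omega) (by omega) (by omega)
        omega
      · have e1 : min s (Z - 1) = Z - 1 := by omega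
        have e2 : min (s + 1) (Z - 1) = Z - 1 := by omega
        rw [e1, e2]
        omega
    -- extreme positions
    obtain ⟨qm, hqm, hqm'⟩ : ∃ qm ∈ Finset.Ico (r - i - 1) L, ∀ q ∈ Finset.Ico (r - i - 1) L,
        θ qm ≤ θ q := by
      apply Finset.exists_min_image
      have := hpos 0 (by omega)
      exact ⟨r - i - 1, by rw [mem_Ico]; omega⟩
    obtain ⟨qM, hqM, hqM'⟩ : ∃ qM ∈ Finset.Ico (r - i - 1) L, ∀ q ∈ Finset.Ico (r - i - 1) L,
        θ q ≤ θ qM := by
      apply Finset.exists_max_image
      have := hpos 0 (by omega)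
      exact ⟨r - i - 1, by rw [mem_Ico]; omega⟩
    rw [mem_Ico] at hqm hqM
    have hmM : θ qm ≤ θ qM := hqm' qM (by rw [mem_Ico]; exact hqM)
    have hvar := hcon qm qM hqm.1 hqm.2 hqM.1 hqM.2
    have hvar2 := card_Icc_le P hmM
    -- bad pieces of type one and two
    let T1 : Finset (Fin Z) := univ.filter (fun s => ∃ q, o s + (r - i - 1) ≤ q ∧
      q < o (s + 1) ∧ ¬ (cnt P (θ q) = loc s ∧ θ q ∉ P))
    let T2 : Finset (Fin Z) := univ.filter (fun s => s ∉ T1 ∧ ∃ p, o s ≤ p ∧ p < o (s + 1) ∧
      φ p ∈ B (gL (loc s)) ∩ B (gR (loc s)))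
    let T : Finset (Fin Z) := univ.filter (fun s => ω s ∈ Bad (loc s) (loc (s + 1)))
    have hlocs : ∀ s : Fin Z, loc s = cnt P (θ (o s + (r - i - 1))) := by
      intro s
      have h1 := s.2
      have : min (s : ℕ) (Z - 1) = s := by omega
      simp only [loc, this]
    have hcover : ∀ s : Fin Z, s ∈ T ∨ s ∈ T1 ∨ s ∈ T2 := by
      intro s
      by_cases h1 : s ∈ T1
      · exact Or.inr (Or.inl h1)
      by_cases h2 : s ∈ T2
      · exact Or.inr (Or.inr h2)
      left
      have hs := s.2
      have hosu := hosucc s s.2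
      have hoLs := hoL (s + 1) (by omega)
      have h3 : ∀ q, o s + (r - i - 1) ≤ q → q < o (s + 1) →
          gL (loc s) ≤ θ q ∧ θ q ≤ gR (loc s) := by
        intro q hq1 hq2
        have h4 : cnt P (θ q) = loc s ∧ θ q ∉ P := by
          by_contra hc
          exact h1 (by simp only [T1, mem_filter, mem_univ, true_and]; exact ⟨q, hq1, hq2, hc⟩)
        have h5 := hreg q (by omega)
        exact hg1 (loc s) (θ q) h5.1 h5.2 h4.1 h4.2
      have h4 : ∀ p, o s ≤ p → p < o (s + 1) → φ p ∉ B (gL (loc s)) ∩ B (gR (loc s)) := by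
        intro p hp1 hp2 hp3
        exact h2 (by simp only [T2, mem_filter, mem_univ, true_and]; exact ⟨h1, p, hp1, hp2, hp3⟩)
      have hle : gL (loc s) ≤ gR (loc s) := by
        have := h3 (o s + (r - i - 1)) le_rfl (by omega)
        omega
      simp only [T, Bad, mem_filter, mem_univ, true_and]
      rw [if_pos hle]
      rw [mem_filter]
      refine ⟨mem_univ _, ?_⟩
      have hp := (piece_emb hemb s.2).right
      rw [refr_length] at hp
      refine ⟨_, _, hp, ?_, ?_⟩
      · intro q hq
        have hq' : q < (w (ω ⟨s, s.2⟩)).length := hq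
        exact h3 _ (by simp only [ho] at *; omega) (by simp only [ho] at *; omega)
      · intro q hq
        have hq' : q < (w (ω ⟨s, s.2⟩)).length := hq
        exact h4 _ (by simp only [ho] at *; omega) (by simp only [ho] at *; omega)
    -- positions of different pieces are different
    have hdisj : ∀ s s' : Fin Z, ∀ p p', o s ≤ p → p < o (s + 1) → o s' ≤ p' → p' < o (s' + 1) →
        φ p = φ p' → s = s' := by
      intro s s' p p' h1 h2 h3 h4 h5
      have hs := s.2
      have hs' := s'.2
      have h6 := hoL (s + 1) (by omega)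
      have h7 := hoL (s' + 1) (by omega)
      have h8 := hemb.inj p p' (by omega) (by omega) h5
      subst h8
      rcases Nat.lt_trichotomy (s : ℕ) s' with h9 | h9 | h9
      · have := homono (s + 1) s' h9; omega
      · exact Fin.ext h9
      · have := homono (s' + 1) s h9; omega
    -- type one
    have hT1 : T1.card ≤ D * v := by
      have hex : ∀ s ∈ T1, ∃ x ∈ P.filter (fun p => θ qm ≤ p ∧ p ≤ θ qM),
          ∃ p, o s ≤ p ∧ p < o (s + 1) ∧ φ p ∈ B x := by
        intro s hs
        simp only [T1, mem_filter, mem_univ, true_and] at hs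
        obtain ⟨q, hq1, hq2, hq3⟩ := hs
        have hs2 := s.2
        have hosu := hosucc s s.2
        have hoLs := hoL (s + 1) (by omega)
        have hqI : q ∈ Finset.Ico (r - i - 1) L := by rw [mem_Ico]; omega
        have hq0I : o s + (r - i - 1) ∈ Finset.Ico (r - i - 1) L := by rw [mem_Ico]; omega
        by_cases hqP : θ q ∈ P
        · refine ⟨θ q, ?_, q, by omega, hq2, hemb.self_mem (by omega)⟩
          rw [mem_filter]
          exact ⟨hqP, hqm' q hqI, hqM' q hqI⟩
        · have hne : cnt P (θ q) ≠ cnt P (θ (o s + (r - i - 1))) := by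
            intro he
            exact hq3 ⟨by rw [he, hlocs], hqP⟩
          -- there is a point of P between the two times
          obtain ⟨x, hx, hxb⟩ : ∃ x ∈ P, (θ q ≤ x ∧ x ≤ θ (o s + (r - i - 1))) ∨
              (θ (o s + (r - i - 1)) ≤ x ∧ x ≤ θ q) := by
            rcases Nat.le_total (θ q) (θ (o s + (r - i - 1))) with hle | hle
            · have h1 := cnt_add P hle
              have h2 : 0 < (P.filter (fun p => θ q ≤ p ∧ p < θ (o s + (r - i - 1)))).card := by
                omega
              rw [card_pos] at h2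
              obtain ⟨x, hx⟩ := h2
              rw [mem_filter] at hx
              exact ⟨x, hx.1, Or.inl ⟨hx.2.1, by omega⟩⟩
            · have h1 := cnt_add P hle
              have h2 : 0 < (P.filter (fun p => θ (o s + (r - i - 1)) ≤ p ∧ p < θ q)).card := by
                omega
              rw [card_pos] at h2
              obtain ⟨x, hx⟩ := h2
              rw [mem_filter] at hx
              exact ⟨x, hx.1, Or.inr ⟨hx.2.1, by omega⟩⟩
          have hpe := piece_emb hemb s.2
          have hlenp : (refr i r ++ w (ω ⟨s, s.2⟩)).length = (r - i) + (w (ω ⟨s, s.2⟩)).length := by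
            rw [List.length_append, refr_length]
          refine ⟨x, ?_, ?_⟩
          · rw [mem_filter]
            refine ⟨hx, ?_⟩
            have h3 := hqm' q hqI
            have h4 := hqM' q hqI
            have h5 := hqm' _ hq0I
            have h6 := hqM' _ hq0I
            rcases hxb with hxb | hxb <;> omega
          · rcases hxb with hxb | hxb
            · obtain ⟨p, hp1, hp2⟩ := hull_vertex hB hir hpe (q1 := q - o s) (q2 := r - i - 1)
                (x := x) (by omega) (by omega) (by omega) (by omega)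
                (by
                  have : (cat (pcs i r w ω) s).length + (q - o s) = q := by
                    simp only [ho] at *; omega
                  rw [this]; exact hxb.1)
                hxb.2
              exact ⟨_, by simp only [ho] at *; omega, by simp only [ho] at *; omega, hp2⟩
            · obtain ⟨p, hp1, hp2⟩ := hull_vertex hB hir hpe (q1 := r - i - 1) (q2 := q - o s)
                (x := x) (by omega) (by omega) (by omega) (by omega) hxb.1
                (by
                  have : (cat (pcs i r w ω) s).length + (q - o s) = q := by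
                    simp only [ho] at *; omega
                  rw [this]; exact hxb.2)
              exact ⟨_, by simp only [ho] at *; omega, by simp only [ho] at *; omega, hp2⟩
      choose! X hX1 pp hpp1 hpp2 hpp3 using hex
      have h1 : T1.card ≤ D * (T1.image X).card := by
        apply Finset.card_le_mul_card_image
        intro x hx
        refine le_trans ?_ (hD x)
        apply Finset.card_le_card_of_injOn (fun s => φ (pp s))
        · intro s hs
          simp only [coe_filter, Set.mem_ofPred_eq] at hs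
          have := hpp3 s hs.1
          rw [hs.2] at this
          exact this
        · intro s hs s' hs' he
          simp only [coe_filter, Set.mem_ofPred_eq] at hs hs'
          exact hdisj s s' _ _ (hpp1 s hs.1) (hpp2 s hs.1) (hpp1 s' hs'.1) (hpp2 s' hs'.1) he
      have h2 : (T1.image X).card ≤ v := by
        have h3 : T1.image X ⊆ P.filter (fun p => θ qm ≤ p ∧ p ≤ θ qM) := by
          intro x hx
          rw [mem_image] at hx
          obtain ⟨s, hs, rfl⟩ := hx
          exact hX1 s hs
        have := card_le_card h3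
        omega
      exact h1.trans (Nat.mul_le_mul le_rfl h2)
    -- type two
    have hT2 : T2.card ≤ D * v := by
      have hex : ∀ s ∈ T2, ∃ p, o s ≤ p ∧ p < o (s + 1) ∧ φ p ∈ B (gL (loc s)) := by
        intro s hs
        simp only [T2, mem_filter, mem_univ, true_and] at hs
        obtain ⟨_, p, h1, h2, h3⟩ := hs
        exact ⟨p, h1, h2, (mem_inter.mp h3).1⟩
      choose! pp hpp1 hpp2 hpp3 using hex
      have h1 : T2.card ≤ D * (T2.image (fun s : Fin Z => loc s)).card := by
        apply Finset.card_le_mul_card_image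
        intro x hx
        refine le_trans ?_ (hD (gL x))
        apply Finset.card_le_card_of_injOn (fun s => φ (pp s))
        · intro s hs
          simp only [coe_filter, Set.mem_ofPred_eq] at hs
          have := hpp3 s hs.1
          rw [hs.2] at this
          exact this
        · intro s hs s' hs' he
          simp only [coe_filter, Set.mem_ofPred_eq] at hs hs'
          exact hdisj s s' _ _ (hpp1 s hs.1) (hpp2 s hs.1) (hpp1 s' hs'.1) (hpp2 s' hs'.1) he
      have h2 : (T2.image (fun s : Fin Z => loc s)).card ≤ v := by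
        have h3 : T2.image (fun s : Fin Z => loc s) ⊆
            Finset.Icc (cnt P (θ qm)) (cnt P (θ qM)) := by
          intro x hx
          rw [mem_image] at hx
          obtain ⟨s, hs, rfl⟩ := hx
          rw [hlocs, mem_Icc]
          have hI : o s + (r - i - 1) ∈ Finset.Ico (r - i - 1) L := by
            have := hpos s s.2
            rw [mem_Ico]; omega
          exact ⟨cnt_mono P (hqm' _ hI), cnt_mono P (hqM' _ hI)⟩
        have h4 := card_le_card h3
        rw [Nat.card_Icc] at h4
        omega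
      exact h1.trans (Nat.mul_le_mul le_rfl h2)
    have hTcard : Z ≤ T.card + (T1.card + T2.card) := by
      have h1 : (univ : Finset (Fin Z)) ⊆ T ∪ (T1 ∪ T2) := by
        intro s _
        rw [mem_union, mem_union]
        exact hcover s
      have h2 := card_le_card h1
      rw [card_univ, Fintype.card_fin] at h2
      have h3 := card_union_le T (T1 ∪ T2)
      have h4 := card_union_le T1 T2
      omega
    have hTm0 : m0 ≤ T.card := by
      have h1 : 4 * D * v = 4 * (D * v) := by ring
      omega
    rw [hFB]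
    simp only [Set.mem_iUnion]
    refine ⟨loc 0, ?_, loc, rfl, hpath, T, hTm0, ?_⟩
    · rw [mem_range]
      have := cnt_le_card P (θ (o (min 0 (Z - 1)) + (r - i - 1)))
      simp only [loc]
      omega
    · intro s hs
      simp only [T, mem_filter, mem_univ, true_and] at hs
      exact hs

end Pool.Agent.PWU
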