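import Pool.Agent.Lib.MP_315eb0_co.Iterate

/-!
From words to graphs: the interval graph of a word, its path decomposition, and the embedding of
a word in the bags of a path decomposition of a host graph.
-/

set_option autoImplicit false

namespace Pool.Agent.PWU

open Finset

/-- path decompositions. -/
structure PD {V : Type*} (G : SimpleGraph V) {m : ℕ} (bag : Fin m → Finset V) : Prop where
  vert : ∀ v, ∃ s, v ∈ bag s
  edge : ∀ u v, G.Adj u v → ∃ s, u ∈ bag s ∧ v ∈ bag s
  intv : ∀ s t u v, s ≤ t → t ≤ u → v ∈ bag s → v ∈ bag u → v ∈ bag t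

/-- the graph of a word `w` on the positions `0, ..., n-1`. -/
def wordGraph (w : List ℕ) (n : ℕ) : SimpleGraph (Fin n) where
  Adj p q := p ≠ q ∧ (Active w p q ∨ Active w q p)
  symm := ⟨fun _ _ h => ⟨h.1.symm, h.2.symm⟩⟩
  loopless := ⟨fun _ h => h.1 rfl⟩

/-- the bags of the word graph. -/
noncomputable def wordBag (w : List ℕ) (n : ℕ) (q : Fin n) : Finset (Fin n) := by
  classical exact Finset.univ.filter (fun p : Fin n => Active w p q)

theorem mem_wordBag {w : List ℕ} {n : ℕ} {p q : Fin n} : p ∈ wordBag w n q ↔ Active w p q := by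
  unfold wordBag
  simp

theorem wordBag_pd (w : List ℕ) (n : ℕ) : PD (wordGraph w n) (wordBag w n) := by
  constructor
  · intro v
    exact ⟨v, mem_wordBag.mpr (Active.self w v)⟩
  · intro u v h
    rcases h.2 with h | h
    · exact ⟨v, mem_wordBag.mpr h, mem_wordBag.mpr (Active.self w v)⟩
    · exact ⟨u, mem_wordBag.mpr (Active.self w u), mem_wordBag.mpr h⟩
  · intro s t u v hst htu hs hu
    rw [mem_wordBag] at hs hu ⊢
    refine ⟨hs.1.trans hst, fun m h1 h2 => hu.2 m h1 (h2.trans htu)⟩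

theorem wordBag_card {w : List ℕ} {n r : ℕ} (hn : w.length = n) (hr : ∀ l ∈ w, l < r)
    (q : Fin n) : (wordBag w n q).card ≤ r := by
  subst hn
  have h1 : ∀ p ∈ wordBag w w.length q, w[p.1]'p.2 ∈ Finset.range r := by
    intro p _
    rw [Finset.mem_range]
    exact hr _ (List.getElem_mem _)
  have h2 : Set.InjOn (fun p : Fin w.length => w[p.1]'p.2)
      (wordBag w w.length q : Set (Fin w.length)) := by
    intro p hp p' hp' h
    rw [Finset.mem_coe, mem_wordBag] at hp hp'
    have h3 : w[p.1]? = w[p'.1]? := by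
      rw [List.getElem?_eq_getElem p.2, List.getElem?_eq_getElem p'.2]
      exact congrArg some h
    rcases lt_trichotomy p.1 p'.1 with h4 | h4 | h4
    · exact absurd h3.symm (hp.2 _ h4 hp'.1)
    · exact Fin.ext h4
    · exact absurd h3 (hp'.2 _ h4 hp.1)
  have := Finset.card_le_card_of_injOn _ h1 h2
  rwa [Finset.card_range] at this

/-- cliques lie in a bag. -/
theorem helly {V : Type*} {G : SimpleGraph V} {m : ℕ} {bag : Fin m → Finset V} (h : PD G bag)
    {K : Finset V} (hne : K.Nonempty) (hK : ∀ u ∈ K, ∀ v ∈ K, u ≠ v → G.Adj u v) :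
    ∃ s, ∀ v ∈ K, v ∈ bag s := by
  classical
  have h1 : ∀ v, ∃ s, v ∈ bag s ∧ ∀ t, v ∈ bag t → s ≤ t := by
    intro v
    have hne : (Finset.univ.filter (fun s => v ∈ bag s)).Nonempty := by
      obtain ⟨s, hs⟩ := h.vert v
      exact ⟨s, by simp [hs]⟩
    refine ⟨(Finset.univ.filter (fun s => v ∈ bag s)).min' hne, ?_, ?_⟩
    · have := Finset.min'_mem _ hne
      simpa using this
    · intro t ht
      exact Finset.min'_le _ _ (by simp [ht])
  choose f hf1 hf2 using h1
  obtain ⟨v, hv, hmax⟩ := Finset.exists_max_image K f hne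
  refine ⟨f v, fun u hu => ?_⟩
  by_cases huv : u = v
  · subst huv; exact hf1 _
  · obtain ⟨s, hs1, hs2⟩ := h.edge u v (hK u hu v hv huv)
    exact h.intv (f u) (f v) s u (hmax u hu) (hf2 v s hs2) (hf1 u) hs1

/-- the bags of a path decomposition, with empty bags added on both sides. -/
def extBag {V : Type*} {m : ℕ} (bag : Fin m → Finset V) (t : ℕ) : Finset V :=
  if h : 1 ≤ t ∧ t - 1 < m then bag ⟨t - 1, h.2⟩ else ∅

theorem extBag_iv {V : Type*} {G : SimpleGraph V} {m : ℕ} {bag : Fin m → Finset V}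
    (h : PD G bag) : Iv (extBag bag) := by
  intro s t u v hst htu hs hu
  unfold extBag at hs hu ⊢
  split_ifs at hs with h1
  swap
  · simp at hs
  split_ifs at hu with h2
  swap
  · simp at hu
  have h3 : 1 ≤ t ∧ t - 1 < m := by omega
  rw [dif_pos h3]
  refine h.intv _ _ _ v ?_ ?_ hs hu
  · rw [Fin.le_def]; show s - 1 ≤ t - 1; omega
  · rw [Fin.le_def]; show t - 1 ≤ u - 1; omega

theorem extBag_card {V : Type*} {m D : ℕ} {bag : Fin m → Finset V}
    (h : ∀ s, (bag s).card ≤ D) (t : ℕ) : (extBag bag t).card ≤ D := by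
  unfold extBag
  split_ifs
  · exact h _
  · simp

theorem emb_of_copy {V : Type*} [DecidableEq V] {U : SimpleGraph V} {m : ℕ}
    {bag : Fin m → Finset V} (h : PD U bag) {w : List ℕ} {n : ℕ} (hn : w.length = n)
    (hpos : 0 < n) (hc : (wordGraph w n).IsContained U) : EmbIn (extBag bag) w 0 (m + 1) := by
  classical
  obtain ⟨f⟩ := hc
  have hinj : Function.Injective f := f.injective
  have h1 : ∀ q : Fin n, ∃ s : Fin m, ∀ p : Fin n, Active w p q → f p ∈ bag s := by
    intro q
    obtain ⟨s, hs⟩ := helly h (K := (wordBag w n q).image f)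
      ⟨f q, Finset.mem_image_of_mem _ (mem_wordBag.mpr (Active.self w q))⟩ (by
        intro u hu v hv huv
        rw [Finset.mem_image] at hu hv
        obtain ⟨p, hp, rfl⟩ := hu
        obtain ⟨p', hp', rfl⟩ := hv
        rw [mem_wordBag] at hp hp'
        have hpp : p ≠ p' := fun e => huv (by rw [e])
        apply f.toHom.map_adj
        refine ⟨hpp, ?_⟩
        rcases Nat.le_total p.1 p'.1 with h2 | h2
        · left
          exact ⟨h2, fun m h3 h4 => hp.2 m h3 (h4.trans hp'.1)⟩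
        · right
          exact ⟨h2, fun m h3 h4 => hp'.2 m h3 (h4.trans hp.1)⟩)
    refine ⟨s, fun p hp => hs _ ?_⟩
    exact Finset.mem_image_of_mem _ (mem_wordBag.mpr hp)
  choose g hg using h1
  refine ⟨fun p => if hp : p < n then f ⟨p, hp⟩ else f ⟨0, hpos⟩,
    fun q => if hq : q < n then (g ⟨q, hq⟩).1 + 1 else 1, ⟨?_, ?_⟩, ?_, ?_⟩
  · intro p q hp hq hpq
    rw [hn] at hp hq
    simp only [hp, hq, dite_true] at hpq
    have := hinj hpq
    exact congrArg Fin.val this
  · intro p q hq hact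
    rw [hn] at hq
    have hp : p < n := lt_of_le_of_lt hact.1 hq
    simp only [hp, hq, dite_true]
    unfold extBag
    have h3 : 1 ≤ (g ⟨q, hq⟩).1 + 1 ∧ (g ⟨q, hq⟩).1 + 1 - 1 < m := by
      have := (g ⟨q, hq⟩).2
      omega
    rw [dif_pos h3]
    have := hg ⟨q, hq⟩ ⟨p, hp⟩ hact
    have h4 : (⟨(g ⟨q, hq⟩).1 + 1 - 1, h3.2⟩ : Fin m) = g ⟨q, hq⟩ := Fin.ext (by simp)
    rw [h4]
    exact this
  · intro q hq
    rw [hn] at hq
    simp only [hq, dite_true]
    have := (g ⟨q, hq⟩).2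
    omega
  · intro q hq h2
    rw [mem_inter] at h2
    have h3 := h2.1
    unfold extBag at h3
    simp at h3

theorem EmbIn.left {V : Type*} [DecidableEq V] {B : ℕ → Finset V} {u v : List ℕ} {a b : ℕ}
    (h : EmbIn B (u ++ v) a b) : EmbIn B u a b := by
  obtain ⟨φ, θ, h1, h2, h3⟩ := h
  refine ⟨φ, θ, h1.left, fun q hq => h2 q ?_, fun q hq => h3 q ?_⟩
  · rw [List.length_append]; omega
  · rw [List.length_append]; omega

/-- the lower bound for one value of the parameter `t`. -/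
theorem bound_of_hard {r D d : ℕ} (hr : 1 ≤ r) (hh : Hard 0 r D d) :
    ∃ L : ℕ → ℕ, PB L ∧ ∃ t₀, ∀ t, t₀ ≤ t → ∀ n, L t ≤ n → ∀ (N : ℕ) (U : SimpleGraph (Fin N)),
      2 * N + 2 ≤ 2 ^ t →
      (∀ G : SimpleGraph (Fin n), (∃ (m : ℕ) (bag : Fin m → Finset (Fin n)), PD G bag ∧
        ∀ s, (bag s).card ≤ r) → G.IsContained U) →
      ∀ (m : ℕ) (bag : Fin m → Finset (Fin N)), PD U bag → (∀ s, (bag s).card ≤ D) → d ≤ D := by
  classical
  obtain ⟨L, hL, t₀, ht₀⟩ := hh
  refine ⟨L, hL, t₀, fun t ht n hn N U hN huniv m bag hpd hD => ?_⟩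
  obtain ⟨A, hA⟩ := ht₀ t ht
  have hAne := A.ne
  have hAft := A.ft
  have hext := extBag_iv hpd
  have hemb : ∀ ω : A.Ω, EmbIn (extBag bag) (A.w ω) 0 (m + 1) := by
    intro ω
    have h1 := A.len ω
    have h2 : 0 < (A.w ω).length := List.length_pos_iff.mpr (A.nonempty ω)
    have h3 : (A.w ω ++ List.replicate (n - (A.w ω).length) 0).length = n := by
      rw [List.length_append, List.length_replicate]; omega
    apply EmbIn.left (v := List.replicate (n - (A.w ω).length) 0)
    apply emb_of_copy hpd h3 (by omega)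
    apply huniv
    refine ⟨n, wordBag _ n, wordBag_pd _ n, wordBag_card h3 ?_⟩
    intro l hl
    rw [List.mem_append] at hl
    rcases hl with hl | hl
    · exact (A.letters ω l hl).2
    · have := List.eq_of_mem_replicate hl
      omega
  have hgood : Good ((2 ^ t) ^ 2) (extBag bag) A.w 0 (m + 1) := by
    refine ⟨by omega, ?_⟩
    have h1 : embSet (extBag bag) A.w 0 (m + 1) = Set.univ := by
      ext ω
      simp only [embSet, Set.mem_ofPred_eq, Set.mem_univ, iff_true]
      exact hemb ω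
    rw [h1, Set.ncard_univ]
    exact Nat.le_mul_of_pos_left _ (by positivity)
  obtain ⟨s, -, -, h4⟩ := hA (Fin N) (extBag bag) hext (extBag_card hD)
    (by rw [Fintype.card_fin]; exact hN) 0 (m + 1) hgood
  refine h4.trans ((Finset.card_le_card Finset.sdiff_subset).trans (extBag_card hD s))

theorem core (k e : ℕ) (hk : 1 ≤ k) : ∃ n₀, ∀ n, n₀ ≤ n → ∀ (N : ℕ) (U : SimpleGraph (Fin N)),
    N ≤ n ^ e →
    (∀ G : SimpleGraph (Fin n), (∃ (m : ℕ) (bag : Fin m → Finset (Fin n)), PD G bag ∧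
      ∀ s, (bag s).card ≤ k + 1) → G.IsContained U) →
    ∀ (m : ℕ) (bag : Fin m → Finset (Fin N)), PD U bag →
      ∃ s, k * (k + 1) / 2 < (bag s).card := by
  have hD1 : 1 ≤ k * (k + 1) / 2 := by
    rw [Nat.le_div_iff_mul_le (by norm_num)]
    have : 1 * (1 + 1) ≤ k * (k + 1) := Nat.mul_le_mul hk (by omega)
    omega
  obtain ⟨m, rfl⟩ : ∃ m, k = m + 1 := ⟨k - 1, by omega⟩
  have hh := hard_all hD1 m 0
  rw [Nat.zero_add] at hh
  obtain ⟨L, ⟨E, hE⟩, t₀, ht₀⟩ := bound_of_hard (by omega) hh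
  -- choose `t` as a function of `n`
  have hpb : PB (fun t => 2 * ((t + 3) ^ (E + 1)) ^ e + 2) := by
    refine ((PB.const 2).mul (PB.pow (PB.pow (PB.add PB.id (PB.const 3)) (E + 1)) e)).add
      (PB.const 2)
  obtain ⟨t₁, ht₁⟩ := hpb.le_two_pow
  refine ⟨(max t₀ t₁ + 2) ^ (E + 1), fun n hn N U hN huniv m' bag hpd => ?_⟩
  by_contra hcon
  push Not at hcon
  classical
  set T := max t₀ t₁ with hT
  have hTn : T ≤ n := by
    have : (T + 2) ^ 1 ≤ (T + 2) ^ (E + 1) := Nat.pow_le_pow_right (by omega) (by omega)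
    rw [pow_one] at this
    omega
  set t := Nat.findGreatest (fun t => (t + 2) ^ (E + 1) ≤ n) n with ht
  have h1 : T ≤ t := Nat.le_findGreatest hTn hn
  have h2 : (t + 2) ^ (E + 1) ≤ n :=
    Nat.findGreatest_spec (P := fun t => (t + 2) ^ (E + 1) ≤ n) hTn hn
  have h3 : n < (t + 3) ^ (E + 1) := by
    by_contra h4
    push Not at h4
    have h5 : t + 1 ≤ n := by
      have : (t + 3) ^ 1 ≤ (t + 3) ^ (E + 1) := Nat.pow_le_pow_right (by omega) (by omega)
      rw [pow_one] at this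
      omega
    have h6 : t + 1 ≤ t := by
      nth_rewrite 2 [ht]
      exact Nat.le_findGreatest (P := fun t => (t + 2) ^ (E + 1) ≤ n) h5 h4
    omega
  have h4 : 2 * N + 2 ≤ 2 ^ t := by
    have h5 := ht₁ t ((le_max_right _ _).trans h1)
    have h6 : n ^ e ≤ ((t + 3) ^ (E + 1)) ^ e := Nat.pow_le_pow_left h3.le e
    omega
  have h5 : L t ≤ n := by
    refine (hE t).trans (le_trans ?_ h2)
    exact Nat.pow_le_pow_right (by omega) (by omega)
  have h6 := ht₀ t ((le_max_left _ _).trans h1) n h5 N U h4 huniv m' bag hpd hcon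
  have h7 : (m + 1) * (m + 2) / 2 = (m + 1) * (m + 1 + 1) / 2 := rfl
  omega

end Pool.Agent.PWU
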