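import Pool.Agent.Lib.MP_315eb0_co.Counting

/-!
Embeddings inside a region, good regions, and the greedy choice of the end points.
-/

set_option autoImplicit false

namespace Pool.Agent.PWU

open Finset

variable {V : Type*} [DecidableEq V]

/-- the word `w` embeds in the region `[a, b]` of the bag sequence, using no vertex that lies in
all the bags of the region. -/
def EmbIn (B : ℕ → Finset V) (w : List ℕ) (a b : ℕ) : Prop :=
  ∃ φ θ, IsEmb B w φ θ ∧ (∀ q, q < w.length → a ≤ θ q ∧ θ q ≤ b) ∧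
    ∀ q, q < w.length → φ q ∉ B a ∩ B b

theorem cov_anti {B : ℕ → Finset V} (hB : Iv B) {a b a' b' : ℕ} (ha : a' ≤ a) (hab : a ≤ b)
    (hb : b ≤ b') : B a' ∩ B b' ⊆ B a ∩ B b := by
  intro v hv
  rw [mem_inter] at hv ⊢
  exact ⟨hB a' a b' v ha (by omega) hv.1 hv.2, hB a' b b' v (by omega) hb hv.1 hv.2⟩

theorem EmbIn.mono {B : ℕ → Finset V} (hB : Iv B) {w : List ℕ} {a b a' b' : ℕ} (ha : a' ≤ a)
    (hab : a ≤ b) (hb : b ≤ b') (h : EmbIn B w a b) : EmbIn B w a' b' := by
  obtain ⟨φ, θ, h1, h2, h3⟩ := h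
  refine ⟨φ, θ, h1, fun q hq => ?_, fun q hq hq' => ?_⟩
  · have := h2 q hq; omega
  · exact h3 q hq (cov_anti hB ha hab hb hq')

/-- the set of the members of a family of words embeddable in a region. -/
def embSet {Ω : Type*} (B : ℕ → Finset V) (w : Ω → List ℕ) (a b : ℕ) : Set Ω :=
  {ω | EmbIn B (w ω) a b}

/-- a region is good for a family of words if at least one part in `κ` of the family embeds. -/
def Good {Ω : Type*} (κ : ℕ) (B : ℕ → Finset V) (w : Ω → List ℕ) (a b : ℕ) : Prop :=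
  a ≤ b ∧ Nat.card Ω ≤ κ * (embSet B w a b).ncard

theorem Good.mono {Ω : Type*} [Finite Ω] {κ : ℕ} {B : ℕ → Finset V} (hB : Iv B)
    {w : Ω → List ℕ} {a b a' b' : ℕ} (ha : a' ≤ a) (hb : b ≤ b') (h : Good κ B w a b) :
    Good κ B w a' b' := by
  refine ⟨by have := h.1; omega, h.2.trans (Nat.mul_le_mul le_rfl ?_)⟩
  exact Set.ncard_le_ncard (fun ω hω => EmbIn.mono hB ha h.1 hb hω) (Set.toFinite _)

/-- greedy choice of end points. -/
theorem exists_greedy (Gd : ℕ → ℕ → Prop) (hle : ∀ x y, Gd x y → x ≤ y)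
    (hmono : ∀ x y x' y', x' ≤ x → y ≤ y' → Gd x y → Gd x' y') (a : ℕ) :
    ∀ b, ∃ P : Finset ℕ, (∀ p ∈ P, a ≤ p ∧ p ≤ b) ∧
      (∀ x y, a ≤ x → y ≤ b → Gd x y → ∃ p ∈ P, x ≤ p ∧ p ≤ y) ∧
      (∀ p ∈ P, ∀ p' ∈ P, p < p' → Gd (p + 1) p') ∧ (∀ p ∈ P, Gd a p) := by
  classical
  -- induct on the right end point
  have base : ∀ b, b + 1 ≤ a → ∃ P : Finset ℕ, (∀ p ∈ P, a ≤ p ∧ p ≤ b) ∧
      (∀ x y, a ≤ x → y ≤ b → Gd x y → ∃ p ∈ P, x ≤ p ∧ p ≤ y) ∧
      (∀ p ∈ P, ∀ p' ∈ P, p < p' → Gd (p + 1) p') ∧ (∀ p ∈ P, Gd a p) := by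
    intro b hb
    refine ⟨∅, by simp, ?_, by simp, by simp⟩
    intro x y hx hy h
    have := hle x y h
    omega
  have step : ∀ b, (∃ P : Finset ℕ, (∀ p ∈ P, a ≤ p ∧ p + 1 ≤ b) ∧
      (∀ x y, a ≤ x → y + 1 ≤ b → Gd x y → ∃ p ∈ P, x ≤ p ∧ p ≤ y) ∧
      (∀ p ∈ P, ∀ p' ∈ P, p < p' → Gd (p + 1) p') ∧ (∀ p ∈ P, Gd a p)) →
      ∃ P : Finset ℕ, (∀ p ∈ P, a ≤ p ∧ p ≤ b) ∧
      (∀ x y, a ≤ x → y ≤ b → Gd x y → ∃ p ∈ P, x ≤ p ∧ p ≤ y) ∧
      (∀ p ∈ P, ∀ p' ∈ P, p < p' → Gd (p + 1) p') ∧ (∀ p ∈ P, Gd a p) := by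
    intro b ⟨P, h1, h2, h3, h4⟩
    by_cases hc : Gd a b ∧ ∀ p ∈ P, Gd (p + 1) b
    · refine ⟨insert b P, ?_, ?_, ?_, ?_⟩
      · intro p hp
        rw [mem_insert] at hp
        rcases hp with rfl | hp
        · exact ⟨hle _ _ hc.1, le_rfl⟩
        · have := h1 p hp; omega
      · intro x y hx hy h
        rcases Nat.lt_or_ge y b with hyb | hyb
        · obtain ⟨p, hp, h5⟩ := h2 x y hx (by omega) h
          exact ⟨p, mem_insert_of_mem hp, h5⟩
        · have : y = b := by omega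
          subst this
          exact ⟨y, mem_insert_self _ _, hle _ _ h, le_rfl⟩
      · intro p hp p' hp' hpp
        rw [mem_insert] at hp hp'
        rcases hp' with rfl | hp'
        · rcases hp with rfl | hp
          · omega
          · exact hc.2 p hp
        · rcases hp with rfl | hp
          · have := h1 p' hp'; omega
          · exact h3 p hp p' hp' hpp
      · intro p hp
        rw [mem_insert] at hp
        rcases hp with rfl | hp
        · exact hc.1
        · exact h4 p hp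
    · refine ⟨P, ?_, ?_, h3, h4⟩
      · intro p hp
        have := h1 p hp; omega
      · intro x y hx hy h
        rcases Nat.lt_or_ge y b with hyb | hyb
        · exact h2 x y hx (by omega) h
        · have : y = b := by omega
          subst this
          by_contra hcon
          push Not at hcon
          apply hc
          refine ⟨hmono _ _ _ _ hx le_rfl h, fun p hp => ?_⟩
          refine hmono _ _ _ _ ?_ le_rfl h
          by_contra hlt
          have := hcon p hp (by omega)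
          have := h1 p hp
          omega
  intro b
  induction b with
  | zero =>
    rcases Nat.eq_zero_or_pos a with ha | ha
    · apply step
      refine ⟨∅, by simp, ?_, by simp, by simp⟩
      intro x y hx hy h
      omega
    · exact base 0 ha
  | succ b ih =>
    apply step
    obtain ⟨P, h1, h2, h3, h4⟩ := ih
    refine ⟨P, fun p hp => ⟨(h1 p hp).1, by have := (h1 p hp).2; omega⟩, ?_, h3, h4⟩
    intro x y hx hy h
    exact h2 x y hx (by omega) h

/-- the number of end points is at most twice the number of vertices plus one. -/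
theorem card_greedy_le [Fintype V] {B : ℕ → Finset V} (hB : Iv B) (P : Finset ℕ)
    (h : ∀ p ∈ P, ∀ p' ∈ P, p < p' → ∃ v, ∃ s s', p < s ∧ s ≤ p' ∧ p < s' ∧ s' ≤ p' ∧
      v ∈ B s ∧ v ∉ B s') : P.card ≤ 2 * Fintype.card V + 1 := by
  classical
  rcases P.eq_empty_or_nonempty with hP | hP
  · subst hP; simp
  rcases isEmpty_or_nonempty V with hV | hV
  · have : P.card ≤ 1 := by
      rw [Finset.card_le_one]
      intro x hx y hy
      rcases Nat.lt_trichotomy x y with h1 | h1 | h1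
      · obtain ⟨v, _⟩ := h x hx y hy h1
        exact hV.elim v
      · exact h1
      · obtain ⟨v, _⟩ := h y hy x hx h1
        exact hV.elim v
    omega
  -- the next element
  have hnext : ∀ p ∈ P.erase (P.max' hP), ∃ p' ∈ P, p < p' ∧ ∀ p'' ∈ P, p < p'' → p' ≤ p'' := by
    intro p hp
    rw [mem_erase] at hp
    have hne : (P.filter (fun x => p < x)).Nonempty := by
      refine ⟨P.max' hP, ?_⟩
      rw [mem_filter]
      refine ⟨P.max'_mem hP, ?_⟩
      exact lt_of_le_of_ne (P.le_max' p hp.2) hp.1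
    refine ⟨(P.filter (fun x => p < x)).min' hne, ?_, ?_, ?_⟩
    · exact (mem_filter.mp (Finset.min'_mem _ hne)).1
    · exact (mem_filter.mp (Finset.min'_mem _ hne)).2
    · intro p'' hp'' hlt
      exact Finset.min'_le _ _ (mem_filter.mpr ⟨hp'', hlt⟩)
  have hkey : ∀ p ∈ P.erase (P.max' hP), ∃ k : V × Bool,
      (k.2 = true → ∃ s s', p < s ∧ s < s' ∧ (∀ p'' ∈ P, p < p'' → s' ≤ p'') ∧
        k.1 ∈ B s ∧ k.1 ∉ B s') ∧
      (k.2 = false → ∃ s s', p < s' ∧ s' < s ∧ (∀ p'' ∈ P, p < p'' → s ≤ p'') ∧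
        k.1 ∈ B s ∧ k.1 ∉ B s') := by
    intro p hp
    obtain ⟨p', hp', hlt, hmin⟩ := hnext p hp
    obtain ⟨v, s, s', h1, h2, h3, h4, h5, h6⟩ := h p (mem_of_mem_erase hp) p' hp' hlt
    rcases Nat.lt_trichotomy s s' with hs | hs | hs
    · refine ⟨(v, true), fun _ => ⟨s, s', h1, hs, fun p'' hp'' hl => ?_, h5, h6⟩, by simp⟩
      exact h4.trans (hmin p'' hp'' hl)
    · subst hs; exact absurd h5 h6
    · refine ⟨(v, false), by simp, fun _ => ⟨s, s', h3, hs, fun p'' hp'' hl => ?_, h5, h6⟩⟩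
      exact h2.trans (hmin p'' hp'' hl)
  choose! k hk1 hk2 using hkey
  have hinj : Set.InjOn k ((P.erase (P.max' hP) : Finset ℕ) : Set ℕ) := by
    intro p hp p' hp' hkk
    rw [mem_coe] at hp hp'
    by_contra hne
    -- wlog p < p'
    have main : ∀ p ∈ P.erase (P.max' hP), ∀ p' ∈ P.erase (P.max' hP), k p = k p' →
        p < p' → False := by
      intro p hp p' hp' hkk hlt
      have hp'P := mem_of_mem_erase hp'
      cases hb : (k p).2 with
      | true =>
        obtain ⟨s, s', h1, h2, h3, h4, h5⟩ := hk1 p hp hb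
        obtain ⟨r, r', g1, g2, g3, g4, g5⟩ := hk1 p' hp' (by rw [← hkk]; exact hb)
        have h6 := h3 p' hp'P hlt
        rw [← hkk] at g4
        exact h5 (hB s s' r _ (by omega) (by omega) h4 g4)
      | false =>
        obtain ⟨s, s', h1, h2, h3, h4, h5⟩ := hk2 p hp hb
        obtain ⟨r, r', g1, g2, g3, g4, g5⟩ := hk2 p' hp' (by rw [← hkk]; exact hb)
        have h6 := h3 p' hp'P hlt
        rw [← hkk] at g4 g5
        exact g5 (hB s r' r _ (by omega) (by omega) h4 g4)
    rcases Nat.lt_or_ge p p' with h1 | h1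
    · exact main p hp p' hp' hkk h1
    · exact main p' hp' p hp hkk.symm (by omega)
  have hcard : (P.erase (P.max' hP)).card ≤ Fintype.card (V × Bool) :=
    Finset.card_le_card_of_injOn k (fun _ _ => mem_univ _) hinj
  rw [card_erase_of_mem (P.max'_mem hP), Fintype.card_prod, Fintype.card_bool] at hcard
  omega

end Pool.Agent.PWU
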