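import Mathlib

/-!
Polynomially bounded functions of one natural number.
-/

set_option autoImplicit false

namespace Pool.Agent.PWU

/-- `f` is bounded by a power of `t + 2`. -/
def PB (f : ℕ → ℕ) : Prop := ∃ E : ℕ, ∀ t, f t ≤ (t + 2) ^ E

theorem PB.const (c : ℕ) : PB (fun _ => c) := by
  refine ⟨c, fun t => ?_⟩
  calc c ≤ 2 ^ c := Nat.lt_two_pow_self.le
    _ ≤ (t + 2) ^ c := Nat.pow_le_pow_left (by omega) c

theorem PB.id : PB (fun t => t) := ⟨1, fun t => by show t ≤ _; rw [pow_one]; omega⟩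

theorem PB.add {f g : ℕ → ℕ} (hf : PB f) (hg : PB g) : PB (fun t => f t + g t) := by
  obtain ⟨E, hE⟩ := hf
  obtain ⟨F, hF⟩ := hg
  refine ⟨E + F + 1, fun t => ?_⟩
  have h1 : (t + 2) ^ E ≤ (t + 2) ^ (E + F) := Nat.pow_le_pow_right (by omega) (by omega)
  have h2 : (t + 2) ^ F ≤ (t + 2) ^ (E + F) := Nat.pow_le_pow_right (by omega) (by omega)
  have h3 := hE t
  have h4 := hF t
  calc f t + g t ≤ (t + 2) ^ (E + F) * 2 := by omega
    _ ≤ (t + 2) ^ (E + F) * (t + 2) := Nat.mul_le_mul le_rfl (by omega)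
    _ = (t + 2) ^ (E + F + 1) := (pow_succ _ _).symm

theorem PB.mul {f g : ℕ → ℕ} (hf : PB f) (hg : PB g) : PB (fun t => f t * g t) := by
  obtain ⟨E, hE⟩ := hf
  obtain ⟨F, hF⟩ := hg
  refine ⟨E + F, fun t => ?_⟩
  rw [pow_add]
  exact Nat.mul_le_mul (hE t) (hF t)

theorem PB.pow {f : ℕ → ℕ} (hf : PB f) (k : ℕ) : PB (fun t => f t ^ k) := by
  obtain ⟨E, hE⟩ := hf
  refine ⟨E * k, fun t => ?_⟩
  rw [pow_mul]
  exact Nat.pow_le_pow_left (hE t) k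

theorem PB.le_two_pow {f : ℕ → ℕ} (hf : PB f) : ∃ t₀, ∀ t, t₀ ≤ t → f t ≤ 2 ^ t := by
  obtain ⟨E, hE⟩ := hf
  have h1 := isLittleO_pow_const_const_pow_of_one_lt (R := ℝ) E (r := 2) (by norm_num)
  have h2 := h1.bound (c := 1 / 4) (by norm_num)
  rw [Filter.eventually_atTop] at h2
  obtain ⟨n₀, hn⟩ := h2
  refine ⟨n₀, fun t ht => (hE t).trans ?_⟩
  have h3 := hn (t + 2) (by omega)
  rw [Real.norm_of_nonneg (by positivity), Real.norm_of_nonneg (by positivity)] at h3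
  have h4 : ((t + 2 : ℕ) : ℝ) ^ E ≤ 2 ^ t := by
    calc ((t + 2 : ℕ) : ℝ) ^ E ≤ 1 / 4 * 2 ^ (t + 2) := h3
      _ = 2 ^ t := by rw [pow_add]; ring
  exact_mod_cast h4

end Pool.Agent.PWU
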