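import Pool.Agent.Lib.MP_315eb0_co.OneStep
import Pool.Agent.Lib.MP_315eb0_co.PolyB

/-!
Iteration of the induction step.
-/

set_option autoImplicit false

namespace Pool.Agent.PWU

open Finset

/-- a finite family of non empty words with letters in `[i, r)` and of length at most `L`. -/
structure Fam (i r L : ℕ) where
  Ω : Type
  ft : Fintype Ω
  ne : Nonempty Ω
  w : Ω → List ℕ
  len : ∀ ω, (w ω).length ≤ L
  nonempty : ∀ ω, w ω ≠ []
  letters : ∀ ω, ∀ l ∈ w ω, i ≤ l ∧ l < r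

/-- a property of all bag sequences with bags of size at most `D` on vertex sets that are small
compared with `2 ^ t`. -/
def ForB (D t : ℕ) (P : ∀ (V : Type) [DecidableEq V], (ℕ → Finset V) → Prop) : Prop :=
  ∀ (V : Type) [DecidableEq V] [Fintype V] (B : ℕ → Finset V), Iv B → (∀ s, (B s).card ≤ D) →
    2 * Fintype.card V + 2 ≤ 2 ^ t → P V B

section params

variable (D ρ t ℓ : ℕ)

/-- number of blocks beyond the first level. -/
def px : ℕ := 3 * t + 3 + 8 * D
/-- number of blocks. -/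
def pX : ℕ := 2 * D * px D t
/-- number of words in an `A`-run. -/
def pc : ℕ := 16 * D + 3 * t + 2 + pX D t
/-- length scale of an `A`-run. -/
def pΓ : ℕ := pc D t * (ρ + ℓ) + 2
/-- ratio parameter. -/
def py : ℕ := 4 * pΓ D ρ t ℓ + (ρ + ℓ) + 1
/-- base of the scales. -/
def pz : ℕ := 4 * D * py D ρ t ℓ
/-- number of scales. -/
def pM : ℕ := 2 * 10 ^ (2 * D)
/-- length of the new words. -/
def pL : ℕ := pX D t * (pc D t * (ρ + ℓ) + 1 + pz D ρ t ℓ ^ pM D * (ρ + ℓ))

end params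

theorem pb_pL {D ρ : ℕ} {ℓ : ℕ → ℕ} (hℓ : PB ℓ) : PB (fun t => pL D ρ t (ℓ t)) := by
  have hx : PB (fun t => px D t) := by
    unfold px
    exact (((PB.const 3).mul PB.id).add (PB.const 3)).add (PB.const (8 * D))
  have hX : PB (fun t => pX D t) := by
    unfold pX
    exact (PB.const (2 * D)).mul hx
  have hc : PB (fun t => pc D t) := by
    unfold pc
    exact ((((PB.const (16 * D)).add ((PB.const 3).mul PB.id)).add (PB.const 2))).add hX
  have hρ : PB (fun t => ρ + ℓ t) := (PB.const ρ).add hℓ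
  have hΓ : PB (fun t => pΓ D ρ t (ℓ t)) := by
    unfold pΓ
    exact (hc.mul hρ).add (PB.const 2)
  have hy : PB (fun t => py D ρ t (ℓ t)) := by
    unfold py
    exact (((PB.const 4).mul hΓ).add hρ).add (PB.const 1)
  have hz : PB (fun t => pz D ρ t (ℓ t)) := by
    unfold pz
    exact (PB.const (4 * D)).mul hy
  unfold pL
  exact hX.mul (((hc.mul hρ).add (PB.const 1)).add ((hz.pow (pM D)).mul hρ))

/-- the family of the next step. -/
noncomputable def Fam.big {i r LA LH : ℕ} (A : Fam i r LA) (H : Fam (i + 1) r LH) (D t : ℕ)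
    (hir : i < r) (hD : 1 ≤ D) :
    Fam i r (pL D (r - i) t (LA + LH)) where
  Ω := Fin (pX D t) → Blk A.Ω H.Ω (pc D t) (pz D (r - i) t (LA + LH)) (pM D)
  ft := by
    classical
    have := A.ft
    have := H.ft
    exact Fintype.ofFinite _
  ne := by
    have := A.ne
    have := H.ne
    have : Nonempty (Fin (pM D)) := ⟨⟨0, by unfold pM; positivity⟩⟩
    infer_instance
  w := bigWord i r A.w H.w
  len := by
    intro ω
    unfold bigWord pL
    apply cat_length_le
    intro s hs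
    rw [bigPcs_of_lt hs]
    simp only [List.length_append, List.length_singleton]
    have h1 : (famCat i r A.w (ω ⟨s, hs⟩).1).length ≤ pc D t * (r - i + (LA + LH)) := by
      apply famCat_length_le
      intro ω'
      have := A.len ω'
      omega
    have h2 : (famCat (i + 1) r H.w ((ω ⟨s, hs⟩).2.2 (ω ⟨s, hs⟩).2.1)).length ≤
        pz D (r - i) t (LA + LH) ^ pM D * (r - i + (LA + LH)) := by
      refine (famCat_length_le (ℓ := LA + LH) ?_).trans ?_
      · intro ω'
        have := H.len ω'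
        omega
      · apply Nat.mul_le_mul
        · apply Nat.pow_le_pow_right
          · unfold pz py
            exact Nat.mul_pos (by omega) (by omega)
          · have := (ω ⟨s, hs⟩).2.1.2
            omega
        · omega
    omega
  nonempty := by
    intro ω h
    have hX : 0 < pX D t := by
      unfold pX px
      exact Nat.mul_pos (by omega) (by omega)
    have h1 := get_J (i := i) (r := r) (wA := A.w) (wH := H.w) (ω := ω) hX
    rw [h] at h1
    simp at h1
  letters := by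
    intro ω l hl
    obtain ⟨s, hs, h⟩ := mem_cat hl
    rw [bigPcs_of_lt hs, List.mem_append, List.mem_append] at h
    rcases h with h | h | h
    · exact famCat_mem A.letters h
    · rw [List.mem_singleton] at h
      omega
    · have := famCat_mem H.letters h
      omega

theorem two_pow_split (t : ℕ) : (2 : ℕ) ^ (3 * t + 2) = (2 ^ t) ^ 3 * 4 := by
  rw [pow_add, mul_comm 3 t, pow_mul]
  norm_num

theorem pow_le_helper {t D : ℕ} : 4 * (2 ^ t) ^ 2 * (pX D t * 2 ^ t) ≤ 2 ^ pc D t := by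
  have h1 : pX D t ≤ 2 ^ pX D t := Nat.lt_two_pow_self.le
  calc 4 * (2 ^ t) ^ 2 * (pX D t * 2 ^ t) = 2 ^ (3 * t + 2) * pX D t := by
        rw [two_pow_split]; ring
    _ ≤ 2 ^ (3 * t + 2) * 2 ^ pX D t := Nat.mul_le_mul le_rfl h1
    _ = 2 ^ (3 * t + 2 + pX D t) := (pow_add _ _ _).symm
    _ ≤ 2 ^ pc D t := by
        apply Nat.pow_le_pow_right (by norm_num)
        unfold pc
        omega

theorem pc_le_pz {D ρ t ℓ : ℕ} (hD : 1 ≤ D) (hρ : 1 ≤ ρ) : pc D t ≤ pz D ρ t ℓ := by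
  have h1 : pc D t * 1 ≤ pc D t * (ρ + ℓ) := Nat.mul_le_mul le_rfl (by omega)
  have h2 : 1 * py D ρ t ℓ ≤ 4 * D * py D ρ t ℓ := Nat.mul_le_mul (by omega) le_rfl
  unfold pz
  refine le_trans ?_ h2
  unfold py pΓ
  omega

/-- one more step of the inner induction. -/
theorem sc_step {t D i r j LA LH : ℕ} (hD1 : 1 ≤ D) (hir : i + 3 ≤ r) (A : Fam i r LA)
    (H : Fam (i + 1) r LH) (hj : j + 1 ≤ r - i - 1)
    (hA : ForB D t (fun _ _ B => ∀ a b, Good ((2 ^ t) ^ 2) B A.w a b →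
      ∃ x y, a ≤ x ∧ y ≤ b ∧ Good ((2 ^ t) ^ 2) B H.w x y ∧
        j ≤ ((B x ∩ B y) \ (B a ∩ B b)).card))
    (hlarge : 4 * (2 * (r - i + (LA + LH)) + 1) ≤ 2 ^ t) :
    ForB D t (fun _ _ B => ∀ a b, Good ((2 ^ t) ^ 2) B (A.big H D t (by omega) hD1).w a b →
      ∃ x y, a ≤ x ∧ y ≤ b ∧ Good ((2 ^ t) ^ 2) B H.w x y ∧
        j + 1 ≤ ((B x ∩ B y) \ (B a ∩ B b)).card) := by
  intro V _ _ B hB hD hV a b hgood
  have hA' := hA V B hB hD hV
  by_contra hcon
  push Not at hcon
  have := A.ft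
  have := H.ft
  have := A.ne
  have := H.ne
  have hDpos : 0 < D := hD1
  refine one_step (K0 := 2 ^ t) (Γ := pΓ D (r - i) t (LA + LH)) hB hD hD1 hir (ℓ := LA + LH)
    H.letters ?_ ?_ A.nonempty H.nonempty
    (c := pc D t) (z := pz D (r - i) t (LA + LH)) (M := pM D) (X := pX D t)
    (x := px D t) (y := py D (r - i) t (LA + LH)) ?_ rfl rfl ?_ rfl ?_ rfl hlarge hV
    pow_le_helper ?_ ?_ (a := a) (b := b) ?_ ?_ ?_ hgood
  · intro ω; have := A.len ω; omega
  · intro ω; have := H.len ω; omega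
  · unfold pc; omega
  · unfold py; omega
  · unfold px; omega
  · exact pow_le_helper.trans (Nat.pow_le_pow_right (by norm_num)
      (pc_le_pz hD1 (by omega)))
  · have e1 : (10 : ℕ) ^ (2 * D) ≤ 2 ^ (8 * D) := by
      calc (10 : ℕ) ^ (2 * D) ≤ 16 ^ (2 * D) := Nat.pow_le_pow_left (by norm_num) _
        _ = 2 ^ (8 * D) := by
          rw [show (16 : ℕ) = 2 ^ 4 by norm_num, ← pow_mul]; congr 1; ring
    calc 4 * (2 ^ t) ^ 2 * (1 * (2 ^ t * 10 ^ (2 * D)))
        = 2 ^ (3 * t + 2) * 10 ^ (2 * D) := by rw [two_pow_split]; ring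
      _ ≤ 2 ^ (3 * t + 2) * 2 ^ (8 * D) := Nat.mul_le_mul le_rfl e1
      _ = 2 ^ (3 * t + 2 + 8 * D) := (pow_add _ _ _).symm
      _ ≤ 2 ^ (px D t - 1) := by
        apply Nat.pow_le_pow_right (by norm_num)
        unfold px
        omega
  · intro x y hx hy hxy
    have := hcon x y hx hy hxy
    omega
  · intro x y hx hy hxy v hv
    by_contra hv'
    obtain ⟨x', y', h1, h2, h3, h4⟩ := hA' x y hxy
    have h5 := hcon x' y' (by omega) (by omega) h3
    have h6 : insert v ((B x' ∩ B y') \ (B x ∩ B y)) ⊆ (B x' ∩ B y') \ (B a ∩ B b) := by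
      intro u hu
      rw [Finset.mem_insert] at hu
      rcases hu with rfl | hu
      · rw [Finset.mem_sdiff]
        exact ⟨cov_anti hB h1 h3.1 h2 hv, hv'⟩
      · rw [Finset.mem_sdiff] at hu ⊢
        exact ⟨hu.1, fun h => hu.2 (cov_anti hB hx hxy.1 hy h)⟩
    have h7 := Finset.card_le_card h6
    rw [Finset.card_insert_of_notMem (by
      rw [Finset.mem_sdiff]; exact fun h => h.2 hv)] at h7
    omega
  · intro x y hxy
    obtain ⟨x', y', h1, h2, h3, -⟩ := hA' x y hxy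
    exact ⟨x', y', h1, h2, h3⟩

/-- the weakening of a family to a larger window and length. -/
def Fam.weaken {i r L : ℕ} (H : Fam (i + 1) r L) : Fam i r L where
  Ω := H.Ω
  ft := H.ft
  ne := H.ne
  w := H.w
  len := H.len
  nonempty := H.nonempty
  letters := fun ω l hl => by have := H.letters ω l hl; omega

/-- lengths of the words of the families of the inner induction. -/
def Lseq (D ρ : ℕ) (L : ℕ → ℕ) : ℕ → ℕ → ℕ
  | 0, t => L t
  | j + 1, t => pL D ρ t (Lseq D ρ L j t + L t)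

theorem pb_Lseq {D ρ : ℕ} {L : ℕ → ℕ} (hL : PB L) : ∀ j, PB (fun t => Lseq D ρ L j t)
  | 0 => hL
  | j + 1 => pb_pL ((pb_Lseq hL j).add hL)

theorem sc_all {D i r : ℕ} (hD1 : 1 ≤ D) (hir : i + 3 ≤ r) {L : ℕ → ℕ} (hL : PB L) :
    ∀ j, j ≤ r - i - 1 → ∃ t₀, ∀ t, t₀ ≤ t → ∀ H : Fam (i + 1) r (L t),
      ∃ A : Fam i r (Lseq D (r - i) L j t),
      ForB D t (fun _ _ B => ∀ a b, Good ((2 ^ t) ^ 2) B A.w a b →
        ∃ x y, a ≤ x ∧ y ≤ b ∧ Good ((2 ^ t) ^ 2) B H.w x y ∧
          j ≤ ((B x ∩ B y) \ (B a ∩ B b)).card) := by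
  intro j
  induction j with
  | zero =>
    intro _
    refine ⟨0, fun t _ H => ⟨H.weaken, ?_⟩⟩
    intro V _ _ B hB hD hV a b h
    exact ⟨a, b, le_rfl, le_rfl, h, by omega⟩
  | succ j ih =>
    intro hj
    obtain ⟨t₀, ht₀⟩ := ih (by omega)
    have hpb : PB (fun t => 4 * (2 * (r - i + (Lseq D (r - i) L j t + L t)) + 1)) :=
      (PB.const 4).mul (((PB.const 2).mul ((PB.const (r - i)).add
        ((pb_Lseq hL j).add hL))).add (PB.const 1))
    obtain ⟨t₁, ht₁⟩ := hpb.le_two_pow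
    refine ⟨max t₀ t₁, fun t ht H => ?_⟩
    obtain ⟨A, hA⟩ := ht₀ t (le_trans (le_max_left _ _) ht) H
    exact ⟨A.big H D t (by omega) hD1, sc_step hD1 hir A H (by omega) hA
      (ht₁ t (le_trans (le_max_right _ _) ht))⟩

/-- families of words of polynomial length that force depth `d`. -/
def Hard (i r D d : ℕ) : Prop :=
  ∃ L : ℕ → ℕ, PB L ∧ ∃ t₀, ∀ t, t₀ ≤ t → ∃ A : Fam i r (L t),
    ForB D t (fun _ _ B => ∀ a b, Good ((2 ^ t) ^ 2) B A.w a b →
      ∃ s, a ≤ s ∧ s ≤ b ∧ d ≤ (B s \ (B a ∩ B b)).card)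

theorem hard_step {D i r d : ℕ} (hD1 : 1 ≤ D) (hir : i + 3 ≤ r) (h : Hard (i + 1) r D d) :
    Hard i r D (d + (r - i - 1)) := by
  obtain ⟨L, hL, t₀, ht₀⟩ := h
  obtain ⟨t₁, ht₁⟩ := sc_all hD1 hir hL (r - i - 1) le_rfl
  refine ⟨_, pb_Lseq hL (r - i - 1) (D := D) (ρ := r - i), max t₀ t₁, fun t ht => ?_⟩
  obtain ⟨H, hH⟩ := ht₀ t (le_trans (le_max_left _ _) ht)
  obtain ⟨A, hA⟩ := ht₁ t (le_trans (le_max_right _ _) ht) H
  refine ⟨A, ?_⟩
  intro V _ _ B hB hD hV a b hab
  obtain ⟨x, y, h1, h2, h3, h4⟩ := hA V B hB hD hV a b hab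
  obtain ⟨s, h5, h6, h7⟩ := hH V B hB hD hV x y h3
  refine ⟨s, by omega, by omega, ?_⟩
  have h8 : (B s \ (B x ∩ B y)) ∪ ((B x ∩ B y) \ (B a ∩ B b)) ⊆ B s \ (B a ∩ B b) := by
    intro u hu
    rw [Finset.mem_union] at hu
    rcases hu with hu | hu
    · rw [Finset.mem_sdiff] at hu ⊢
      exact ⟨hu.1, fun h => hu.2 (cov_anti hB h1 h3.1 h2 h)⟩
    · rw [Finset.mem_sdiff] at hu ⊢
      refine ⟨?_, hu.2⟩
      have := hu.1
      rw [Finset.mem_inter] at this
      exact hB x s y u h5 h6 this.1 this.2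
  have h9 := Finset.card_le_card h8
  rw [Finset.card_union_of_disjoint (by
    rw [Finset.disjoint_left]
    intro u hu hu'
    rw [Finset.mem_sdiff] at hu hu'
    exact hu.2 hu'.1)] at h9
  omega

/-- the trivial family for two registers. -/
def baseFam (i : ℕ) : Fam i (i + 2) 2 where
  Ω := Unit
  ft := inferInstance
  ne := inferInstance
  w := fun _ => [i, i + 1]
  len := fun _ => by simp
  nonempty := fun _ => by simp
  letters := fun _ l hl => by
    simp only [List.mem_cons, List.not_mem_nil, or_false] at hl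
    omega

theorem hard_base (i D : ℕ) : Hard i (i + 2) D 2 := by
  refine ⟨fun _ => 2, PB.const 2, 0, fun t _ => ⟨baseFam i, ?_⟩⟩
  intro V _ _ B hB hD hV a b h
  obtain ⟨ω, φ, θ, h1, h2, h3⟩ := @good_nonempty V _ Unit _ _ _ B (baseFam i).w a b h
  have hlen : ((baseFam i).w ω).length = 2 := rfl
  have h4 := h2 1 (by rw [hlen]; omega)
  refine ⟨θ 1, h4.1, h4.2, ?_⟩
  have h5 : φ 0 ∈ B (θ 1) := by
    apply h1.mem 0 1 (by rw [hlen]; omega)
    refine ⟨by omega, fun m hm1 hm2 => ?_⟩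
    have : m = 1 := by omega
    subst this
    show some (i + 1) ≠ some i
    simp
  have h6 : φ 1 ∈ B (θ 1) := h1.self_mem (by rw [hlen]; omega)
  have h7 : φ 0 ≠ φ 1 := by
    intro h
    have := h1.inj 0 1 (by rw [hlen]; omega) (by rw [hlen]; omega) h
    omega
  have h8 : ({φ 0, φ 1} : Finset V) ⊆ B (θ 1) \ (B a ∩ B b) := by
    intro u hu
    rw [Finset.mem_insert, Finset.mem_singleton] at hu
    rw [Finset.mem_sdiff]
    rcases hu with rfl | rfl
    · exact ⟨h5, h3 0 (by rw [hlen]; omega)⟩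
    · exact ⟨h6, h3 1 (by rw [hlen]; omega)⟩
  have h9 := Finset.card_le_card h8
  rwa [Finset.card_pair h7] at h9

/-- a family for all registers `[i, i + m + 2)`. -/
theorem hard_all {D : ℕ} (hD1 : 1 ≤ D) : ∀ m i, Hard i (i + m + 2) D
    (1 + (m + 1) * (m + 2) / 2) := by
  intro m
  induction m with
  | zero =>
    intro i
    simpa using hard_base i D
  | succ m ih =>
    intro i
    have h1 := ih (i + 1)
    have e1 : i + 1 + m + 2 = i + (m + 1) + 2 := by ring
    rw [e1] at h1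
    have h2 := hard_step hD1 (by omega) h1
    have e2 : 1 + (m + 1) * (m + 2) / 2 + (i + (m + 1) + 2 - i - 1) =
        1 + (m + 1 + 1) * (m + 1 + 2) / 2 := by
      have h3 : (m + 1 + 1) * (m + 1 + 2) = (m + 1) * (m + 2) + 2 * (m + 2) := by ring
      rw [h3, Nat.add_mul_div_left _ _ (by norm_num : 0 < 2)]
      omega
    rwa [e2] at h2

end Pool.Agent.PWU
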