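import Pool.Agent.Lib.MP_315eb0_co.StepCount

/-!
The induction step.
-/

set_option autoImplicit false

namespace Pool.Agent.PWU

open Finset

variable {V : Type*} [DecidableEq V]

theorem good_nonempty {Ω : Type*} [Finite Ω] [Nonempty Ω] {κ : ℕ} {B : ℕ → Finset V}
    {w : Ω → List ℕ} {x y : ℕ} (h : Good κ B w x y) : ∃ ω, EmbIn B (w ω) x y := by
  have h1 : 0 < Nat.card Ω := Nat.card_pos
  have h2 : 0 < κ * (embSet B w x y).ncard := lt_of_lt_of_le h1 h.2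
  have h3 : (embSet B w x y).ncard ≠ 0 := by
    intro h0
    rw [h0] at h2
    simp at h2
  obtain ⟨ω, hω⟩ := Set.nonempty_of_ncard_ne_zero h3
  exact ⟨ω, hω⟩

theorem embIn_witness {B : ℕ → Finset V} {w : List ℕ} {x y : ℕ} (hxy : x ≤ y) (hw : w ≠ [])
    (h : EmbIn B w x y) : ∃ v, ∃ s s', x ≤ s ∧ s ≤ y ∧ x ≤ s' ∧ s' ≤ y ∧ v ∈ B s ∧ v ∉ B s' := by
  obtain ⟨φ, θ, h1, h2, h3⟩ := h
  have hlen : 0 < w.length := List.length_pos_iff.mpr hw
  have h4 := h2 0 hlen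
  have h5 := h3 0 hlen
  rw [mem_inter, not_and_or] at h5
  rcases h5 with h5 | h5
  · exact ⟨φ 0, θ 0, x, h4.1, h4.2, le_rfl, hxy, h1.self_mem hlen, h5⟩
  · exact ⟨φ 0, θ 0, y, h4.1, h4.2, hxy, le_rfl, h1.self_mem hlen, h5⟩

theorem greedy_card [Fintype V] {Ω : Type*} [Finite Ω] [Nonempty Ω] {κ : ℕ}
    {B : ℕ → Finset V} (hB : Iv B) {w : Ω → List ℕ} (hw : ∀ ω, w ω ≠ []) {P : Finset ℕ}
    (hP : ∀ p ∈ P, ∀ p' ∈ P, p < p' → Good κ B w (p + 1) p') :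
    P.card ≤ 2 * Fintype.card V + 1 := by
  apply card_greedy_le hB
  intro p hp p' hp' hlt
  have h1 := hP p hp p' hp' hlt
  obtain ⟨ω, hω⟩ := good_nonempty h1
  obtain ⟨v, s, s', g1, g2, g3, g4, g5, g6⟩ := embIn_witness h1.1 (hw ω) hω
  exact ⟨v, s, s', by omega, g2, by omega, g4, g5, g6⟩

theorem pin_count {P Q : Finset ℕ} {Γ y z L' M D x X : ℕ} (hz : 1 ≤ z) (hy : 4 * Γ + L' < y)
    (hM : M = 2 * 10 ^ (2 * D)) (hX : X = 2 * D * x) (hx : 1 ≤ x) :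
    (⋃ l0 ∈ Finset.range (Q.card + 1),
      PathSet (nbr 2) (Est P Q Γ y z L' M) X (x - 1) l0).ncard * 2 ^ (x - 1) ≤
      ((Q.card + 1) * 10 ^ (2 * D)) * M ^ X := by
  classical
  have h1 : ∀ l0, (PathSet (nbr 2) (Est P Q Γ y z L' M) X (x - 1) l0).ncard * 2 ^ (x - 1) ≤
      10 ^ (2 * D) * M ^ X := by
    intro l0
    have h2 := card_pathSet (nbr 2) 5 (fun l => by have := nbr_card 2 l; omega)
      (Est P Q Γ y z L' M) M (fun l l' => by
        have := Est_card (P := P) (Q := Q) (M := M) hz hy l l'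
        rw [Fintype.card_fin]
        calc M * (Est P Q Γ y z L' M l l').card ≤ M * 1 := Nat.mul_le_mul le_rfl this
          _ = M := by ring) X (x - 1) l0
    rw [Fintype.card_fin] at h2
    obtain ⟨x', rfl⟩ : ∃ x', x = x' + 1 := ⟨x - 1, by omega⟩
    simp only [Nat.add_sub_cancel] at h2 ⊢
    have hpos : 0 < 10 ^ (2 * D * x') := by positivity
    apply Nat.le_of_mul_le_mul_left _ hpos
    calc 10 ^ (2 * D * x') * ((PathSet (nbr 2) (Est P Q Γ y z L' M) X x' l0).ncard * 2 ^ x')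
        = (2 * 10 ^ (2 * D)) ^ x' *
          (PathSet (nbr 2) (Est P Q Γ y z L' M) X x' l0).ncard := by
          rw [mul_pow, ← pow_mul]; ring
      _ = M ^ x' * (PathSet (nbr 2) (Est P Q Γ y z L' M) X x' l0).ncard := by rw [hM]
      _ ≤ (2 * 5 * M) ^ X := h2
      _ = 10 ^ X * M ^ X := by rw [← mul_pow]
      _ = 10 ^ (2 * D * x') * (10 ^ (2 * D) * M ^ X) := by
          have : (10 : ℕ) ^ X = 10 ^ (2 * D * x') * 10 ^ (2 * D) := by
            rw [hX, ← pow_add]; congr 1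
          rw [this]; ring
  calc (⋃ l0 ∈ Finset.range (Q.card + 1),
      PathSet (nbr 2) (Est P Q Γ y z L' M) X (x - 1) l0).ncard * 2 ^ (x - 1)
      ≤ (∑ l0 ∈ Finset.range (Q.card + 1),
        (PathSet (nbr 2) (Est P Q Γ y z L' M) X (x - 1) l0).ncard) * 2 ^ (x - 1) :=
        Nat.mul_le_mul (Finset.set_ncard_biUnion_le _ _) le_rfl
    _ = ∑ l0 ∈ Finset.range (Q.card + 1),
        (PathSet (nbr 2) (Est P Q Γ y z L' M) X (x - 1) l0).ncard * 2 ^ (x - 1) := by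
        rw [Finset.sum_mul]
    _ ≤ ∑ _l0 ∈ Finset.range (Q.card + 1), 10 ^ (2 * D) * M ^ X :=
        Finset.sum_le_sum (fun l0 _ => h1 l0)
    _ = ((Q.card + 1) * 10 ^ (2 * D)) * M ^ X := by
        rw [Finset.sum_const, card_range, smul_eq_mul]; ring

theorem one_step [Fintype V] {ΩA ΩH : Type} [Fintype ΩA] [Fintype ΩH] [Nonempty ΩA]
    [Nonempty ΩH] {B : ℕ → Finset V} (hB : Iv B) {D : ℕ} (hD : ∀ t, (B t).card ≤ D)
    (hD1 : 1 ≤ D) {i r ℓ : ℕ} (hir : i + 3 ≤ r) {wA : ΩA → List ℕ} {wH : ΩH → List ℕ}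
    (hletH : ∀ ω, ∀ l ∈ wH ω, i + 1 ≤ l ∧ l < r)
    (hlenA : ∀ ω, (wA ω).length ≤ ℓ) (hlenH : ∀ ω, (wH ω).length ≤ ℓ)
    (hneA : ∀ ω, wA ω ≠ []) (hneH : ∀ ω, wH ω ≠ [])
    {c z M X x y K0 Γ : ℕ} (hc : 16 * D ≤ c) (hz : z = 4 * D * y)
    (hΓ : Γ = c * (r - i + ℓ) + 2) (hy : 4 * Γ + (r - i + ℓ) < y)
    (hM : M = 2 * 10 ^ (2 * D)) (hx : 1 ≤ x) (hX : X = 2 * D * x)
    (hK : 4 * (2 * (r - i + ℓ) + 1) ≤ K0) (hN : 2 * Fintype.card V + 2 ≤ K0)
    (h1 : 4 * K0 ^ 2 * (X * K0) ≤ 2 ^ c) (h2 : 4 * K0 ^ 2 * (X * K0) ≤ 2 ^ z)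
    (h3 : 4 * K0 ^ 2 * (1 * (K0 * 10 ^ (2 * D))) ≤ 2 ^ (x - 1)) {a b : ℕ}
    (T1 : ∀ x y, a ≤ x → y ≤ b → Good (K0 ^ 2) B wH x y →
      ((B x ∩ B y) \ (B a ∩ B b)).card < r - i - 1)
    (T2 : ∀ x y, a ≤ x → y ≤ b → Good (K0 ^ 2) B wA x y →
      ∀ v ∈ B x ∩ B y, v ∈ B a ∩ B b)
    (hAH : ∀ x y, Good (K0 ^ 2) B wA x y → ∃ x' y', x ≤ x' ∧ y' ≤ y ∧
      Good (K0 ^ 2) B wH x' y') :
    ¬ Good (K0 ^ 2) B (bigWord i r wA wH : (Fin X → Blk ΩA ΩH c z M) → List ℕ) a b := by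
  classical
  intro hgood
  have hDpos : 0 < D := hD1
  have hypos : 1 ≤ y := by omega
  have hz1 : 1 ≤ z := by
    rw [hz]; exact Nat.mul_pos (by omega) hypos
  have hc1 : 1 ≤ c := by omega
  have hXpos : 0 < X := by
    rw [hX]; exact Nat.mul_pos (by omega) hx
  have hK0pos : 0 < K0 := by omega
  obtain ⟨P, hP1, hP2, hP3, -⟩ := exists_greedy (Good (K0 ^ 2) B wH) (fun x y h => h.1)
    (fun x y x' y' hx hy h => h.mono hB hx hy) a b
  obtain ⟨Q, hQ1, hQ2, hQ3, -⟩ := exists_greedy (Good (K0 ^ 2) B wA) (fun x y h => h.1)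
    (fun x y x' y' hx hy h => h.mono hB hx hy) a b
  have hPc := greedy_card hB hneH hP3
  have hQc := greedy_card hB hneA hQ3
  obtain ⟨FA, hFA1, hFA2⟩ := forced_travel hB hD hD1 (i := i) (r := r) (by omega) hlenA hK hQ2
    (Z := c) (v := 4) (by omega) (by omega)
  have hHex := fun e : Fin M => forced_travel hB hD hD1 (i := i + 1) (r := r) (by omega) hlenH
    (K0 := K0) (by omega) hP2 (Z := z ^ (e.1 + 1)) (v := y * z ^ e.1)
    (Nat.mul_pos hypos (Nat.pow_pos hz1)) (by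
      rw [pow_succ]
      apply le_of_eq
      calc 4 * D * (y * z ^ e.1) = z ^ e.1 * (4 * D * y) := by ring
        _ = z ^ e.1 * z := by rw [← hz])
  choose FH hFH1 hFH2 using hHex
  set FP : Set (Fin X → Fin M) := ⋃ l0 ∈ Finset.range (Q.card + 1),
      PathSet (nbr 2) (Est P Q Γ y z (r - i + ℓ) M) X (x - 1) l0 with hFP
  have hFPc := pin_count (P := P) (Q := Q) (Γ := Γ) (y := y) (z := z) (L' := r - i + ℓ) hz1
    (by omega) hM hX hx
  rw [← hFP] at hFPc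
  -- the three bad sets
  set S1 : Set (Fin X → Blk ΩA ΩH c z M) := {ω | ∃ s, ω s ∈ {x : Blk ΩA ΩH c z M | x.1 ∈ FA}}
    with hS1
  set S2 : Set (Fin X → Blk ΩA ΩH c z M) :=
    {ω | ∃ s, ω s ∈ {x : Blk ΩA ΩH c z M | x.2.2 x.2.1 ∈ FH x.2.1}} with hS2
  set S3 : Set (Fin X → Blk ΩA ΩH c z M) := {ω | (fun s => (ω s).2.1) ∈ FP} with hS3
  set C := Fintype.card (Fin X → Blk ΩA ΩH c z M) with hC
  have hCpos : 0 < C := by
    have : Nonempty (Fin M) := ⟨⟨0, by rw [hM]; positivity⟩⟩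
    exact Fintype.card_pos
  have hcov : embSet B (bigWord i r wA wH : (Fin X → Blk ΩA ΩH c z M) → List ℕ) a b ⊆
      S1 ∪ S2 ∪ S3 := by
    intro ω hω
    by_contra hcon
    rw [Set.mem_union, Set.mem_union, not_or, not_or] at hcon
    obtain ⟨⟨g1, g2⟩, g3⟩ := hcon
    obtain ⟨φ, θ, e1, e2, e3⟩ := hω
    have hPcov : ∀ p ∈ P, ∀ p' ∈ P, p < p' → ∃ x y, p < x ∧ x ≤ p' ∧ p < y ∧ y ≤ p' ∧
        ((B x ∩ B y) \ (B a ∩ B b)).card < r - i - 1 := by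
      intro p hp p' hp' hlt
      exact ⟨p + 1, p', by omega, by omega, by omega, le_rfl,
        T1 _ _ (by have := hP1 p hp; omega) (hP1 p' hp').2 (hP3 p hp p' hp' hlt)⟩
    have hQcov : ∀ p ∈ Q, ∀ p' ∈ Q, p < p' → ∃ x y, p < x ∧ x ≤ p' ∧ p < y ∧ y ≤ p' ∧
        ((B x ∩ B y) \ (B a ∩ B b)).card < r - i - 1 := by
      intro p hp p' hp' hlt
      obtain ⟨x', y', k1, k2, k3⟩ := hAH _ _ (hQ3 p hp p' hp' hlt)
      have k4 := k3.1
      have k5 := hQ1 p hp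
      have k6 := hQ1 p' hp'
      exact ⟨x', y', by omega, by omega, by omega, by omega, T1 _ _ (by omega) (by omega) k3⟩
    have hQJ : ∀ p ∈ Q, ∀ p' ∈ Q, p < p' → ∀ v ∈ B (p + 1) ∩ B p', v ∈ B a ∩ B b := by
      intro p hp p' hp' hlt
      exact T2 _ _ (by have := hQ1 p hp; omega) (hQ1 p' hp').2 (hQ3 p hp p' hp' hlt)
    obtain ⟨l0, hl0, hl1⟩ := det_step hB hD hD1 hir hletH hlenA hlenH (c := c) (z := z)
      (M := M) (X := X) (x := x) (y := y) hc1 hz1 hx hX (a := a) (b := b) (P := P) (Q := Q)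
      hΓ (by omega) hPcov hQcov hQJ (FA := FA) hFA2 (FH := FH) hFH2 ω
      (fun s hs => g1 ⟨s, hs⟩) (fun s hs => g2 ⟨s, hs⟩) e1 e2 e3
    apply g3
    rw [hS3, hFP]
    simp only [Set.mem_ofPred_eq, Set.mem_iUnion]
    exact ⟨l0, by rw [mem_range]; omega, hl1⟩
  -- the counts
  have hFinM : Nonempty (Fin M) := ⟨⟨0, by rw [hM]; positivity⟩⟩
  have hBlkN : Nonempty (Blk ΩA ΩH c z M) := inferInstance
  have n1 : S1.ncard * 2 ^ c ≤ X * ((Q.card + 1) * C) := by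
    apply ncard_coord_le
    apply badA_count
    rw [Fintype.card_fun, Fintype.card_fin]
    exact hFA1
  have n2 : S2.ncard * 2 ^ z ≤ X * ((P.card + 1) * C) := by
    apply ncard_coord_le
    apply badH_count
    intro e
    rw [Fintype.card_fun, Fintype.card_fin]
    refine le_trans ?_ (hFH1 e)
    apply Nat.mul_le_mul le_rfl
    apply Nat.pow_le_pow_right (by norm_num)
    calc z = z ^ 1 := (pow_one z).symm
      _ ≤ z ^ (e.1 + 1) := Nat.pow_le_pow_right hz1 (by omega)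
  have n3 : S3.ncard * 2 ^ (x - 1) ≤ 1 * (((Q.card + 1) * 10 ^ (2 * D)) * C) := by
    have g1 := ncard_mid (X := X) (A := Fin c → ΩA) (E := Fin M)
      (C := ∀ e : Fin M, Fin (z ^ (e.1 + 1)) → ΩH) FP
    rw [Fintype.card_fin] at g1
    have hMpos : 0 < M ^ X := by
      apply Nat.pow_pos
      rw [hM]; positivity
    apply Nat.le_of_mul_le_mul_right _ hMpos
    calc S3.ncard * 2 ^ (x - 1) * M ^ X = (S3.ncard * M ^ X) * 2 ^ (x - 1) := by ring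
      _ = (FP.ncard * C) * 2 ^ (x - 1) := by rw [← g1]
      _ = (FP.ncard * 2 ^ (x - 1)) * C := by ring
      _ ≤ (((Q.card + 1) * 10 ^ (2 * D)) * M ^ X) * C := Nat.mul_le_mul hFPc le_rfl
      _ = 1 * (((Q.card + 1) * 10 ^ (2 * D)) * C) * M ^ X := by ring
  have m1 : S1.ncard * (4 * K0 ^ 2) ≤ C := by
    apply arith1 n1 hXpos (by omega)
    refine le_trans ?_ h1
    apply Nat.mul_le_mul le_rfl
    apply Nat.mul_le_mul le_rfl
    omega
  have m2 : S2.ncard * (4 * K0 ^ 2) ≤ C := by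
    apply arith1 n2 hXpos (by omega)
    refine le_trans ?_ h2
    apply Nat.mul_le_mul le_rfl
    apply Nat.mul_le_mul le_rfl
    omega
  have m3 : S3.ncard * (4 * K0 ^ 2) ≤ C := by
    apply arith1 n3 one_pos (Nat.mul_pos (by omega) (by positivity))
    refine le_trans ?_ h3
    apply Nat.mul_le_mul le_rfl
    apply Nat.mul_le_mul le_rfl
    apply Nat.mul_le_mul _ le_rfl
    omega
  have hle : (embSet B (bigWord i r wA wH : (Fin X → Blk ΩA ΩH c z M) → List ℕ) a b).ncard ≤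
      S1.ncard + S2.ncard + S3.ncard := by
    refine (Set.ncard_le_ncard hcov (Set.toFinite _)).trans ?_
    refine (Set.ncard_union_le _ _).trans ?_
    exact Nat.add_le_add (Set.ncard_union_le _ _) le_rfl
  have hfin := final_arith hCpos hle m1 m2 m3
  apply hfin
  have := hgood.2
  rw [Nat.card_eq_fintype_card] at this
  exact this

end Pool.Agent.PWU
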