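import Pool.Agent.Lib.MP_315eb0_co.Greedy

/-!
Concatenations of pieces, the refreshing word, and the step property.
-/

set_option autoImplicit false

namespace Pool.Agent.PWU

open Finset

variable {V : Type*}

/-- the word that refreshes the registers `i, ..., r-1`. -/
def refr (i r : ℕ) : List ℕ := List.range' i (r - i)

theorem refr_length (i r : ℕ) : (refr i r).length = r - i := by simp [refr]

theorem refr_get {i r a : ℕ} (h1 : i ≤ a) (h2 : a < r) : (refr i r)[a - i]? = some a := by
  unfold refr
  rw [List.getElem?_range' (by omega)]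
  congr 1; omega

theorem refr_mem {i r a : ℕ} (h : a ∈ refr i r) : i ≤ a ∧ a < r := by
  unfold refr at h
  rw [List.mem_range'_1] at h
  omega

/-- concatenation of `Z` words. -/
def cat (u : ℕ → List ℕ) (Z : ℕ) : List ℕ := (List.range Z).flatMap u

@[simp] theorem cat_zero (u : ℕ → List ℕ) : cat u 0 = [] := by simp [cat]

theorem cat_succ (u : ℕ → List ℕ) (Z : ℕ) : cat u (Z + 1) = cat u Z ++ u Z := by
  simp [cat, List.range_succ]

theorem cat_split (u : ℕ → List ℕ) {s : ℕ} : ∀ {Z : ℕ}, s < Z →
    ∃ rest, cat u Z = cat u s ++ u s ++ rest := by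
  intro Z
  induction Z with
  | zero => intro h; omega
  | succ Z ih =>
    intro h
    rcases Nat.lt_or_ge s Z with hs | hs
    · obtain ⟨rest, hr⟩ := ih hs
      exact ⟨rest ++ u Z, by rw [cat_succ, hr]; simp⟩
    · have : s = Z := by omega
      subst this
      exact ⟨[], by rw [cat_succ]; simp⟩

theorem cat_length_succ (u : ℕ → List ℕ) (s : ℕ) :
    (cat u (s + 1)).length = (cat u s).length + (u s).length := by
  rw [cat_succ, List.length_append]

theorem cat_length_mono (u : ℕ → List ℕ) {s t : ℕ} (h : s ≤ t) :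
    (cat u s).length ≤ (cat u t).length := by
  induction t with
  | zero => have : s = 0 := by omega
            subst this; exact le_rfl
  | succ t ih =>
    rcases Nat.lt_or_ge t s with h1 | h1
    · have : s = t + 1 := by omega
      subst this; exact le_rfl
    · rw [cat_length_succ]
      have := ih h1
      omega

theorem cat_congr {u u' : ℕ → List ℕ} {Z : ℕ} (h : ∀ s, s < Z → u s = u' s) :
    cat u Z = cat u' Z := by
  induction Z with
  | zero => simp
  | succ Z ih => rw [cat_succ, cat_succ, ih (fun s hs => h s (by omega)), h Z (by omega)]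

theorem cat_length_le {u : ℕ → List ℕ} {Z m : ℕ} (h : ∀ s, s < Z → (u s).length ≤ m) :
    (cat u Z).length ≤ Z * m := by
  induction Z with
  | zero => simp
  | succ Z ih =>
    rw [cat_length_succ]
    have h1 := ih (fun s hs => h s (by omega))
    have h2 := h Z (by omega)
    calc (cat u Z).length + (u Z).length ≤ Z * m + m := Nat.add_le_add h1 h2
      _ = (Z + 1) * m := by ring

theorem mem_cat {u : ℕ → List ℕ} {Z a : ℕ} (h : a ∈ cat u Z) : ∃ s, s < Z ∧ a ∈ u s := by
  unfold cat at h
  rw [List.mem_flatMap] at h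
  obtain ⟨s, hs, ha⟩ := h
  exact ⟨s, List.mem_range.mp hs, ha⟩

/-- the step property: an active letter which is not replaced lies in two consecutive bags. -/
theorem IsEmb.step {B : ℕ → Finset V} {w : List ℕ} {φ : ℕ → V} {θ : ℕ → ℕ}
    (h : IsEmb B w φ θ) {q a p : ℕ} (hq : q + 1 < w.length) (hp : p ≤ q) (ha : w[p]? = some a)
    (ha' : w[q + 1]? ≠ some a) :
    φ (lastOcc w a q) ∈ B (θ q) ∧ φ (lastOcc w a q) ∈ B (θ (q + 1)) :=
  ⟨h.mem _ _ (by omega) (lastOcc_active hp ha), h.mem _ _ hq (lastOcc_active_succ hp ha ha')⟩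

theorem getElem_append_of_left {u w : List ℕ} {p a : ℕ} (h : u[p]? = some a) :
    (u ++ w)[p]? = some a := by
  have hp : p < u.length := by
    by_contra hcon
    rw [List.getElem?_eq_none (by omega)] at h
    simp at h
  rw [List.getElem?_append_left hp, h]

/-- inside a piece, every time in the hull is in a bag which contains a vertex of the piece. -/
theorem hull_vertex {B : ℕ → Finset V} (hB : Iv B) {i r : ℕ} {w : List ℕ} (hir : i + 2 ≤ r)
    {φ : ℕ → V} {θ : ℕ → ℕ} (h : IsEmb B (refr i r ++ w) φ θ) {q1 q2 x : ℕ}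
    (h1 : r - i - 1 ≤ q1) (h1' : q1 < (refr i r ++ w).length)
    (h2 : r - i - 1 ≤ q2) (h2' : q2 < (refr i r ++ w).length)
    (hx1 : θ q1 ≤ x) (hx2 : x ≤ θ q2) : ∃ p, p < (refr i r ++ w).length ∧ φ p ∈ B x := by
  have h3 : q1 ≤ (refr i r ++ w).length - 1 := by omega
  have h4 : q2 ≤ (refr i r ++ w).length - 1 := by omega
  rcases ivt_gen h1 h2 h3 h4 hx1 hx2 with ⟨q, hq1, hq2, hq3⟩ | ⟨q, hq1, hq2, hq3⟩
  · refine ⟨q, by omega, ?_⟩
    rw [← hq3]
    exact h.self_mem (by omega)
  · -- choose a letter which is not replaced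
    obtain ⟨a, ha1, ha2, ha3⟩ : ∃ a, i ≤ a ∧ a < i + 2 ∧
        (refr i r ++ w)[q + 1]? ≠ some a := by
      by_cases hc : (refr i r ++ w)[q + 1]? = some i
      · refine ⟨i + 1, by omega, by omega, ?_⟩
        rw [hc]
        intro h5
        have := Option.some_injective _ h5
        omega
      · exact ⟨i, le_rfl, by omega, hc⟩
    have hocc : (refr i r ++ w)[a - i]? = some a :=
      getElem_append_of_left (refr_get ha1 (by omega))
    have hst := h.step (q := q) (by omega) (p := a - i) (by omega) hocc ha3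
    refine ⟨lastOcc (refr i r ++ w) a q, ?_, hB.mem_btw hst.1 hst.2 hq3⟩
    have := lastOcc_le (refr i r ++ w) a q
    omega

end Pool.Agent.PWU
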