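import Pool.Agent.Lib.MP_315eb0_co.Forced

/-!
Regions between consecutive points of `Q`, heavy regions (those which contain many points of
`P`), and the two lemmas on crossing heavy regions.
-/

set_option autoImplicit false

namespace Pool.Agent.PWU

open Finset

theorem cnt_zero (Q : Finset ℕ) : cnt Q 0 = 0 := by simp [cnt]

theorem cnt_succ_le (Q : Finset ℕ) (t : ℕ) : cnt Q (t + 1) ≤ cnt Q t + 1 := by
  have h1 : Q.filter (· < t + 1) ⊆ insert t (Q.filter (· < t)) := by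
    intro x hx
    simp only [mem_filter, mem_insert] at hx ⊢
    by_cases h : x = t
    · exact Or.inl h
    · exact Or.inr ⟨hx.1, by omega⟩
  exact (card_le_card h1).trans (card_insert_le _ _)

/-- number of points of `P` in the region `h` of `Q`. -/
def mass (P Q : Finset ℕ) (h : ℕ) : ℕ := (P.filter (fun p => cnt Q p = h)).card

/-- number of heavy regions before the region `g`. -/
noncomputable def rk (P Q : Finset ℕ) (Γ g : ℕ) : ℕ :=
  ((Finset.range g).filter (fun h => Γ ≤ mass P Q h)).card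

variable {P Q : Finset ℕ} {Γ : ℕ}

theorem rk_mono {g g' : ℕ} (h : g ≤ g') : rk P Q Γ g ≤ rk P Q Γ g' := by
  apply card_le_card
  intro x hx
  simp only [mem_filter, mem_range] at hx ⊢
  exact ⟨by omega, hx.2⟩

theorem rk_le (g : ℕ) : rk P Q Γ g ≤ g := by
  refine (card_filter_le _ _).trans ?_
  rw [card_range]

theorem rk_succ_of_high {g : ℕ} (h : Γ ≤ mass P Q g) : rk P Q Γ (g + 1) = rk P Q Γ g + 1 := by
  unfold rk
  rw [Finset.range_add_one, filter_insert, if_pos h, card_insert_of_notMem]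
  simp

theorem rk_succ_of_low {g : ℕ} (h : ¬ Γ ≤ mass P Q g) : rk P Q Γ (g + 1) = rk P Q Γ g := by
  unfold rk
  rw [Finset.range_add_one, filter_insert, if_neg h]

theorem rk_succ_le (g : ℕ) : rk P Q Γ (g + 1) ≤ rk P Q Γ g + 1 := by
  by_cases h : Γ ≤ mass P Q g
  · rw [rk_succ_of_high h]
  · rw [rk_succ_of_low h]; omega

theorem rk_add_le (g : ℕ) : ∀ d, rk P Q Γ (g + d) ≤ rk P Q Γ g + d := by
  intro d
  induction d with
  | zero => simp
  | succ d ih =>
    have := rk_succ_le (P := P) (Q := Q) (Γ := Γ) (g + d)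
    have e : g + (d + 1) = g + d + 1 := by ring
    rw [e]; omega

theorem rk_eq_of_low {g : ℕ} : ∀ {g' : ℕ}, g < g' → (∀ h, g < h → h < g' → ¬ Γ ≤ mass P Q h) →
    rk P Q Γ g' = rk P Q Γ (g + 1) := by
  intro g'
  induction g' with
  | zero => intro h; omega
  | succ g' ih =>
    intro h hl
    rcases Nat.lt_or_ge g g' with h1 | h1
    · rw [rk_succ_of_low (hl g' h1 (by omega)), ih h1 (fun x hx hx' => hl x hx (by omega))]
    · have : g = g' := by omega
      subst this; rfl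

theorem lt_of_rk_lt {g g' : ℕ} (h : rk P Q Γ g < rk P Q Γ g') : g < g' := by
  by_contra hc
  have := rk_mono (P := P) (Q := Q) (Γ := Γ) (not_lt.mp hc)
  omega

/-- number of points of `P` in the heavy regions of rank between `c` and `c'`. -/
noncomputable def gap (P Q : Finset ℕ) (Γ c c' : ℕ) : ℕ :=
  (P.filter (fun p => Γ ≤ mass P Q (cnt Q p) ∧ min c c' ≤ rk P Q Γ (cnt Q p) ∧
    rk P Q Γ (cnt Q p) < max c c')).card

theorem gap_comm (c c' : ℕ) : gap P Q Γ c c' = gap P Q Γ c' c := by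
  unfold gap
  rw [min_comm, max_comm]

/-- heavy regions of equal rank are equal. -/
theorem high_unique {h h' : ℕ} (h1 : Γ ≤ mass P Q h) (h2 : Γ ≤ mass P Q h')
    (h3 : rk P Q Γ h = rk P Q Γ h') : h = h' := by
  rcases Nat.lt_trichotomy h h' with h4 | h4 | h4
  · have h5 := rk_succ_of_high h1
    have h6 := rk_mono (P := P) (Q := Q) (Γ := Γ) (show h + 1 ≤ h' by omega)
    omega
  · exact h4
  · have h5 := rk_succ_of_high h2
    have h6 := rk_mono (P := P) (Q := Q) (Γ := Γ) (show h' + 1 ≤ h by omega)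
    omega

/-- the crossing lemma. -/
theorem cross {tx1 ty1 tx2 ty2 tj1 tj2 : ℕ}
    (h1 : cnt Q tx1 + 4 ≤ cnt Q ty1) (h2 : cnt Q tx2 + 4 ≤ cnt Q ty2)
    (hl1 : ∀ h, cnt Q tx1 < h → h < cnt Q ty1 → ¬ Γ ≤ mass P Q h)
    (hl2 : ∀ h, cnt Q tx2 < h → h < cnt Q ty2 → ¬ Γ ≤ mass P Q h)
    (hj : cnt Q tj2 ≤ cnt Q tj1 + 1) (ha : cnt Q tj1 ≤ cnt Q ty1)
    (hb : cnt Q tx2 ≤ cnt Q tj2)
    (hlt : rk P Q Γ (cnt Q ty1) < rk P Q Γ (cnt Q ty2)) (hjj : tj1 ≤ tj2) :
    rk P Q Γ (cnt Q ty2) ≤ rk P Q Γ (cnt Q ty1) + 2 ∧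
    gap P Q Γ (rk P Q Γ (cnt Q ty1)) (rk P Q Γ (cnt Q ty2)) + cnt P tx1 ≤ cnt P ty2 ∧
    cnt P tj2 ≤ cnt P tj1 +
      gap P Q Γ (rk P Q Γ (cnt Q ty1)) (rk P Q Γ (cnt Q ty2)) + 2 * Γ := by
  have e2 : rk P Q Γ (cnt Q ty2) = rk P Q Γ (cnt Q tx2 + 1) := rk_eq_of_low (by omega) hl2
  have hle : cnt Q ty1 ≤ cnt Q tx2 := by
    rw [e2] at hlt
    have := lt_of_rk_lt hlt
    omega
  have hle2 : cnt Q tx2 ≤ cnt Q ty1 + 1 := by omega
  refine ⟨?_, ?_, ?_⟩
  · rw [e2]
    have h3 := rk_add_le (P := P) (Q := Q) (Γ := Γ) (cnt Q ty1) 2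
    have h4 := rk_mono (P := P) (Q := Q) (Γ := Γ) (show cnt Q tx2 + 1 ≤ cnt Q ty1 + 2 by omega)
    omega
  · have htt : tx1 ≤ ty2 := by
      have : cnt Q tx1 < cnt Q ty2 := by omega
      exact le_of_lt (lt_of_cnt_lt this)
    rw [cnt_add P htt]
    have : gap P Q Γ (rk P Q Γ (cnt Q ty1)) (rk P Q Γ (cnt Q ty2)) ≤
        (P.filter (fun p => tx1 ≤ p ∧ p < ty2)).card := by
      apply card_le_card
      intro p hp
      simp only [mem_filter] at hp ⊢
      obtain ⟨hpP, hp1, hp2, hp3⟩ := hp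
      rw [min_eq_left (le_of_lt hlt)] at hp2
      rw [max_eq_right (le_of_lt hlt), e2] at hp3
      refine ⟨hpP, ?_, ?_⟩
      · have h5 : cnt Q ty1 ≤ cnt Q p := by
          by_contra hc
          have h6 := rk_succ_of_high hp1
          have h7 := rk_mono (P := P) (Q := Q) (Γ := Γ) (show cnt Q p + 1 ≤ cnt Q ty1 by omega)
          omega
        exact le_of_lt (lt_of_cnt_lt (P := Q) (by omega))
      · have h5 : cnt Q p < cnt Q tx2 + 1 := lt_of_rk_lt hp3
        exact lt_of_cnt_lt (P := Q) (by omega)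
    omega
  · rw [cnt_add P hjj]
    have hsub : P.filter (fun p => tj1 ≤ p ∧ p < tj2) ⊆
        (P.filter (fun p => Γ ≤ mass P Q (cnt Q p) ∧
          min (rk P Q Γ (cnt Q ty1)) (rk P Q Γ (cnt Q ty2)) ≤ rk P Q Γ (cnt Q p) ∧
          rk P Q Γ (cnt Q p) < max (rk P Q Γ (cnt Q ty1)) (rk P Q Γ (cnt Q ty2)))) ∪
        ((P.filter (fun p => cnt Q p = cnt Q tj1 ∧ ¬ Γ ≤ mass P Q (cnt Q tj1))) ∪
        (P.filter (fun p => cnt Q p = cnt Q tj1 + 1 ∧ ¬ Γ ≤ mass P Q (cnt Q tj1 + 1)))) := by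
      intro p hp
      simp only [mem_filter, mem_union] at hp ⊢
      obtain ⟨hpP, hp1, hp2⟩ := hp
      have hq1 := cnt_mono Q hp1
      have hq2 := cnt_mono Q (le_of_lt hp2)
      by_cases hh : Γ ≤ mass P Q (cnt Q p)
      · left
        refine ⟨hpP, hh, ?_, ?_⟩
        · rw [min_eq_left (le_of_lt hlt)]
          apply rk_mono
          by_contra hc
          exact hl1 (cnt Q p) (by omega) (by omega) hh
        · rw [max_eq_right (le_of_lt hlt), e2]
          have h5 : cnt Q p ≤ cnt Q tx2 := by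
            by_contra hc
            exact hl2 (cnt Q p) (by omega) (by omega) hh
          have h6 := rk_succ_of_high hh
          have h7 := rk_mono (P := P) (Q := Q) (Γ := Γ) (show cnt Q p + 1 ≤ cnt Q tx2 + 1 by omega)
          omega
      · right
        rcases Nat.lt_or_ge (cnt Q tj1) (cnt Q p) with h5 | h5
        · right
          have : cnt Q p = cnt Q tj1 + 1 := by omega
          refine ⟨hpP, this, ?_⟩
          rw [← this]; exact hh
        · left
          have : cnt Q p = cnt Q tj1 := by omega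
          refine ⟨hpP, this, ?_⟩
          rw [← this]; exact hh
    have hlow : ∀ h, (P.filter (fun p => cnt Q p = h ∧ ¬ Γ ≤ mass P Q h)).card ≤ Γ := by
      intro h
      by_cases hh : Γ ≤ mass P Q h
      · have : P.filter (fun p => cnt Q p = h ∧ ¬ Γ ≤ mass P Q h) = ∅ := by
          ext x; simp [hh]
        rw [this]; simp
      · refine le_trans ?_ (le_of_lt (not_le.mp hh))
        apply card_le_card
        intro x hx
        simp only [mem_filter] at hx ⊢
        exact ⟨hx.1, hx.2.1⟩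
    have h8 := card_le_card hsub
    have h9 := card_union_le (P.filter (fun p => Γ ≤ mass P Q (cnt Q p) ∧
          min (rk P Q Γ (cnt Q ty1)) (rk P Q Γ (cnt Q ty2)) ≤ rk P Q Γ (cnt Q p) ∧
          rk P Q Γ (cnt Q p) < max (rk P Q Γ (cnt Q ty1)) (rk P Q Γ (cnt Q ty2))))
        ((P.filter (fun p => cnt Q p = cnt Q tj1 ∧ ¬ Γ ≤ mass P Q (cnt Q tj1))) ∪
        (P.filter (fun p => cnt Q p = cnt Q tj1 + 1 ∧ ¬ Γ ≤ mass P Q (cnt Q tj1 + 1))))
    have h10 := card_union_le (P.filter (fun p => cnt Q p = cnt Q tj1 ∧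
        ¬ Γ ≤ mass P Q (cnt Q tj1)))
        (P.filter (fun p => cnt Q p = cnt Q tj1 + 1 ∧ ¬ Γ ≤ mass P Q (cnt Q tj1 + 1)))
    have h11 := hlow (cnt Q tj1)
    have h12 := hlow (cnt Q tj1 + 1)
    have h13 : (P.filter (fun p => Γ ≤ mass P Q (cnt Q p) ∧
          min (rk P Q Γ (cnt Q ty1)) (rk P Q Γ (cnt Q ty2)) ≤ rk P Q Γ (cnt Q p) ∧
          rk P Q Γ (cnt Q p) < max (rk P Q Γ (cnt Q ty1)) (rk P Q Γ (cnt Q ty2)))).card =
        gap P Q Γ (rk P Q Γ (cnt Q ty1)) (rk P Q Γ (cnt Q ty2)) := rfl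
    omega

/-- the predicate describing the first test time for the rank `c`. -/
def TestA (P Q : Finset ℕ) (Γ c t : ℕ) : Prop :=
  ∃ h, Γ ≤ mass P Q h ∧ rk P Q Γ h = c ∧ cnt Q t + 2 = h

/-- the predicate describing the second test time for the rank `c`. -/
def TestB (P Q : Finset ℕ) (Γ c t : ℕ) : Prop :=
  ∃ h, Γ ≤ mass P Q h ∧ rk P Q Γ h + 1 = c ∧ cnt Q t = h + 2

theorem exists_cnt_eq {tx ty l : ℕ} (h : cnt Q tx ≤ l) (h' : l ≤ cnt Q ty) :
    ∃ t, cnt Q t = l := by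
  have hxy : tx ≤ ty ∨ cnt Q tx = l := by
    rcases Nat.lt_or_ge (cnt Q tx) (cnt Q ty) with h1 | h1
    · exact Or.inl (le_of_lt (lt_of_cnt_lt h1))
    · exact Or.inr (by omega)
  rcases hxy with hxy | hxy
  · rcases ivt (θ := cnt Q) hxy h h' with h1 | ⟨q, _, _, h1, h2⟩
    · exact ⟨tx, h1⟩
    · have := cnt_succ_le Q q
      rcases Nat.lt_or_ge (cnt Q q) l with h3 | h3
      · exact ⟨q + 1, by omega⟩
      · exact ⟨q, by omega⟩
  · exact ⟨tx, hxy⟩

/-- the multiplicity lemma: an `A`-run next to a `J`-block contains a test time. -/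
theorem mult {tx ty tj1 tj2 : ℕ} (h1 : cnt Q tx + 4 ≤ cnt Q ty)
    (hl : ∀ h, cnt Q tx < h → h < cnt Q ty → ¬ Γ ≤ mass P Q h)
    (hj : cnt Q tj2 ≤ cnt Q tj1 + 1) (ha : cnt Q tj1 ≤ cnt Q ty)
    (hb : cnt Q tx ≤ cnt Q tj2) (hjj : tj1 ≤ tj2)
    (hm : cnt P tj1 + 2 * Γ ≤ cnt P tj2) :
    ((∃ t, TestA P Q Γ (rk P Q Γ (cnt Q ty)) t) ∧
      ∀ t, TestA P Q Γ (rk P Q Γ (cnt Q ty)) t → tx ≤ t ∧ t ≤ ty) ∨
    ((∃ t, TestB P Q Γ (rk P Q Γ (cnt Q ty)) t) ∧
      ∀ t, TestB P Q Γ (rk P Q Γ (cnt Q ty)) t → tx ≤ t ∧ t ≤ ty) := by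
  -- a heavy region met by the J-block
  have hex : ∃ h, cnt Q tj1 ≤ h ∧ h ≤ cnt Q tj2 ∧ Γ ≤ mass P Q h := by
    by_contra hcon
    push Not at hcon
    have hsub : P.filter (fun p => tj1 ≤ p ∧ p < tj2) ⊆
        (P.filter (fun p => cnt Q p = cnt Q tj1)) ∪
        (P.filter (fun p => cnt Q p = cnt Q tj2)) := by
      intro p hp
      simp only [mem_filter, mem_union] at hp ⊢
      obtain ⟨hpP, hp1, hp2⟩ := hp
      have hq1 := cnt_mono Q hp1
      have hq2 := cnt_mono Q (le_of_lt hp2)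
      rcases Nat.lt_or_ge (cnt Q tj1) (cnt Q p) with h5 | h5
      · right; exact ⟨hpP, by omega⟩
      · left; exact ⟨hpP, by omega⟩
    have h2 := card_le_card hsub
    have h3 := card_union_le (P.filter (fun p => cnt Q p = cnt Q tj1))
        (P.filter (fun p => cnt Q p = cnt Q tj2))
    have h4 := hcon (cnt Q tj1) le_rfl (cnt_mono Q hjj)
    have h5 := hcon (cnt Q tj2) (cnt_mono Q hjj) le_rfl
    have h6 := cnt_add P hjj
    unfold mass at h4 h5
    omega
  obtain ⟨h, hh1, hh2, hh3⟩ := hex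
  have e : rk P Q Γ (cnt Q ty) = rk P Q Γ (cnt Q tx + 1) := rk_eq_of_low (by omega) hl
  rcases Nat.lt_or_ge h (cnt Q ty) with hlt | hge
  · right
    have hle : h ≤ cnt Q tx := by
      by_contra hc
      exact hl h (by omega) hlt hh3
    -- maximal heavy region below
    have hmax : ∃ h', h' ≤ cnt Q tx ∧ h ≤ h' ∧ Γ ≤ mass P Q h' ∧
        rk P Q Γ h' + 1 = rk P Q Γ (cnt Q ty) := by
      have hne : ((Finset.range (cnt Q tx + 1)).filter (fun g => Γ ≤ mass P Q g)).Nonempty :=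
        ⟨h, by rw [mem_filter, mem_range]; exact ⟨by omega, hh3⟩⟩
      have hmem := Finset.max'_mem _ hne
      have hge : ∀ g ∈ (Finset.range (cnt Q tx + 1)).filter (fun g => Γ ≤ mass P Q g),
          g ≤ Finset.max' _ hne := fun g hg => Finset.le_max' _ g hg
      set h' := Finset.max' _ hne with hh'
      rw [mem_filter, mem_range] at hmem
      refine ⟨h', by omega, ?_, hmem.2, ?_⟩
      · exact hge h (by rw [mem_filter, mem_range]; exact ⟨by omega, hh3⟩)
      · rw [← rk_succ_of_high hmem.2, e]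
        symm
        apply rk_eq_of_low (by omega)
        intro g hg1 hg2 hg3
        have := hge g (by rw [mem_filter, mem_range]; exact ⟨by omega, hg3⟩)
        omega
    obtain ⟨h', h'1, h'2, h'3, h'4⟩ := hmax
    refine ⟨?_, ?_⟩
    · obtain ⟨t, ht⟩ := exists_cnt_eq (Q := Q) (tx := tx) (ty := ty) (l := h' + 2) (by omega)
        (by omega)
      exact ⟨t, h', h'3, h'4, ht⟩
    · rintro t ⟨g, hg1, hg2, hg3⟩
      have : g = h' := high_unique hg1 h'3 (by omega)
      subst this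
      exact ⟨le_of_lt (lt_of_cnt_lt (P := Q) (by omega)),
        le_of_lt (lt_of_cnt_lt (P := Q) (by omega))⟩
  · left
    have hmin : ∃ h', cnt Q ty ≤ h' ∧ h' ≤ h ∧ Γ ≤ mass P Q h' ∧
        rk P Q Γ h' = rk P Q Γ (cnt Q ty) := by
      have hne : ((Finset.Icc (cnt Q ty) h).filter (fun g => Γ ≤ mass P Q g)).Nonempty :=
        ⟨h, by rw [mem_filter, mem_Icc]; exact ⟨⟨hge, le_rfl⟩, hh3⟩⟩
      have hmem := Finset.min'_mem _ hne
      have hle : ∀ g ∈ (Finset.Icc (cnt Q ty) h).filter (fun g => Γ ≤ mass P Q g),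
          Finset.min' _ hne ≤ g := fun g hg => Finset.min'_le _ g hg
      set h' := Finset.min' _ hne with hh'
      rw [mem_filter, mem_Icc] at hmem
      refine ⟨h', hmem.1.1, hmem.1.2, hmem.2, ?_⟩
      rcases Nat.eq_or_lt_of_le hmem.1.1 with h5 | h5
      · rw [← h5]
      · have h6 : rk P Q Γ h' = rk P Q Γ (cnt Q ty + 1) := by
          apply rk_eq_of_low h5
          intro g hg1 hg2 hg3
          have := hle g (by rw [mem_filter, mem_Icc]; exact ⟨⟨by omega, by omega⟩, hg3⟩)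
          omega
        rw [h6]
        apply rk_succ_of_low
        intro hg3
        have := hle (cnt Q ty) (by rw [mem_filter, mem_Icc]; exact ⟨⟨le_rfl, by omega⟩, hg3⟩)
        omega
    obtain ⟨h', h'1, h'2, h'3, h'4⟩ := hmin
    refine ⟨?_, ?_⟩
    · obtain ⟨t, ht⟩ := exists_cnt_eq (Q := Q) (tx := tx) (ty := ty) (l := h' - 2) (by omega)
        (by omega)
      exact ⟨t, h', h'3, h'4, by omega⟩
    · rintro t ⟨g, hg1, hg2, hg3⟩
      have : g = h' := high_unique hg1 h'3 (by omega)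
      subst this
      exact ⟨le_of_lt (lt_of_cnt_lt (P := Q) (by omega)),
        le_of_lt (lt_of_cnt_lt (P := Q) (by omega))⟩

end Pool.Agent.PWU
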