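import Pool.Agent.Lib.MP_315eb0_co.Big

/-!
The deterministic part of the induction step.
-/

set_option autoImplicit false

namespace Pool.Agent.PWU

open Finset

variable {V : Type*} [DecidableEq V]

theorem step_cover {B : ℕ → Finset V} (hB : Iv B) {W : List ℕ} {φ : ℕ → V} {θ : ℕ → ℕ}
    (hemb : IsEmb B W φ θ) {i r a b : ℕ}
    (hW : ∀ l, i ≤ l → l < r → W[l - i]? = some l)
    (havoid : ∀ q, q < W.length → φ q ∉ B a ∩ B b) {q x y : ℕ} (hq : r - i - 1 ≤ q)
    (hq' : q + 1 < W.length) (hx : Btw (θ q) x (θ (q + 1))) (hy : Btw (θ q) y (θ (q + 1))) :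
    r - i - 1 ≤ ((B x ∩ B y) \ (B a ∩ B b)).card := by
  classical
  set S := (Finset.Ico i r).filter (fun l => W[q + 1]? ≠ some l) with hS
  have hScard : r - i - 1 ≤ S.card := by
    have h1 := Finset.card_filter_add_card_filter_not (s := Finset.Ico i r)
      (fun l => W[q + 1]? ≠ some l)
    have h2 : ((Finset.Ico i r).filter (fun l => ¬ (W[q + 1]? ≠ some l))).card ≤ 1 := by
      rw [Finset.card_le_one]
      intro x hx y hy
      simp only [mem_filter, not_not] at hx hy
      have := hx.2.symm.trans hy.2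
      exact Option.some_injective _ this
    rw [Nat.card_Ico, ← hS] at h1
    omega
  refine hScard.trans ?_
  apply Finset.card_le_card_of_injOn (fun l => φ (lastOcc W l q))
  · intro l hl
    rw [hS, mem_coe, mem_filter, mem_Ico] at hl
    have hst := hemb.step (q := q) hq' (p := l - i) (by omega) (hW l hl.1.1 hl.1.2) hl.2
    rw [mem_coe, mem_sdiff, mem_inter]
    refine ⟨⟨hB.mem_btw hst.1 hst.2 hx, hB.mem_btw hst.1 hst.2 hy⟩, havoid _ ?_⟩
    have := lastOcc_le W l q
    omega
  · intro l hl l' hl' he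
    rw [hS, mem_coe, mem_filter, mem_Ico] at hl hl'
    have h1 := lastOcc_le W l q
    have h2 := lastOcc_le W l' q
    have h3 := hemb.inj _ _ (by omega) (by omega) he
    exact lastOcc_inj (p := l - i) (p' := l' - i) (by omega) (hW l hl.1.1 hl.1.2) (by omega)
      (hW l' hl'.1.1 hl'.1.2) h3

theorem lip_of_cover {B : ℕ → Finset V} (hB : Iv B) {W : List ℕ} {φ : ℕ → V} {θ : ℕ → ℕ}
    (hemb : IsEmb B W φ θ) {i r a b : ℕ}
    (hW : ∀ l, i ≤ l → l < r → W[l - i]? = some l)
    (havoid : ∀ q, q < W.length → φ q ∉ B a ∩ B b) {P : Finset ℕ}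
    (hP : ∀ p ∈ P, ∀ p' ∈ P, p < p' → ∃ x y, p < x ∧ x ≤ p' ∧ p < y ∧ y ≤ p' ∧
      ((B x ∩ B y) \ (B a ∩ B b)).card < r - i - 1) :
    Lip (fun q => cnt P (θ q)) (r - i - 1) (W.length - 1) := by
  intro q hq hq'
  constructor
  · by_contra hcon
    have hcon' : cnt P (θ q) + 1 < cnt P (θ (q + 1)) := not_le.mp hcon
    obtain ⟨p, hp, p', hp', h1, h2, h3⟩ := exists_two_of_cnt (P := P) (s := θ q)
      (t := θ (q + 1)) (by omega)
    obtain ⟨x, y, hx1, hx2, hy1, hy2, hc⟩ := hP p hp p' hp' h1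
    have := step_cover hB hemb hW havoid (q := q) (x := x) (y := y) hq (by omega)
      (Or.inl ⟨by omega, by omega⟩) (Or.inl ⟨by omega, by omega⟩)
    omega
  · by_contra hcon
    have hcon' : cnt P (θ (q + 1)) + 1 < cnt P (θ q) := not_le.mp hcon
    obtain ⟨p, hp, p', hp', h1, h2, h3⟩ := exists_two_of_cnt (P := P) (s := θ (q + 1))
      (t := θ q) (by omega)
    obtain ⟨x, y, hx1, hx2, hy1, hy2, hc⟩ := hP p hp p' hp' h1
    have := step_cover hB hemb hW havoid (q := q) (x := x) (y := y) hq (by omega)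
      (Or.inr ⟨by omega, by omega⟩) (Or.inr ⟨by omega, by omega⟩)
    omega

theorem exists_extreme (θ : ℕ → ℕ) {lo hi : ℕ} (h : lo ≤ hi) :
    (∃ x, lo ≤ x ∧ x ≤ hi ∧ ∀ q, lo ≤ q → q ≤ hi → θ x ≤ θ q) ∧
    (∃ x, lo ≤ x ∧ x ≤ hi ∧ ∀ q, lo ≤ q → q ≤ hi → θ q ≤ θ x) := by
  have hne : (Finset.Icc lo hi).Nonempty := ⟨lo, by rw [mem_Icc]; omega⟩
  constructor
  · obtain ⟨x, hx, hx'⟩ := Finset.exists_min_image (Finset.Icc lo hi) θ hne
    rw [mem_Icc] at hx
    exact ⟨x, hx.1, hx.2, fun q h1 h2 => hx' q (by rw [mem_Icc]; exact ⟨h1, h2⟩)⟩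
  · obtain ⟨x, hx, hx'⟩ := Finset.exists_max_image (Finset.Icc lo hi) θ hne
    rw [mem_Icc] at hx
    exact ⟨x, hx.1, hx.2, fun q h1 h2 => hx' q (by rw [mem_Icc]; exact ⟨h1, h2⟩)⟩

/-- number of values is at most the number of changes plus one. -/
theorem card_image_le_changes (l : ℕ → ℕ) : ∀ X : ℕ,
    ((Finset.range (X + 1)).image l).card ≤
      ((Finset.range X).filter (fun s => l s ≠ l (s + 1))).card + 1 := by
  intro X
  induction X with
  | zero => simp
  | succ X ih =>
    have h1 : (Finset.range (X + 1 + 1)).image l =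
        insert (l (X + 1)) ((Finset.range (X + 1)).image l) := by
      rw [Finset.range_add_one, image_insert]
    rw [h1]
    by_cases h : l X = l (X + 1)
    · have h2 : insert (l (X + 1)) ((Finset.range (X + 1)).image l) =
          (Finset.range (X + 1)).image l := by
        apply insert_eq_of_mem
        rw [mem_image]
        exact ⟨X, by simp, h⟩
      rw [h2]
      refine ih.trans (Nat.add_le_add ?_ le_rfl)
      apply card_le_card
      intro s hs
      simp only [mem_filter, mem_range] at hs ⊢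
      exact ⟨by omega, hs.2⟩
    · have h2 := card_insert_le (l (X + 1)) ((Finset.range (X + 1)).image l)
      have h3 : (Finset.range (X + 1)).filter (fun s => l s ≠ l (s + 1)) =
          insert X ((Finset.range X).filter (fun s => l s ≠ l (s + 1))) := by
        rw [Finset.range_add_one, filter_insert, if_pos h]
      have h4 : X ∉ (Finset.range X).filter (fun s => l s ≠ l (s + 1)) := by simp
      rw [h3, card_insert_of_notMem h4]
      omega

end Pool.Agent.PWU
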