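import Pool.Agent.Lib.MP_315eb0_co.Det

/-!
The counting part of the induction step.
-/

set_option autoImplicit false

namespace Pool.Agent.PWU

open Finset

theorem ncard_coord {J : Type*} [Fintype J] [DecidableEq J] {β : J → Type*}
    [∀ j, Fintype (β j)] (j0 : J) (F : Set (β j0)) :
    {f : ∀ j, β j | f j0 ∈ F}.ncard * Fintype.card (β j0) =
      F.ncard * Fintype.card (∀ j, β j) := by
  classical
  let e := Equiv.piSplitAt j0 β
  have h1 : {f : ∀ j, β j | f j0 ∈ F} = e.symm '' (F ×ˢ (Set.univ : Set _)) := by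
    ext f
    rw [Equiv.image_symm_eq_preimage]
    simp [e, Equiv.piSplitAt]
  rw [h1, Set.ncard_image_of_injective _ e.symm.injective, Set.ncard_prod, Set.ncard_univ,
    Nat.card_eq_fintype_card, Fintype.card_congr e, Fintype.card_prod]
  ring

theorem ncard_coord_le {X : ℕ} {Y : Type*} [Fintype Y] [Nonempty Y] (S : Set Y) {R U : ℕ}
    (h : S.ncard * R ≤ U * Fintype.card Y) :
    {ω : Fin X → Y | ∃ s, ω s ∈ S}.ncard * R ≤ X * (U * Fintype.card (Fin X → Y)) := by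
  classical
  have h1 : {ω : Fin X → Y | ∃ s, ω s ∈ S} = ⋃ s ∈ (Finset.univ : Finset (Fin X)),
      {ω : Fin X → Y | ω s ∈ S} := by
    ext ω; simp
  have h2 : {ω : Fin X → Y | ∃ s, ω s ∈ S}.ncard ≤
      ∑ s : Fin X, {ω : Fin X → Y | ω s ∈ S}.ncard := by
    rw [h1]; exact Finset.set_ncard_biUnion_le _ _
  have h3 : ∀ s : Fin X, {ω : Fin X → Y | ω s ∈ S}.ncard * R ≤
      U * Fintype.card (Fin X → Y) := by
    intro s
    have h4 := ncard_coord (β := fun _ : Fin X => Y) s S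
    have hpos : 0 < Fintype.card Y := Fintype.card_pos
    apply Nat.le_of_mul_le_mul_right _ hpos
    calc {ω : Fin X → Y | ω s ∈ S}.ncard * R * Fintype.card Y
        = ({ω : Fin X → Y | ω s ∈ S}.ncard * Fintype.card Y) * R := by ring
      _ = (S.ncard * R) * Fintype.card (Fin X → Y) := by rw [h4]; ring
      _ ≤ (U * Fintype.card Y) * Fintype.card (Fin X → Y) := Nat.mul_le_mul h le_rfl
      _ = U * Fintype.card (Fin X → Y) * Fintype.card Y := by ring
  calc {ω : Fin X → Y | ∃ s, ω s ∈ S}.ncard * R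
      ≤ (∑ s : Fin X, {ω : Fin X → Y | ω s ∈ S}.ncard) * R := Nat.mul_le_mul h2 le_rfl
    _ = ∑ s : Fin X, {ω : Fin X → Y | ω s ∈ S}.ncard * R := by rw [Finset.sum_mul]
    _ ≤ ∑ _s : Fin X, U * Fintype.card (Fin X → Y) := Finset.sum_le_sum (fun s _ => h3 s)
    _ = X * (U * Fintype.card (Fin X → Y)) := by
        rw [Finset.sum_const, Finset.card_univ, Fintype.card_fin, smul_eq_mul]

theorem ncard_mid {X : ℕ} {A E C : Type*} [Fintype A] [Fintype E] [Fintype C]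
    (F : Set (Fin X → E)) :
    {ω : Fin X → A × E × C | (fun s => (ω s).2.1) ∈ F}.ncard * (Fintype.card E) ^ X =
      F.ncard * Fintype.card (Fin X → A × E × C) := by
  classical
  let e : (Fin X → A × E × C) ≃ (Fin X → E) × (Fin X → A × C) :=
    { toFun := fun ω => (fun s => (ω s).2.1, fun s => ((ω s).1, (ω s).2.2))
      invFun := fun p => fun s => ((p.2 s).1, p.1 s, (p.2 s).2)
      left_inv := fun ω => rfl
      right_inv := fun p => rfl }
  have h1 : {ω : Fin X → A × E × C | (fun s => (ω s).2.1) ∈ F} =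
      e.symm '' (F ×ˢ (Set.univ : Set _)) := by
    ext f
    rw [Equiv.image_symm_eq_preimage]
    simp [e]
  rw [h1, Set.ncard_image_of_injective _ e.symm.injective, Set.ncard_prod, Set.ncard_univ,
    Nat.card_eq_fintype_card, Fintype.card_congr e, Fintype.card_prod]
  simp only [Fintype.card_fun, Fintype.card_fin]
  ring

theorem card_blk {ΩA ΩH : Type} [Fintype ΩA] [Fintype ΩH] {c z M : ℕ} :
    Fintype.card (Blk ΩA ΩH c z M) = Fintype.card (Fin c → ΩA) *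
      (M * Fintype.card (∀ e : Fin M, Fin (z ^ (e.1 + 1)) → ΩH)) := by
  unfold Blk
  rw [Fintype.card_prod, Fintype.card_prod, Fintype.card_fin]

theorem badA_count {ΩA ΩH : Type} [Fintype ΩA] [Fintype ΩH] {c z M : ℕ}
    (FA : Set (Fin c → ΩA)) {R U : ℕ} (h : FA.ncard * R ≤ U * Fintype.card (Fin c → ΩA)) :
    {x : Blk ΩA ΩH c z M | x.1 ∈ FA}.ncard * R ≤ U * Fintype.card (Blk ΩA ΩH c z M) := by
  classical
  have h1 : {x : Blk ΩA ΩH c z M | x.1 ∈ FA} = FA ×ˢ (Set.univ : Set _) := by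
    ext x; simp
  rw [h1, Set.ncard_prod, Set.ncard_univ, Nat.card_eq_fintype_card, card_blk,
    Fintype.card_prod, Fintype.card_fin]
  calc FA.ncard * (M * Fintype.card (∀ e : Fin M, Fin (z ^ (e.1 + 1)) → ΩH)) * R
      = (FA.ncard * R) * (M * Fintype.card (∀ e : Fin M, Fin (z ^ (e.1 + 1)) → ΩH)) := by ring
    _ ≤ (U * Fintype.card (Fin c → ΩA)) *
        (M * Fintype.card (∀ e : Fin M, Fin (z ^ (e.1 + 1)) → ΩH)) := Nat.mul_le_mul h le_rfl
    _ = _ := by ring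

theorem badH_count {ΩA ΩH : Type} [Fintype ΩA] [Fintype ΩH] [Nonempty ΩH] {c z M : ℕ}
    (FH : ∀ e : Fin M, Set (Fin (z ^ (e.1 + 1)) → ΩH)) {R U : ℕ}
    (h : ∀ e, (FH e).ncard * R ≤ U * Fintype.card (Fin (z ^ (e.1 + 1)) → ΩH)) :
    {x : Blk ΩA ΩH c z M | x.2.2 x.2.1 ∈ FH x.2.1}.ncard * R ≤
      U * Fintype.card (Blk ΩA ΩH c z M) := by
  classical
  set C := Fintype.card (∀ e : Fin M, Fin (z ^ (e.1 + 1)) → ΩH) with hC
  have h1 : {x : Blk ΩA ΩH c z M | x.2.2 x.2.1 ∈ FH x.2.1} ⊆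
      ⋃ e ∈ (Finset.univ : Finset (Fin M)),
        ((Set.univ : Set (Fin c → ΩA)) ×ˢ (({e} : Set (Fin M)) ×ˢ
          {η : ∀ e : Fin M, Fin (z ^ (e.1 + 1)) → ΩH | η e ∈ FH e})) := by
    intro x hx
    simp only [Set.mem_iUnion]
    refine ⟨x.2.1, Finset.mem_univ _, trivial, ?_, hx⟩
    simp
  have h2 : ∀ e : Fin M, {η : ∀ e : Fin M, Fin (z ^ (e.1 + 1)) → ΩH | η e ∈ FH e}.ncard * R ≤
      U * C := by
    intro e
    have h3 := ncard_coord (β := fun e : Fin M => (Fin (z ^ (e.1 + 1)) → ΩH)) e (FH e)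
    have hpos : 0 < Fintype.card (Fin (z ^ (e.1 + 1)) → ΩH) := Fintype.card_pos
    apply Nat.le_of_mul_le_mul_right _ hpos
    calc {η : ∀ e : Fin M, Fin (z ^ (e.1 + 1)) → ΩH | η e ∈ FH e}.ncard * R *
          Fintype.card (Fin (z ^ (e.1 + 1)) → ΩH)
        = ({η : ∀ e : Fin M, Fin (z ^ (e.1 + 1)) → ΩH | η e ∈ FH e}.ncard *
          Fintype.card (Fin (z ^ (e.1 + 1)) → ΩH)) * R := by ring
      _ = ((FH e).ncard * R) * C := by rw [h3]; ring
      _ ≤ (U * Fintype.card (Fin (z ^ (e.1 + 1)) → ΩH)) * C := Nat.mul_le_mul (h e) le_rfl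
      _ = U * C * Fintype.card (Fin (z ^ (e.1 + 1)) → ΩH) := by ring
  have h4 : {x : Blk ΩA ΩH c z M | x.2.2 x.2.1 ∈ FH x.2.1}.ncard ≤
      ∑ e : Fin M, Fintype.card (Fin c → ΩA) *
        {η : ∀ e : Fin M, Fin (z ^ (e.1 + 1)) → ΩH | η e ∈ FH e}.ncard := by
    refine (Set.ncard_le_ncard h1 (Set.toFinite _)).trans ?_
    refine (Finset.set_ncard_biUnion_le _ _).trans ?_
    apply le_of_eq
    apply Finset.sum_congr rfl
    intro e _
    rw [Set.ncard_prod, Set.ncard_prod, Set.ncard_univ, Nat.card_eq_fintype_card,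
      Set.ncard_singleton, one_mul]
  calc {x : Blk ΩA ΩH c z M | x.2.2 x.2.1 ∈ FH x.2.1}.ncard * R
      ≤ (∑ e : Fin M, Fintype.card (Fin c → ΩA) *
        {η : ∀ e : Fin M, Fin (z ^ (e.1 + 1)) → ΩH | η e ∈ FH e}.ncard) * R :=
        Nat.mul_le_mul h4 le_rfl
    _ = ∑ e : Fin M, Fintype.card (Fin c → ΩA) *
        ({η : ∀ e : Fin M, Fin (z ^ (e.1 + 1)) → ΩH | η e ∈ FH e}.ncard * R) := by
        rw [Finset.sum_mul]
        apply Finset.sum_congr rfl
        intro e _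
        ring
    _ ≤ ∑ _e : Fin M, Fintype.card (Fin c → ΩA) * (U * C) :=
        Finset.sum_le_sum (fun e _ => Nat.mul_le_mul le_rfl (h2 e))
    _ = M * (Fintype.card (Fin c → ΩA) * (U * C)) := by
        rw [Finset.sum_const, Finset.card_univ, Fintype.card_fin, smul_eq_mul]
    _ = U * Fintype.card (Blk ΩA ΩH c z M) := by
        rw [card_blk]; ring

/-- final arithmetic. -/
theorem final_arith {n n1 n2 n3 κ C : ℕ} (hC : 0 < C) (hn : n ≤ n1 + n2 + n3)
    (h1 : n1 * (4 * κ) ≤ C) (h2 : n2 * (4 * κ) ≤ C) (h3 : n3 * (4 * κ) ≤ C) :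
    ¬ C ≤ κ * n := by
  intro h
  have h4 : n * (4 * κ) ≤ (n1 + n2 + n3) * (4 * κ) := Nat.mul_le_mul hn le_rfl
  have h5 : (n1 + n2 + n3) * (4 * κ) ≤ 3 * C := by nlinarith
  have h6 : 4 * C ≤ n * (4 * κ) := by nlinarith
  omega

theorem arith1 {n X U C R κ : ℕ} (h : n * R ≤ X * (U * C)) (hX : 0 < X) (hU : 0 < U)
    (hR : 4 * κ * (X * U) ≤ R) : n * (4 * κ) ≤ C := by
  have hpos : 0 < X * U := Nat.mul_pos hX hU
  apply Nat.le_of_mul_le_mul_right _ hpos
  calc n * (4 * κ) * (X * U) = n * (4 * κ * (X * U)) := by ring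
    _ ≤ n * R := Nat.mul_le_mul le_rfl hR
    _ ≤ X * (U * C) := h
    _ = C * (X * U) := by ring

end Pool.Agent.PWU
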